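import Pool.Agent.K6T.Defs

/-!
# K6T / Bags : connected sets, and how `K_p` minors are pulled back

PROOFS.

`conn_singleton`: the only nonempty `A ⊆ {v}` is `{v}`.

`conn_pair`: a nonempty `A ⊆ {x,y}`, `A ≠ {x,y}`, is `{x}` or `{y}`.

`conn_insert`: let `A ⊆ insert y C` be nonempty, `A ≠ insert y C`. If `A ∩ C` is nonempty and `≠ C`: the cut property of `C` for `A ∩ C` gives
`x ∈ A ∩ C`, `z ∈ C`, `z ∉ A ∩ C`, so `z ∉ A`. If `C ⊆ A` then `y ∉ A` (else `A = insert y C`): the edge `c y`. If `A ∩ C = ∅` then `A = {y}`: the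
edge `y c`.

`conn_biUnion`: `A'` nonempty and `F a` nonempty for `a ∈ A'`, so the union is nonempty. Let `A ⊆ ⋃_{a ∈ A'} F a` be nonempty and not everything. If some
`a ∈ A'` has `A ∩ F a ≠ ∅` and `¬ F a ⊆ A`: use the cut property of `F a` for `A ∩ F a`. Otherwise every `F a`, `a ∈ A'`, is contained in `A` or disjoint from
`A`. Let `A'' = {a ∈ A' | F a ⊆ A}`. It is nonempty (take `x ∈ A`, `x ∈ F a`), and `≠ A'` (else `A` is everything). The cut property of `A'` in `Q` gives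
`a ∈ A''`, `b ∈ A' \ A''`, `Q.Adj a b`, hence `x ∈ F a ⊆ A` and `y ∈ F b`, `G.Adj x y`, and `F b` is disjoint from `A`, so `y ∉ A`.

`HasK.of_bags`: replace the bag `B i` by `(B i).biUnion F` (`conn_biUnion`; disjointness from `hdis`, since `a ∈ B i`, `b ∈ B j`, `i ≠ j` give `a ≠ b`).

`HasK.cone`: the same bags together with the new bag `W`: use `Fin.cons W (fun i => (B i).biUnion F) : Fin (p+1) → Finset V`. The bag `B i` is
nonempty, so `W` is adjacent to it by `hWN`.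

`HasK.cone_nb`: `HasK.cone` with `F a = {a}`, `W = {v}`, `Q = G`, `N = nb G S v` (`v ∉ nb G S v`).

`hasK_of_clique`: the bags `{f i}`.
-/

set_option autoImplicit false

namespace Pool.Agent.K6T

open Finset
open Classical

variable {V : Type*}

theorem conn_singleton (G : SimpleGraph V) (v : V) : Conn G {v} := by
  refine ⟨singleton_nonempty v, fun A hA hne hAB => ?_⟩
  rcases subset_singleton_iff.1 hA with h | h
  · rw [h] at hne
    exact absurd hne not_nonempty_empty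
  · exact absurd h hAB

private theorem conn_insert' {G : SimpleGraph V} {C : Finset V} {y c : V} (hC : Conn G C)
    (hc : c ∈ C) (h : G.Adj y c) : Conn G (insert y C) := by
  refine ⟨⟨y, mem_insert_self y C⟩, fun A hA hne hAB => ?_⟩
  by_cases h1 : (A ∩ C).Nonempty
  · by_cases h2 : A ∩ C = C
    · have hCA : C ⊆ A := by
        intro z hz
        rw [← h2] at hz
        exact (mem_inter.1 hz).1
      have hyA : y ∉ A := by
        intro hy
        exact hAB (Subset.antisymm hA (insert_subset hy hCA))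
      exact ⟨c, hCA hc, y, mem_insert_self y C, hyA, h.symm⟩
    · obtain ⟨x, hx, z, hz, hzA, hxz⟩ := hC.2 (A ∩ C) inter_subset_right h1 h2
      exact ⟨x, (mem_inter.1 hx).1, z, mem_insert_of_mem hz,
        fun hz' => hzA (mem_inter.2 ⟨hz', hz⟩), hxz⟩
  · have hcA : c ∉ A := fun hc' => h1 ⟨c, mem_inter.2 ⟨hc', hc⟩⟩
    obtain ⟨z, hz⟩ := hne
    have hzy : z = y := by
      rcases mem_insert.1 (hA hz) with h3 | h3
      · exact h3
      · exact absurd ⟨z, mem_inter.2 ⟨hz, h3⟩⟩ h1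
    rw [hzy] at hz
    exact ⟨y, hz, c, mem_insert_of_mem hc, hcA, h⟩

theorem conn_pair {G : SimpleGraph V} {x y : V} (h : G.Adj x y) : Conn G {x, y} :=
  conn_insert' (conn_singleton G y) (mem_singleton_self y) h

theorem conn_insert {G : SimpleGraph V} {C : Finset V} {y c : V} (hC : Conn G C) (hc : c ∈ C)
    (h : G.Adj y c) : Conn G (insert y C) := conn_insert' hC hc h

theorem conn_biUnion {G Q : SimpleGraph V} {A' : Finset V} (F : V → Finset V)
    (hconn : ∀ a ∈ A', Conn G (F a))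
    (hadj : ∀ a ∈ A', ∀ b ∈ A', Q.Adj a b → ∃ x ∈ F a, ∃ y ∈ F b, G.Adj x y)
    (h : Conn Q A') : Conn G (A'.biUnion F) := by
  constructor
  · obtain ⟨a, ha⟩ := h.1
    obtain ⟨x, hx⟩ := (hconn a ha).1
    exact ⟨x, mem_biUnion.2 ⟨a, ha, hx⟩⟩
  · intro A hA hne hAB
    by_cases h1 : ∃ a ∈ A', (A ∩ F a).Nonempty ∧ ¬ F a ⊆ A
    · obtain ⟨a, ha, h2, h3⟩ := h1
      obtain ⟨x, hx, z, hz, hzA, hxz⟩ := (hconn a ha).2 (A ∩ F a) inter_subset_right h2 (by
        intro h4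
        apply h3
        intro z hz
        rw [← h4] at hz
        exact (mem_inter.1 hz).1)
      exact ⟨x, (mem_inter.1 hx).1, z, mem_biUnion.2 ⟨a, ha, hz⟩,
        fun hz' => hzA (mem_inter.2 ⟨hz', hz⟩), hxz⟩
    · have h2 : ∀ a ∈ A', (A ∩ F a).Nonempty → F a ⊆ A := by
        intro a ha h3
        by_contra h4
        exact h1 ⟨a, ha, h3, h4⟩
      obtain ⟨A2, hA2⟩ : ∃ A2, A2 = A'.filter (fun a => F a ⊆ A) := ⟨_, rfl⟩
      have hm : ∀ a, a ∈ A2 ↔ a ∈ A' ∧ F a ⊆ A := fun a => by rw [hA2, mem_filter]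
      have hne2 : A2.Nonempty := by
        obtain ⟨x, hx⟩ := hne
        obtain ⟨a, ha, hxa⟩ := mem_biUnion.1 (hA hx)
        exact ⟨a, (hm a).2 ⟨ha, h2 a ha ⟨x, mem_inter.2 ⟨hx, hxa⟩⟩⟩⟩
      have hne3 : A2 ≠ A' := by
        intro h3
        apply hAB
        refine Subset.antisymm hA ?_
        intro x hx
        obtain ⟨a, ha, hxa⟩ := mem_biUnion.1 hx
        rw [← h3] at ha
        exact ((hm a).1 ha).2 hxa
      obtain ⟨a, ha, b, hb, hbA, hab⟩ := h.2 A2 (fun a ha => ((hm a).1 ha).1) hne2 hne3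
      obtain ⟨haA', haF⟩ := (hm a).1 ha
      obtain ⟨x, hx, y, hy, hxy⟩ := hadj a haA' b hb hab
      refine ⟨x, haF hx, y, mem_biUnion.2 ⟨b, hb, hy⟩, fun hyA => ?_, hxy⟩
      exact hbA ((hm b).2 ⟨hb, h2 b hb ⟨y, mem_inter.2 ⟨hyA, hy⟩⟩⟩)

theorem HasK.of_bags {p : ℕ} {G Q : SimpleGraph V} {S S' : Finset V} (F : V → Finset V)
    (hsub : ∀ a ∈ S', F a ⊆ S) (hconn : ∀ a ∈ S', Conn G (F a))
    (hdis : ∀ a ∈ S', ∀ b ∈ S', a ≠ b → Disjoint (F a) (F b))
    (hadj : ∀ a ∈ S', ∀ b ∈ S', Q.Adj a b → ∃ x ∈ F a, ∃ y ∈ F b, G.Adj x y)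
    (h : HasK p Q S') : HasK p G S := by
  obtain ⟨B, h1, h2, h3, h4⟩ := h
  refine ⟨fun i => (B i).biUnion F, fun i => ?_, fun i => ?_, fun i j hij => ?_,
    fun i j hij => ?_⟩
  · intro x hx
    obtain ⟨a, ha, hxa⟩ := mem_biUnion.1 hx
    exact hsub a (h1 i ha) hxa
  · exact conn_biUnion (Q := Q) F (fun a ha => hconn a (h1 i ha))
      (fun a ha b hb hab => hadj a (h1 i ha) b (h1 i hb) hab) (h2 i)
  · rw [disjoint_biUnion_left]
    intro a ha
    rw [disjoint_biUnion_right]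
    intro b hb
    refine hdis a (h1 i ha) b (h1 j hb) ?_
    rintro rfl
    exact (disjoint_left.1 (h3 i j hij)) ha hb
  · obtain ⟨a, ha, b, hb, hab⟩ := h4 i j hij
    obtain ⟨x, hx, y, hy, hxy⟩ := hadj a (h1 i ha) b (h1 j hb) hab
    exact ⟨x, mem_biUnion.2 ⟨a, ha, hx⟩, y, mem_biUnion.2 ⟨b, hb, hy⟩, hxy⟩

theorem HasK.cone {p : ℕ} {G Q : SimpleGraph V} {S N : Finset V} (F : V → Finset V) (W : Finset V)
    (hW : Conn G W) (hWS : W ⊆ S)
    (hsub : ∀ a ∈ N, F a ⊆ S) (hconn : ∀ a ∈ N, Conn G (F a))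
    (hdis : ∀ a ∈ N, ∀ b ∈ N, a ≠ b → Disjoint (F a) (F b))
    (hadj : ∀ a ∈ N, ∀ b ∈ N, Q.Adj a b → ∃ x ∈ F a, ∃ y ∈ F b, G.Adj x y)
    (hWF : ∀ a ∈ N, Disjoint W (F a)) (hWN : ∀ a ∈ N, ∃ x ∈ W, ∃ y ∈ F a, G.Adj x y)
    (h : HasK p Q N) : HasK (p + 1) G S := by
  obtain ⟨B₀, k1, k2, k3, k4⟩ := h
  have hdisW : ∀ i, Disjoint W ((B₀ i).biUnion F) := by
    intro i
    rw [disjoint_biUnion_right]
    exact fun a ha => hWF a (k1 i ha)
  have hadW : ∀ i, ∃ x ∈ W, ∃ y ∈ (B₀ i).biUnion F, G.Adj x y := by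
    intro i
    obtain ⟨a, ha⟩ := (k2 i).1
    obtain ⟨x, hx, y, hy, hxy⟩ := hWN a (k1 i ha)
    exact ⟨x, hx, y, mem_biUnion.2 ⟨a, ha, hy⟩, hxy⟩
  refine ⟨Fin.cons W (fun i => (B₀ i).biUnion F), fun i => ?_, fun i => ?_, fun i j => ?_,
    fun i j => ?_⟩
  · refine Fin.cases ?_ (fun i => ?_) i
    · exact hWS
    · intro x hx
      obtain ⟨a, ha, hxa⟩ := mem_biUnion.1 hx
      exact hsub a (k1 i ha) hxa
  · refine Fin.cases ?_ (fun i => ?_) i
    · exact hW
    · exact conn_biUnion (Q := Q) F (fun a ha => hconn a (k1 i ha))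
        (fun a ha b hb hab => hadj a (k1 i ha) b (k1 i hb) hab) (k2 i)
  · refine Fin.cases ?_ (fun i => ?_) i
    · refine Fin.cases ?_ (fun j => ?_) j
      · exact fun h => absurd rfl h
      · exact fun _ => hdisW j
    · refine Fin.cases ?_ (fun j => ?_) j
      · exact fun _ => (hdisW i).symm
      · intro hij
        have hij' : i ≠ j := fun h => hij (by rw [h])
        change Disjoint ((B₀ i).biUnion F) ((B₀ j).biUnion F)
        rw [disjoint_biUnion_left]
        intro a ha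
        rw [disjoint_biUnion_right]
        intro b hb
        refine hdis a (k1 i ha) b (k1 j hb) ?_
        rintro rfl
        exact (disjoint_left.1 (k3 i j hij')) ha hb
  · refine Fin.cases ?_ (fun i => ?_) i
    · refine Fin.cases ?_ (fun j => ?_) j
      · exact fun h => absurd rfl h
      · exact fun _ => hadW j
    · refine Fin.cases ?_ (fun j => ?_) j
      · intro _
        obtain ⟨x, hx, y, hy, hxy⟩ := hadW i
        exact ⟨y, hy, x, hx, hxy.symm⟩
      · intro hij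
        have hij' : i ≠ j := fun h => hij (by rw [h])
        obtain ⟨a, ha, b, hb, hab⟩ := k4 i j hij'
        obtain ⟨x, hx, y, hy, hxy⟩ := hadj a (k1 i ha) b (k1 j hb) hab
        exact ⟨x, mem_biUnion.2 ⟨a, ha, hx⟩, y, mem_biUnion.2 ⟨b, hb, hy⟩, hxy⟩

theorem HasK.cone_nb {p : ℕ} {G : SimpleGraph V} {S : Finset V} {v : V} (hv : v ∈ S)
    (h : HasK p G (nb G S v)) : HasK (p + 1) G S := by
  refine HasK.cone (Q := G) (N := nb G S v) (fun a => {a}) {v} (conn_singleton G v)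
    (singleton_subset_iff.2 hv) (fun a ha => singleton_subset_iff.2 (mem_nb.1 ha).1)
    (fun a _ => conn_singleton G a) (fun a _ b _ hab => ?_) (fun a _ b _ hab => ?_)
    (fun a ha => ?_) (fun a ha => ?_) h
  · rw [disjoint_singleton]
    exact hab
  · exact ⟨a, mem_singleton_self a, b, mem_singleton_self b, hab⟩
  · rw [disjoint_singleton]
    exact (mem_nb.1 ha).2.ne
  · exact ⟨v, mem_singleton_self v, a, mem_singleton_self a, (mem_nb.1 ha).2⟩

theorem hasK_of_clique {p : ℕ} {G : SimpleGraph V} {S : Finset V} (f : Fin p → V)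
    (hf : ∀ i, f i ∈ S) (h : ∀ i j, i ≠ j → G.Adj (f i) (f j)) : HasK p G S := by
  refine ⟨fun i => {f i}, fun i => singleton_subset_iff.2 (hf i), fun i => conn_singleton G _,
    fun i j hij => ?_, fun i j hij => ?_⟩
  · rw [disjoint_singleton]
    exact (h i j hij).ne
  · exact ⟨f i, mem_singleton_self _, f j, mem_singleton_self _, h i j hij⟩

end Pool.Agent.K6T
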