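import Pool.Agent.K6T.Mad5

/-!
# K6T / Bip : the bipartite graph between two sets without `K_5` minor

PROOF of `bip_bound`.  Let `S = A ∪ B` and `H` the bipartite subgraph: `H.Adj x y :⇔ G.Adj x y ∧ ((x ∈ A ∧ y ∈ B) ∨ (x ∈ B ∧ y ∈ A))`, `H ≤ G`,
`e` the number of pairs of `A ×ˢ B` adjacent in `G`; `dc H S = 2 e` (`ed_card`, or: `nb H S a = B.filter (G.Adj a)` for `a ∈ A`, and symmetrically).

CASE 1: there are `a ≠ a'` in `A`, `b ≠ b'` in `B` with `H.Adj a b`, `H.Adj a' b'` and `¬ (H.Adj a b' ∧ H.Adj a' b)`. Apply `quot` to `H`, `S`,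
`M = {(a,b), (a',b')}`: `Mat M` (four different vertices), `tri H S f = 0` for both (a common neighbour of a vertex of `A` and a vertex of `B` would be in `B` and in `A`),
`ww (PP H) M = 0` (`PP H (a,b) (a',b')` needs `H.Adj a a'`, impossible, or `H.Adj a b' ∧ H.Adj b a'`, excluded; `not_PP_self`). So there are `Q`, `S'` with
`|S'| + 2 = |A| + |B|`, `2 e ≤ dc Q S' + 4` and `¬ HasK 5 Q S'` (`HasK 5 Q S' → HasK 5 H S → HasK 5 G S`). If `|S'| ≥ 3`: by `mad3`
`dc Q S' + 12 < 6 |S'| + 2`, by `dc_even` `dc Q S' + 12 ≤ 6 |S'|`, so `2 e ≤ 6 (|A| + |B|) - 20`, `e + 10 ≤ 3 |A| + 3 |B|`. If `|S'| ≤ 2`: `|A|, |B| ≥ 2` and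
`|A| + |B| ≤ 4`, so `|A| = |B| = 2`, `e ≤ 4`, `t ≥ 4`.

CASE 2: no such `a, a', b, b'`. Let `A0 ⊆ A`, `B0 ⊆ B` be the vertices with a neighbour on the other side. Every `a ∈ A0` is adjacent to every `b ∈ B0`: `a` has a
neighbour `b1 ∈ B`, `b` has a neighbour `a1 ∈ A`; if `a1 = a` or `b1 = b` we are done, otherwise the edges `a b1` and `a1 b` are disjoint and the case assumption gives
`H.Adj a b`. If `|A0| ≥ 4` and `|B0| ≥ 4`: with different `a_0..a_3 ∈ A0`, `b_0..b_3 ∈ B0` the bags `{a_0,b_0}, {a_1,b_1}, {a_2,b_2}, {a_3}, {b_3}` are a `K_5` minor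
(`conn_pair`, `conn_singleton`), contradiction. If `|A0| ≤ 3`: `e ≤ |A0| |B0| ≤ 3 |B|`, and `10 ≤ 12 ≤ 2 (|A| + t) ≤ 3 |A| + 2 t`. If `|B0| ≤ 3`: symmetric.
-/

set_option autoImplicit false

namespace Pool.Agent.K6T

open Finset
open Classical

variable {V : Type*}

/-- the bipartite subgraph between two sets -/
def bpg (G : SimpleGraph V) (A B : Finset V) : SimpleGraph V where
  Adj := fun x y => G.Adj x y ∧ ((x ∈ A ∧ y ∈ B) ∨ (x ∈ B ∧ y ∈ A))
  symm := ⟨fun x y h => ⟨h.1.symm, by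
    rcases h.2 with ⟨h1, h2⟩ | ⟨h1, h2⟩
    · exact Or.inr ⟨h2, h1⟩
    · exact Or.inl ⟨h2, h1⟩⟩⟩
  loopless := ⟨fun x h => G.loopless.irrefl x h.1⟩

theorem bpg_adj {G : SimpleGraph V} {A B : Finset V} {x y : V} :
    (bpg G A B).Adj x y ↔ G.Adj x y ∧ ((x ∈ A ∧ y ∈ B) ∨ (x ∈ B ∧ y ∈ A)) := Iff.rfl

theorem bpg_le (G : SimpleGraph V) (A B : Finset V) : bpg G A B ≤ G := fun _ _ h => h.1

theorem bpg_dc (G : SimpleGraph V) {A B : Finset V} (hAB : Disjoint A B) :
    dc (bpg G A B) (A ∪ B) = 2 * ((A ×ˢ B).filter (fun f => G.Adj f.1 f.2)).card := by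
  have hd := Finset.disjoint_left.1 hAB
  unfold dc
  rw [Finset.sum_union hAB]
  have h1 : ∑ v ∈ A, (nb (bpg G A B) (A ∪ B) v).card =
      ((A ×ˢ B).filter (fun f => G.Adj f.1 f.2)).card := by
    rw [Finset.card_filter, Finset.sum_product]
    refine Finset.sum_congr rfl fun v hv => ?_
    rw [← Finset.card_filter]
    congr 1
    ext w
    simp only [mem_nb, Finset.mem_union, bpg_adj, Finset.mem_filter]
    constructor
    · rintro ⟨_, h, ⟨_, h2⟩ | ⟨h2, _⟩⟩
      · exact ⟨h2, h⟩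
      · exact absurd h2 (hd hv)
    · rintro ⟨h1, h2⟩
      exact ⟨Or.inr h1, h2, Or.inl ⟨hv, h1⟩⟩
  have h2 : ∑ v ∈ B, (nb (bpg G A B) (A ∪ B) v).card =
      ((A ×ˢ B).filter (fun f => G.Adj f.1 f.2)).card := by
    rw [Finset.card_filter, Finset.sum_product_right]
    refine Finset.sum_congr rfl fun v hv => ?_
    rw [← Finset.card_filter]
    congr 1
    ext w
    simp only [mem_nb, Finset.mem_union, bpg_adj, Finset.mem_filter]
    constructor
    · rintro ⟨_, h, ⟨h2, _⟩ | ⟨_, h2⟩⟩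
      · exact absurd hv (hd h2)
      · exact ⟨h2, h.symm⟩
    · rintro ⟨h1, h2⟩
      exact ⟨Or.inl h1, h2.symm, Or.inr ⟨hv, h1⟩⟩
  rw [h1, h2]
  ring

/-- a complete bipartite graph `K_{4,4}` has a `K_5` minor -/
theorem hasK_K44 (G : SimpleGraph V) (A B : Finset V) (f g : Fin 4 → V)
    (hf : Function.Injective f) (hg : Function.Injective g) (hfA : ∀ i, f i ∈ A)
    (hgB : ∀ i, g i ∈ B) (hne : ∀ i j, f i ≠ g j) (hadj : ∀ i j, G.Adj (f i) (g j)) :
    HasK 5 G (A ∪ B) := by
  have hadj' : ∀ i j, G.Adj (g i) (f j) := fun i j => (hadj j i).symm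
  have hne' : ∀ i j, g i ≠ f j := fun i j => (hne j i).symm
  refine ⟨![{f 0, g 0}, {f 1, g 1}, {f 2, g 2}, {f 3}, {g 3}], ?_, ?_, ?_, ?_⟩
  · intro i
    fin_cases i <;>
      simp [Finset.insert_subset_iff, hfA, hgB]
  · intro i
    fin_cases i
    · exact conn_pair (hadj 0 0)
    · exact conn_pair (hadj 1 1)
    · exact conn_pair (hadj 2 2)
    · exact conn_singleton G _
    · exact conn_singleton G _
  · intro i j hij
    fin_cases i <;> fin_cases j <;>
      first
      | exact absurd rfl hij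
      | (simp [Finset.disjoint_left, hf.eq_iff, hg.eq_iff, hne, hne'])
  · intro i j hij
    fin_cases i <;> fin_cases j <;>
      first
      | exact absurd rfl hij
      | (simp [hadj, hadj'])

theorem exists_inj {A : Finset V} {k : ℕ} (h : k ≤ A.card) :
    ∃ f : Fin k → V, Function.Injective f ∧ ∀ i, f i ∈ A := by
  refine ⟨fun i => (A.equivFin.symm (Fin.castLE h i)).1, ?_, fun i => Subtype.property _⟩
  intro i j hij
  have h1 := Subtype.ext hij
  have h2 := A.equivFin.symm.injective h1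
  exact Fin.castLE_injective h h2

theorem bip_bound (G : SimpleGraph V) (A B : Finset V) (hAB : Disjoint A B) (t : ℕ)
    (hA : 6 ≤ A.card + t) (hB : 6 ≤ B.card + t) (hno : ¬ HasK 5 G (A ∪ B)) :
    ((A ×ˢ B).filter (fun f => G.Adj f.1 f.2)).card + 10 ≤ 3 * A.card + 3 * B.card + 2 * t := by
  have hd := Finset.disjoint_left.1 hAB
  by_cases hc : ∃ a ∈ A, ∃ a' ∈ A, ∃ b ∈ B, ∃ b' ∈ B, a ≠ a' ∧ b ≠ b' ∧ G.Adj a b ∧
      G.Adj a' b' ∧ ¬ (G.Adj a b' ∧ G.Adj a' b)
  · obtain ⟨a, ha, a', ha', b, hb, b', hb', haa, hbb, h1, h2, h3⟩ := hc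
    have hab : a ≠ b := fun h => hd ha (h ▸ hb)
    have hab' : a ≠ b' := fun h => hd ha (h ▸ hb')
    have ha'b : a' ≠ b := fun h => hd ha' (h ▸ hb)
    have ha'b' : a' ≠ b' := fun h => hd ha' (h ▸ hb')
    have hS : (A ∪ B).card = A.card + B.card := Finset.card_union_of_disjoint hAB
    have hfg : ((a, b) : V × V) ≠ (a', b') := fun h => haa (Prod.mk.inj h).1
    have hMc : ({(a, b), (a', b')} : Finset (V × V)).card = 2 := Finset.card_pair hfg
    have hMe : ({(a, b), (a', b')} : Finset (V × V)) ⊆ ed (bpg G A B) (A ∪ B) := by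
      intro f hf
      rw [Finset.mem_insert, Finset.mem_singleton] at hf
      rcases hf with rfl | rfl
      · exact mem_ed.2 ⟨Finset.mem_union_left _ ha, Finset.mem_union_right _ hb, h1,
          Or.inl ⟨ha, hb⟩⟩
      · exact mem_ed.2 ⟨Finset.mem_union_left _ ha', Finset.mem_union_right _ hb', h2,
          Or.inl ⟨ha', hb'⟩⟩
    have hMm : Mat ({(a, b), (a', b')} : Finset (V × V)) := by
      have h0 : ¬ Touch ((a, b) : V × V) (a', b') := by
        rintro ⟨_, h | h | h | h⟩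
        · exact haa h
        · exact hab' h
        · exact ha'b h.symm
        · exact hbb h
      intro f hf g hg
      rw [Finset.mem_insert, Finset.mem_singleton] at hf hg
      rcases hf with rfl | rfl <;> rcases hg with rfl | rfl
      · exact not_touch_self _
      · exact h0
      · exact fun h => h0 h.symm
      · exact not_touch_self _
    have htri : ∀ x ∈ A, ∀ y ∈ B, tri (bpg G A B) (A ∪ B) (x, y) = 0 := by
      intro x hx y hy
      unfold tri
      rw [Finset.card_eq_zero, Finset.filter_eq_empty_iff]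
      rintro z - ⟨⟨-, h4⟩, ⟨-, h5⟩⟩
      rcases h4 with ⟨_, hz⟩ | ⟨hx', _⟩
      · rcases h5 with ⟨hy', _⟩ | ⟨_, hz'⟩
        · exact hd hy' hy
        · exact hd hz' hz
      · exact hd hx hx'
    have hPP : ¬ PP (bpg G A B) (a, b) (a', b') := by
      rintro ⟨-, ⟨h4, _⟩ | ⟨h4, h5, _⟩⟩
      · rcases h4.2 with ⟨_, h6⟩ | ⟨h6, _⟩
        · exact hd ha' h6
        · exact hd ha h6
      · exact h3 ⟨h4.1, h5.1.symm⟩
    obtain ⟨Q, S', hS'S, hS'c, hdc, hK⟩ := quot (bpg G A B) (A ∪ B) _ hMe hMm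
    have hsum : ∑ f ∈ ({(a, b), (a', b')} : Finset (V × V)), tri (bpg G A B) (A ∪ B) f = 0 := by
      rw [Finset.sum_pair hfg, htri a ha b hb, htri a' ha' b' hb']
    have hww : ww (PP (bpg G A B)) ({(a, b), (a', b')} : Finset (V × V)) = 0 := by
      unfold ww
      refine Finset.sum_eq_zero fun f hf => ?_
      unfold pw
      rw [Finset.card_eq_zero, Finset.filter_eq_empty_iff]
      intro g hg
      rw [Finset.mem_insert, Finset.mem_singleton] at hf hg
      rcases hf with rfl | rfl <;> rcases hg with rfl | rfl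
      · exact not_PP_self _ _
      · exact hPP
      · exact fun h => hPP h.symm
      · exact not_PP_self _ _
    rw [hsum, hww, hMc, bpg_dc G hAB] at hdc
    rw [hMc, hS] at hS'c
    have hnoQ : ¬ HasK 5 Q S' := fun h =>
      hno ((hK 5 h).mono (bpg_le G A B) (Finset.Subset.refl _))
    by_cases hS3 : 3 ≤ S'.card
    · have h4 : ¬ (2 * 3 * S'.card + 2 ≤ dc Q S' + (3 + 1) * 3) := fun h =>
        hnoQ (mad3 V Q S' hS3 h)
      obtain ⟨r, hr⟩ := dc_even Q S'
      omega
    · have hA2 : 2 ≤ A.card := by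
        have h5 : ({a, a'} : Finset V) ⊆ A := by
          intro x hx
          rw [Finset.mem_insert, Finset.mem_singleton] at hx
          rcases hx with rfl | rfl
          · exact ha
          · exact ha'
        have h6 := Finset.card_le_card h5
        rwa [Finset.card_pair haa] at h6
      have hB2 : 2 ≤ B.card := by
        have h5 : ({b, b'} : Finset V) ⊆ B := by
          intro x hx
          rw [Finset.mem_insert, Finset.mem_singleton] at hx
          rcases hx with rfl | rfl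
          · exact hb
          · exact hb'
        have h6 := Finset.card_le_card h5
        rwa [Finset.card_pair hbb] at h6
      have hA' : A.card = 2 := by omega
      have hB' : B.card = 2 := by omega
      have h7 : ((A ×ˢ B).filter (fun f => G.Adj f.1 f.2)).card ≤ 4 := by
        refine (Finset.card_filter_le _ _).trans ?_
        rw [Finset.card_product, hA', hB']
      omega
  · push Not at hc
    have hcomp : ∀ a ∈ A.filter (fun a => ∃ b ∈ B, G.Adj a b),
        ∀ b ∈ B.filter (fun b => ∃ a ∈ A, G.Adj a b), G.Adj a b := by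
      intro a ha b hb
      obtain ⟨ha, b1, hb1, hab1⟩ := Finset.mem_filter.1 ha
      obtain ⟨hb, a1, ha1, ha1b⟩ := Finset.mem_filter.1 hb
      by_cases h4 : a = a1
      · rw [h4]; exact ha1b
      · by_cases h5 : b1 = b
        · rw [← h5]; exact hab1
        · exact (hc a ha a1 ha1 b1 hb1 b hb h4 h5 hab1 ha1b).1
    have hsub : (A ×ˢ B).filter (fun f => G.Adj f.1 f.2) ⊆
        (A.filter (fun a => ∃ b ∈ B, G.Adj a b)) ×ˢ (B.filter (fun b => ∃ a ∈ A, G.Adj a b)) := by
      intro f hf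
      obtain ⟨h1, h2⟩ := Finset.mem_filter.1 hf
      obtain ⟨h3, h4⟩ := Finset.mem_product.1 h1
      exact Finset.mem_product.2 ⟨Finset.mem_filter.2 ⟨h3, f.2, h4, h2⟩,
        Finset.mem_filter.2 ⟨h4, f.1, h3, h2⟩⟩
    have hcard := Finset.card_le_card hsub
    rw [Finset.card_product] at hcard
    have hA0 := Finset.card_filter_le A (fun a => ∃ b ∈ B, G.Adj a b)
    have hB0 := Finset.card_filter_le B (fun b => ∃ a ∈ A, G.Adj a b)
    by_cases h4 : 4 ≤ (A.filter (fun a => ∃ b ∈ B, G.Adj a b)).card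
    · by_cases h5 : 4 ≤ (B.filter (fun b => ∃ a ∈ A, G.Adj a b)).card
      · exfalso
        obtain ⟨f, hf, hfA⟩ := exists_inj h4
        obtain ⟨g, hg, hgB⟩ := exists_inj h5
        refine hno (hasK_K44 G A B f g hf hg (fun i => (Finset.mem_filter.1 (hfA i)).1)
          (fun i => (Finset.mem_filter.1 (hgB i)).1) (fun i j h => ?_)
          (fun i j => hcomp _ (hfA i) _ (hgB j)))
        exact hd (Finset.mem_filter.1 (hfA i)).1 (h ▸ (Finset.mem_filter.1 (hgB j)).1)
      · have h6 : (A.filter (fun a => ∃ b ∈ B, G.Adj a b)).card *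
            (B.filter (fun b => ∃ a ∈ A, G.Adj a b)).card ≤ A.card * 3 :=
          Nat.mul_le_mul hA0 (by omega)
        omega
    · have h6 : (A.filter (fun a => ∃ b ∈ B, G.Adj a b)).card *
          (B.filter (fun b => ∃ a ∈ A, G.Adj a b)).card ≤ 3 * B.card :=
        Nat.mul_le_mul (by omega) hB0
      omega

end Pool.Agent.K6T
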