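import Pool.Agent.K6T.Bip

/-!
# K6T / CBd : the number of edges opposite to a given edge in an induced 4-cycle

PROOF of `c_bound`.  `f = (x, y)`, `x ~ y`. `A = {z ∈ nb G S x | z ≠ y ∧ ¬ G.Adj y z}`, `B = {z ∈ nb G S y | z ≠ x ∧ ¬ G.Adj x z}`, `t = tri G S f`. `nb G S x` is the disjoint
union of `A`, `{y}` and the common neighbours, so `|A| + 1 + t = |nb G S x| ≥ 7`; similarly `|B| + 1 + t = |nb G S y| ≥ 7`. `A` and `B` are disjoint.
`¬ HasK 5 G (A ∪ B)`: otherwise `HasK.cone` with `W = {x, y}` (`conn_pair`), `F a = {a}`, `Q = G`, `N = A ∪ B` gives `HasK 6 G S` (every vertex of `A` is adjacent to `x`, every vertex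
of `B` to `y`; `x, y ∉ A ∪ B`). So `bip_bound`: `e + 10 ≤ 3 |A| + 3 |B| + 2 t = 3 (|nb x| + |nb y|) - 6 - 4 t` with `e` the number of adjacent pairs in `A ×ˢ B`.
Every `e' = (u, v) ∈ ed G S` with `PP G f e'` has `(u, v) ∈ A ×ˢ B` or `(v, u) ∈ A ×ˢ B` (and `u ~ v`): the first case of `PP` is `x ~ u`, `y ~ v`, `x ≁ v`, `y ≁ u`, the second is
`x ~ v`, `y ~ u`, `x ≁ u`, `y ≁ v`. So `pw (PP G) (ed G S) f ≤ 2 e` (the set is contained in the union of the set of adjacent pairs of `A ×ˢ B` and its image under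
`Prod.swap`), and `2 e + 32 + 8 t ≤ 6 (|nb x| + |nb y|)`.
-/

set_option autoImplicit false

namespace Pool.Agent.K6T

open Finset
open Classical

variable {V : Type*}

private theorem cb_card (G : SimpleGraph V) {S : Finset V} {x y : V} (hy : y ∈ S)
    (hxy : G.Adj x y) :
    ((nb G S x).filter (fun z => z ≠ y ∧ ¬ G.Adj y z)).card + 1 + tri G S (x, y) =
      (nb G S x).card := by
  have h1 := Finset.card_filter_add_card_filter_not (s := nb G S x)
    (fun z => z ≠ y ∧ ¬ G.Adj y z)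
  have h2 : (nb G S x).filter (fun z => ¬ (z ≠ y ∧ ¬ G.Adj y z)) =
      insert y (S.filter (fun z => G.Adj x z ∧ G.Adj y z)) := by
    ext z
    simp only [mem_filter, mem_nb, mem_insert]
    constructor
    · rintro ⟨⟨h3, h4⟩, h5⟩
      by_cases h6 : z = y
      · exact Or.inl h6
      · refine Or.inr ⟨h3, h4, ?_⟩
        by_contra h7
        exact h5 ⟨h6, h7⟩
    · rintro (h | ⟨h3, h4, h5⟩)
      · rw [h]
        exact ⟨⟨hy, hxy⟩, fun h => h.1 rfl⟩
      · exact ⟨⟨h3, h4⟩, fun h => h.2 h5⟩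
  have h3 : y ∉ S.filter (fun z => G.Adj x z ∧ G.Adj y z) := by
    intro h
    exact G.loopless.irrefl y (mem_filter.1 h).2.2
  rw [h2, card_insert_of_notMem h3] at h1
  unfold tri
  simp only
  omega

theorem c_bound {G : SimpleGraph V} {S : Finset V} (hd : ∀ v ∈ S, 7 ≤ (nb G S v).card)
    (hno : ¬ HasK 6 G S) {f : V × V} (hf : f ∈ ed G S) :
    pw (PP G) (ed G S) f + 32 + 8 * tri G S f ≤
      6 * ((nb G S f.1).card + (nb G S f.2).card) := by
  obtain ⟨x, y⟩ := f
  rw [mem_ed] at hf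
  obtain ⟨hx, hy, hxy⟩ := hf
  simp only at hx hy hxy
  simp only
  have cA := cb_card G hy hxy
  have cB := cb_card G hx hxy.symm
  have ht : tri G S (y, x) = tri G S (x, y) := by
    unfold tri
    congr 1
    ext z
    simp only [mem_filter]
    tauto
  rw [ht] at cB
  obtain ⟨A, hA⟩ : ∃ A, A = (nb G S x).filter (fun z => z ≠ y ∧ ¬ G.Adj y z) := ⟨_, rfl⟩
  obtain ⟨B, hB⟩ : ∃ B, B = (nb G S y).filter (fun z => z ≠ x ∧ ¬ G.Adj x z) := ⟨_, rfl⟩
  rw [← hA] at cA
  rw [← hB] at cB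
  have mA : ∀ z, z ∈ A ↔ z ∈ S ∧ G.Adj x z ∧ z ≠ y ∧ ¬ G.Adj y z := by
    intro z
    rw [hA, mem_filter, mem_nb]
    tauto
  have mB : ∀ z, z ∈ B ↔ z ∈ S ∧ G.Adj y z ∧ z ≠ x ∧ ¬ G.Adj x z := by
    intro z
    rw [hB, mem_filter, mem_nb]
    tauto
  have hdis : Disjoint A B := by
    rw [Finset.disjoint_left]
    intro z h1 h2
    exact ((mB z).1 h2).2.2.2 ((mA z).1 h1).2.1
  have hdx := hd x hx
  have hdy := hd y hy
  have hno5 : ¬ HasK 5 G (A ∪ B) := by
    intro h
    apply hno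
    refine HasK.cone (Q := G) (N := A ∪ B) (fun a => {a}) {x, y} (conn_pair hxy) ?_ ?_ ?_ ?_ ?_
      ?_ ?_ h
    · intro z hz
      rw [mem_insert, mem_singleton] at hz
      rcases hz with h1 | h1 <;> rw [h1] <;> assumption
    · intro a ha z hz
      rw [mem_singleton] at hz
      rw [hz]
      rcases mem_union.1 ha with h1 | h1
      · exact ((mA a).1 h1).1
      · exact ((mB a).1 h1).1
    · intro a _
      exact conn_singleton G a
    · intro a _ b _ hab
      exact disjoint_singleton.2 hab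
    · intro a _ b _ hab
      exact ⟨a, mem_singleton_self a, b, mem_singleton_self b, hab⟩
    · intro a ha
      rw [disjoint_singleton_right, mem_insert, mem_singleton]
      rintro (h1 | h1)
      · rw [h1] at ha
        rcases mem_union.1 ha with h2 | h2
        · exact G.loopless.irrefl x ((mA x).1 h2).2.1
        · exact ((mB x).1 h2).2.2.1 rfl
      · rw [h1] at ha
        rcases mem_union.1 ha with h2 | h2
        · exact ((mA y).1 h2).2.2.1 rfl
        · exact G.loopless.irrefl y ((mB y).1 h2).2.1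
    · intro a ha
      rcases mem_union.1 ha with h2 | h2
      · exact ⟨x, by simp, a, mem_singleton_self a, ((mA a).1 h2).2.1⟩
      · exact ⟨y, by simp, a, mem_singleton_self a, ((mB a).1 h2).2.1⟩
  have hb := bip_bound G A B hdis (tri G S (x, y)) (by omega) (by omega) hno5
  obtain ⟨E, hE⟩ : ∃ E, E = (A ×ˢ B).filter (fun f => G.Adj f.1 f.2) := ⟨_, rfl⟩
  rw [← hE] at hb
  have hpw : pw (PP G) (ed G S) (x, y) ≤ E.card + E.card := by
    unfold pw
    have h1 : (ed G S).filter (fun g => PP G (x, y) g) ⊆ E ∪ E.image Prod.swap := by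
      rintro ⟨u, v⟩ hg
      rw [mem_filter, mem_ed] at hg
      obtain ⟨⟨hu, hv, huv⟩, ⟨h1, h2, h3, h4⟩, h5⟩ := hg
      simp only at hu hv huv h1 h2 h3 h4 h5
      rw [mem_union]
      rcases h5 with ⟨a, b, c, d⟩ | ⟨a, b, c, d⟩
      · left
        rw [hE, mem_filter, mem_product, mA, mB]
        exact ⟨⟨⟨hu, a, h3.symm, d⟩, ⟨hv, b, h2.symm, c⟩⟩, huv⟩
      · right
        rw [mem_image]
        refine ⟨(v, u), ?_, rfl⟩
        rw [hE, mem_filter, mem_product, mA, mB]
        exact ⟨⟨⟨hv, a, h4.symm, d⟩, ⟨hu, b, h1.symm, c⟩⟩, huv.symm⟩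
    refine (card_le_card h1).trans ((card_union_le _ _).trans ?_)
    exact Nat.add_le_add_left card_image_le _
  omega

end Pool.Agent.K6T
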