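import Pool.Agent.K6T.Dc

/-!
# K6T / Cnt : counting around a matching

PROOFS.  `M ⊆ ed G S` and `Mat M`: the ends of two different elements of `M` are four different vertices, and `f.1 ≠ f.2` for `f ∈ M`.

`mat_deg`: let `U = M.image Prod.fst ∪ M.image Prod.snd ⊆ S`, a disjoint union, `Prod.fst`, `Prod.snd` injective on `M`: `|U| = 2 |M|` and
`∑_{f ∈ M} (|nb f.1| + |nb f.2|) = ∑_{v ∈ U} |nb v|`. `dc G S = ∑_{v ∈ U} + ∑_{v ∈ S \ U} ≥ ∑_{v ∈ U} |nb v| + 7 (|S| - 2 |M|)`.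

`touch_card`: `f = (x, y) ∈ M`. An element of `M` does not touch `f`, so the set is `{e ∈ ed G S | e ≠ f, e shares a vertex with f}`. The pairs `e ∈ ed G S` with
`e.1 ∈ {x,y}`: `|nb x| + |nb y|` many; with `e.2 ∈ {x,y}`: the same number; with both: `(x,y)`, `(y,x)`. So `2 (|nb x| + |nb y|) - 2` pairs share a vertex with `f`, and one of
them is `f`.

`touch_two`: `f, g ∈ M` are disjoint. If `e` touches both, one end of `e` is in `f` and the other in `g`, so `e` is one of the cross edges between `f` and `g`, in one of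
the two orders. By `PP` there are exactly two cross edges: in the first case the set is contained in
`{(f.1,g.1), (g.1,f.1), (f.2,g.2), (g.2,f.2)}`, in the second case in `{(f.1,g.2), (g.2,f.1), (f.2,g.1), (g.1,f.2)}`.
-/

set_option autoImplicit false

namespace Pool.Agent.K6T

open Finset
open Classical

variable {V : Type*}

private theorem mat_inj1 {M : Finset (V × V)} (hm : Mat M) {f g : V × V} (hf : f ∈ M)
    (hg : g ∈ M) (h : f.1 = g.1) : f = g := by
  by_contra hne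
  exact hm f hf g hg ⟨hne, Or.inl h⟩

private theorem mat_inj2 {M : Finset (V × V)} (hm : Mat M) {f g : V × V} (hf : f ∈ M)
    (hg : g ∈ M) (h : f.2 = g.2) : f = g := by
  by_contra hne
  exact hm f hf g hg ⟨hne, Or.inr (Or.inr (Or.inr h))⟩

private theorem mat_sum {G : SimpleGraph V} {S : Finset V} {M : Finset (V × V)}
    (hM : M ⊆ ed G S) (hm : Mat M) (ψ : V → ℕ) :
    ∑ f ∈ M, (ψ f.1 + ψ f.2) ≤ ∑ v ∈ S, ψ v := by
  have hdis : Disjoint (M.image Prod.fst) (M.image Prod.snd) := by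
    rw [Finset.disjoint_left]
    intro v h1 h2
    obtain ⟨f, hf, rfl⟩ := Finset.mem_image.1 h1
    obtain ⟨g, hg, hgf⟩ := Finset.mem_image.1 h2
    by_cases hfg : f = g
    · subst hfg
      have h3 := (mem_ed.1 (hM hf)).2.2
      rw [hgf] at h3
      exact G.loopless.irrefl _ h3
    · exact hm f hf g hg ⟨hfg, Or.inr (Or.inl hgf.symm)⟩
  have h1 : ∑ v ∈ M.image Prod.fst, ψ v = ∑ f ∈ M, ψ f.1 :=
    Finset.sum_image fun f hf g hg h => mat_inj1 hm hf hg h
  have h2 : ∑ v ∈ M.image Prod.snd, ψ v = ∑ f ∈ M, ψ f.2 :=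
    Finset.sum_image fun f hf g hg h => mat_inj2 hm hf hg h
  rw [Finset.sum_add_distrib, ← h1, ← h2, ← Finset.sum_union hdis]
  refine Finset.sum_le_sum_of_subset ?_
  intro v hv
  rcases Finset.mem_union.1 hv with h3 | h3
  · obtain ⟨f, hf, rfl⟩ := Finset.mem_image.1 h3
    exact (mem_ed.1 (hM hf)).1
  · obtain ⟨f, hf, rfl⟩ := Finset.mem_image.1 h3
    exact (mem_ed.1 (hM hf)).2.1

theorem mat_deg {G : SimpleGraph V} {S : Finset V} {M : Finset (V × V)} (hM : M ⊆ ed G S)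
    (hm : Mat M) (hd : ∀ v ∈ S, 7 ≤ (nb G S v).card) :
    ∑ f ∈ M, ((nb G S f.1).card + (nb G S f.2).card) + 7 * S.card ≤ dc G S + 14 * M.card := by
  have h1 := mat_sum hM hm fun v => (nb G S v).card - 7
  have h2 : dc G S = ∑ v ∈ S, ((nb G S v).card - 7) + 7 * S.card := by
    unfold dc
    rw [mul_comm, ← smul_eq_mul, ← Finset.sum_const, ← Finset.sum_add_distrib]
    refine Finset.sum_congr rfl fun v hv => ?_
    have := hd v hv
    omega
  have h3 : ∑ f ∈ M, ((nb G S f.1).card + (nb G S f.2).card) =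
      ∑ f ∈ M, (((nb G S f.1).card - 7) + ((nb G S f.2).card - 7)) + 14 * M.card := by
    rw [mul_comm, ← smul_eq_mul, ← Finset.sum_const, ← Finset.sum_add_distrib]
    refine Finset.sum_congr rfl fun f hf => ?_
    have h4 := mem_ed.1 (hM hf)
    have h5 := hd f.1 h4.1
    have h6 := hd f.2 h4.2.1
    omega
  omega

theorem touch_card {G : SimpleGraph V} {S : Finset V} {M : Finset (V × V)} (hM : M ⊆ ed G S)
    (hm : Mat M) {f : V × V} (hf : f ∈ M) :
    ((ed G S \ M).filter (fun e => Touch e f)).card + 3 =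
      2 * ((nb G S f.1).card + (nb G S f.2).card) := by
  obtain ⟨x, y⟩ := f
  obtain ⟨hx, hy, hadj⟩ := mem_ed.1 (hM hf)
  change x ∈ S at hx
  change y ∈ S at hy
  change G.Adj x y at hadj
  have hxy : x ≠ y := hadj.ne
  have hA : ∀ u, ((ed G S).filter fun e => e.1 = u).card = if u ∈ S then (nb G S u).card else 0 := by
    intro u
    split_ifs with hu
    · have h1 : ((ed G S).filter fun e => e.1 = u) = (nb G S u).image fun w => (u, w) := by
        ext ⟨a, b⟩
        simp only [Finset.mem_filter, mem_ed, Finset.mem_image, mem_nb, Prod.mk.injEq]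
        constructor
        · rintro ⟨⟨h1, h2, h3⟩, rfl⟩
          exact ⟨b, ⟨h2, h3⟩, rfl, rfl⟩
        · rintro ⟨w, ⟨h2, h3⟩, rfl, rfl⟩
          exact ⟨⟨hu, h2, h3⟩, rfl⟩
      rw [h1, Finset.card_image_of_injective]
      intro a b h
      exact (Prod.mk.inj h).2
    · rw [Finset.card_eq_zero, Finset.filter_eq_empty_iff]
      rintro ⟨a, b⟩ he rfl
      exact hu (mem_ed.1 he).1
  have hB : ∀ u, ((ed G S).filter fun e => e.2 = u).card = if u ∈ S then (nb G S u).card else 0 := by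
    intro u
    rw [← hA u]
    refine Finset.card_bij (fun e _ => (e.2, e.1)) ?_ ?_ ?_
    · rintro ⟨a, b⟩ he
      obtain ⟨h1, h2⟩ := Finset.mem_filter.1 he
      obtain ⟨h3, h4, h5⟩ := mem_ed.1 h1
      exact Finset.mem_filter.2 ⟨mem_ed.2 ⟨h4, h3, h5.symm⟩, h2⟩
    · rintro ⟨a, b⟩ _ ⟨a', b'⟩ _ h
      obtain ⟨h1, h2⟩ := Prod.mk.inj h
      exact Prod.ext h2 h1
    · rintro ⟨a, b⟩ he
      obtain ⟨h1, h2⟩ := Finset.mem_filter.1 he
      obtain ⟨h3, h4, h5⟩ := mem_ed.1 h1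
      exact ⟨(b, a), Finset.mem_filter.2 ⟨mem_ed.2 ⟨h4, h3, h5.symm⟩, h2⟩, rfl⟩
  have hA1 : ((ed G S).filter fun e => e.1 = x ∨ e.1 = y).card =
      (nb G S x).card + (nb G S y).card := by
    rw [Finset.filter_or, Finset.card_union_of_disjoint, hA, hA, if_pos hx, if_pos hy]
    rw [Finset.disjoint_left]
    intro e h1 h2
    exact hxy ((Finset.mem_filter.1 h1).2.symm.trans (Finset.mem_filter.1 h2).2)
  have hA2 : ((ed G S).filter fun e => e.2 = x ∨ e.2 = y).card =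
      (nb G S x).card + (nb G S y).card := by
    rw [Finset.filter_or, Finset.card_union_of_disjoint, hB, hB, if_pos hx, if_pos hy]
    rw [Finset.disjoint_left]
    intro e h1 h2
    exact hxy ((Finset.mem_filter.1 h1).2.symm.trans (Finset.mem_filter.1 h2).2)
  have hI : ((ed G S).filter fun e => e.1 = x ∨ e.1 = y) ∩
      ((ed G S).filter fun e => e.2 = x ∨ e.2 = y) = {(x, y), (y, x)} := by
    ext ⟨a, b⟩
    simp only [Finset.mem_inter, Finset.mem_filter, mem_ed, Finset.mem_insert,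
      Finset.mem_singleton, Prod.mk.injEq]
    constructor
    · rintro ⟨⟨⟨h1, h2, h3⟩, h4⟩, ⟨_, h5⟩⟩
      rcases h4 with rfl | rfl
      · rcases h5 with rfl | rfl
        · exact absurd rfl h3.ne
        · exact Or.inl ⟨rfl, rfl⟩
      · rcases h5 with rfl | rfl
        · exact Or.inr ⟨rfl, rfl⟩
        · exact absurd rfl h3.ne
    · rintro (⟨rfl, rfl⟩ | ⟨rfl, rfl⟩)
      · exact ⟨⟨⟨hx, hy, hadj⟩, Or.inl rfl⟩, ⟨hx, hy, hadj⟩, Or.inr rfl⟩
      · exact ⟨⟨⟨hy, hx, hadj.symm⟩, Or.inr rfl⟩, ⟨hy, hx, hadj.symm⟩, Or.inl rfl⟩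
  have hI2 : ({(x, y), (y, x)} : Finset (V × V)).card = 2 :=
    Finset.card_pair fun h => hxy (Prod.mk.inj h).1
  have hT : (ed G S \ M).filter (fun e => Touch e (x, y)) =
      (((ed G S).filter fun e => e.1 = x ∨ e.1 = y) ∪
        ((ed G S).filter fun e => e.2 = x ∨ e.2 = y)).erase (x, y) := by
    ext e
    simp only [Finset.mem_filter, Finset.mem_sdiff, Finset.mem_erase, Finset.mem_union]
    constructor
    · rintro ⟨⟨h1, _⟩, h2, h3⟩
      refine ⟨h2, ?_⟩
      rcases h3 with h3 | h3 | h3 | h3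
      · exact Or.inl ⟨h1, Or.inl h3⟩
      · exact Or.inl ⟨h1, Or.inr h3⟩
      · exact Or.inr ⟨h1, Or.inl h3⟩
      · exact Or.inr ⟨h1, Or.inr h3⟩
    · rintro ⟨h1, h2⟩
      have h3 : e ∈ ed G S ∧ Touch e (x, y) := by
        rcases h2 with ⟨h3, h4 | h4⟩ | ⟨h3, h4 | h4⟩
        · exact ⟨h3, h1, Or.inl h4⟩
        · exact ⟨h3, h1, Or.inr (Or.inl h4)⟩
        · exact ⟨h3, h1, Or.inr (Or.inr (Or.inl h4))⟩
        · exact ⟨h3, h1, Or.inr (Or.inr (Or.inr h4))⟩
      exact ⟨⟨h3.1, fun h4 => hm e h4 (x, y) hf h3.2⟩, h3.2⟩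
  have hmem : (x, y) ∈ ((ed G S).filter fun e => e.1 = x ∨ e.1 = y) ∪
      ((ed G S).filter fun e => e.2 = x ∨ e.2 = y) :=
    Finset.mem_union_left _ (Finset.mem_filter.2 ⟨hM hf, Or.inl rfl⟩)
  have h5 := Finset.card_union_add_card_inter ((ed G S).filter fun e => e.1 = x ∨ e.1 = y)
    ((ed G S).filter fun e => e.2 = x ∨ e.2 = y)
  have h6 := Finset.card_erase_add_one hmem
  rw [hI, hI2, hA1, hA2] at h5
  rw [hT]
  change _ = 2 * ((nb G S x).card + (nb G S y).card)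
  omega

theorem touch_two {G : SimpleGraph V} {S : Finset V} {M : Finset (V × V)} (hM : M ⊆ ed G S)
    (hm : Mat M) {f g : V × V} (hf : f ∈ M) (hg : g ∈ M) (h : PP G f g) :
    ((ed G S \ M).filter (fun e => Touch e f ∧ Touch e g)).card ≤ 4 := by
  have _ := hM
  have _ := hm
  have _ := hf
  have _ := hg
  obtain ⟨f1, f2⟩ := f
  obtain ⟨g1, g2⟩ := g
  obtain ⟨⟨h1, h2, h3, h4⟩, h5⟩ := h
  dsimp only at h1 h2 h3 h4 h5
  rcases h5 with ⟨a, b, c, d⟩ | ⟨a, b, c, d⟩
  · refine le_trans (Finset.card_le_card (t := {(f1, g1), (g1, f1), (f2, g2), (g2, f2)}) ?_)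
      Finset.card_le_four
    rintro ⟨u, v⟩ he
    obtain ⟨h6, ⟨_, h7⟩, ⟨_, h8⟩⟩ := Finset.mem_filter.1 he
    have h9 : G.Adj u v := (mem_ed.1 (Finset.mem_sdiff.1 h6).1).2.2
    have c' : ¬ G.Adj g2 f1 := fun h => c h.symm
    have d' : ¬ G.Adj g1 f2 := fun h => d h.symm
    dsimp only at h7 h8
    simp only [Finset.mem_insert, Finset.mem_singleton, Prod.mk.injEq]
    rcases h7 with rfl | rfl | rfl | rfl <;> rcases h8 with h8 | h8 | h8 | h8 <;>
      (subst h8; simp_all)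
  · refine le_trans (Finset.card_le_card (t := {(f1, g2), (g2, f1), (f2, g1), (g1, f2)}) ?_)
      Finset.card_le_four
    rintro ⟨u, v⟩ he
    obtain ⟨h6, ⟨_, h7⟩, ⟨_, h8⟩⟩ := Finset.mem_filter.1 he
    have h9 : G.Adj u v := (mem_ed.1 (Finset.mem_sdiff.1 h6).1).2.2
    have c' : ¬ G.Adj g1 f1 := fun h => c h.symm
    have d' : ¬ G.Adj g2 f2 := fun h => d h.symm
    dsimp only at h7 h8
    simp only [Finset.mem_insert, Finset.mem_singleton, Prod.mk.injEq]
    rcases h7 with rfl | rfl | rfl | rfl <;> rcases h8 with h8 | h8 | h8 | h8 <;>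
      (subst h8; simp_all)

end Pool.Agent.K6T
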