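import Pool.Agent.K6T.Dc

/-!
# K6T / Conv : translation to Mathlib's notions

PROOFS.

`conn_induce`: `B` is nonempty. Let `x0 ∈ B` and `A` the set of the `y ∈ B` which are reachable from `x0` in `G.induce B` (as a `Finset V`: a filter of `B`). `x0 ∈ A`. If `A ≠ B`, the cut
property gives `x ∈ A`, `y ∈ B`, `y ∉ A`, `G.Adj x y`; but then `y` is reachable. So `A = B`, and `SimpleGraph.connected_iff_exists_forall_reachable` (or
`SimpleGraph.Connected.mk` with `Preconnected`) gives the claim.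

`nb_univ_card`: `nb G univ v` is `G.neighborFinset v` (up to the decidability instance), `SimpleGraph.card_neighborFinset_eq_degree`.

`dc_univ`: `dc G univ = ∑ v, G.degree v = 2 * G.edgeFinset.card` (`SimpleGraph.sum_degrees_eq_twice_card_edges`).

`tri_sum`: both sides count the ordered triples `(x, y, z)` of pairwise adjacent vertices: `∑_{f ∈ ed G univ} tri G univ f = #{(x,y,z) | x ~ y, x ~ z, y ~ z}`; the map
`(x,y,z) ↦ {x,y,z}` sends this set to `G.cliqueFinset 3` (`SimpleGraph.mem_cliqueFinset_iff`, `SimpleGraph.is3Clique_iff`) and every fibre has `6` elements (for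
`s = {a,b,c}` the fibre is `{(a,b,c),(a,c,b),(b,a,c),(b,c,a),(c,a,b),(c,b,a)}`, all different): `Finset.card_eq_sum_card_fiberwise`.
-/

set_option autoImplicit false

namespace Pool.Agent.K6T

open Finset
open Classical

theorem conn_induce {V : Type*} {G : SimpleGraph V} {B : Finset V} (h : Conn G B) :
    (G.induce (B : Set V)).Connected := by
  obtain ⟨⟨x0, hx0⟩, hcut⟩ := h
  have hx0' : x0 ∈ (B : Set V) := by exact_mod_cast hx0
  obtain ⟨A, hA⟩ : ∃ A : Finset V, A = B.filter (fun y => ∃ hy : y ∈ (B : Set V),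
      (G.induce (B : Set V)).Reachable ⟨x0, hx0'⟩ ⟨y, hy⟩) := ⟨_, rfl⟩
  have hAB : A = B := by
    by_contra hne
    obtain ⟨x, hx, y, hy, hyA, hxy⟩ := hcut A (by rw [hA]; exact Finset.filter_subset _ _)
      ⟨x0, by rw [hA]; exact Finset.mem_filter.2 ⟨hx0, hx0', SimpleGraph.Reachable.refl _⟩⟩ hne
    rw [hA] at hx
    obtain ⟨hxB, hx', hr⟩ := Finset.mem_filter.1 hx
    apply hyA
    rw [hA]
    have hy' : y ∈ (B : Set V) := by exact_mod_cast hy
    refine Finset.mem_filter.2 ⟨hy, hy', hr.trans ?_⟩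
    have hadj : (G.induce (B : Set V)).Adj ⟨x, hx'⟩ ⟨y, hy'⟩ := by
      simpa using hxy
    exact hadj.reachable
  rw [SimpleGraph.connected_iff_exists_forall_reachable]
  refine ⟨⟨x0, hx0'⟩, ?_⟩
  rintro ⟨y, hy⟩
  have hy2 : y ∈ A := by
    rw [hAB]
    exact_mod_cast hy
  rw [hA] at hy2
  obtain ⟨-, _, hr⟩ := Finset.mem_filter.1 hy2
  exact hr

theorem nb_univ_card {V : Type*} [Fintype V] (G : SimpleGraph V) [DecidableRel G.Adj] (v : V) :
    (nb G univ v).card = G.degree v := by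
  rw [← SimpleGraph.card_neighborFinset_eq_degree]
  congr 1
  ext w
  simp [nb]

theorem dc_univ {V : Type*} [Fintype V] (G : SimpleGraph V) [Fintype G.edgeSet] :
    dc G univ = 2 * G.edgeFinset.card := by
  have h := SimpleGraph.sum_degrees_eq_twice_card_edges G
  unfold dc
  simp only [nb_univ_card]
  rw [h]
  congr 2
  ext e
  simp

private theorem fib6 {V : Type*} [Fintype V] [DecidableEq V] (G : SimpleGraph V)
    [DecidableRel G.Adj] {a b c : V} (hab : G.Adj a b) (hac : G.Adj a c) (hbc : G.Adj b c) :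
    (((univ : Finset (V × V × V)).filter (fun t => G.Adj t.1 t.2.1 ∧ G.Adj t.1 t.2.2 ∧
      G.Adj t.2.1 t.2.2)).filter (fun t => ({t.1, t.2.1, t.2.2} : Finset V) = {a, b, c})).card
        = 6 := by
  have nab := hab.ne
  have nac := hac.ne
  have nbc := hbc.ne
  have e : (((univ : Finset (V × V × V)).filter (fun t => G.Adj t.1 t.2.1 ∧ G.Adj t.1 t.2.2 ∧
      G.Adj t.2.1 t.2.2)).filter (fun t => ({t.1, t.2.1, t.2.2} : Finset V) = {a, b, c})) =
      {(a, b, c), (a, c, b), (b, a, c), (b, c, a), (c, a, b), (c, b, a)} := by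
    ext ⟨x, y, z⟩
    simp only [Finset.mem_filter, Finset.mem_univ, true_and, Finset.mem_insert,
      Finset.mem_singleton, Prod.mk.injEq]
    constructor
    · rintro ⟨⟨h1, h2, h3⟩, h4⟩
      have nxy := h1.ne
      have nxz := h2.ne
      have nyz := h3.ne
      have hx : x ∈ ({a, b, c} : Finset V) := by rw [← h4]; simp
      have hy : y ∈ ({a, b, c} : Finset V) := by rw [← h4]; simp
      have hz : z ∈ ({a, b, c} : Finset V) := by rw [← h4]; simp
      simp only [Finset.mem_insert, Finset.mem_singleton] at hx hy hz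
      rcases hx with rfl | rfl | rfl <;> rcases hy with rfl | rfl | rfl <;>
        rcases hz with rfl | rfl | rfl <;> simp_all
    · rintro (⟨rfl, rfl, rfl⟩ | ⟨rfl, rfl, rfl⟩ | ⟨rfl, rfl, rfl⟩ | ⟨rfl, rfl, rfl⟩ |
        ⟨rfl, rfl, rfl⟩ | ⟨rfl, rfl, rfl⟩)
      · exact ⟨⟨hab, hac, hbc⟩, rfl⟩
      · exact ⟨⟨hac, hab, hbc.symm⟩, by ext w; simp only [Finset.mem_insert, Finset.mem_singleton]; tauto⟩
      · exact ⟨⟨hab.symm, hbc, hac⟩, by ext w; simp only [Finset.mem_insert, Finset.mem_singleton]; tauto⟩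
      · exact ⟨⟨hbc, hab.symm, hac.symm⟩, by ext w; simp only [Finset.mem_insert, Finset.mem_singleton]; tauto⟩
      · exact ⟨⟨hac.symm, hbc.symm, hab⟩, by ext w; simp only [Finset.mem_insert, Finset.mem_singleton]; tauto⟩
      · exact ⟨⟨hbc.symm, hac.symm, hab.symm⟩, by ext w; simp only [Finset.mem_insert, Finset.mem_singleton]; tauto⟩
  rw [e]
  rw [Finset.card_insert_of_notMem, Finset.card_insert_of_notMem, Finset.card_insert_of_notMem,
    Finset.card_insert_of_notMem, Finset.card_insert_of_notMem, Finset.card_singleton]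
  all_goals simp [nab, nac, nbc, nab.symm, nac.symm, nbc.symm]

private theorem tri_bij {V : Type*} [Fintype V] (G : SimpleGraph V) (T : Finset (V × V × V))
    (hT : ∀ t, t ∈ T ↔ G.Adj t.1 t.2.1 ∧ G.Adj t.1 t.2.2 ∧ G.Adj t.2.1 t.2.2) :
    ∑ f ∈ ed G univ, tri G univ f = T.card := by
  have hm : ∀ t ∈ T, ((t.1, t.2.1) : V × V) ∈ ed G univ := by
    intro t ht
    rw [mem_ed]
    exact ⟨Finset.mem_univ _, Finset.mem_univ _, ((hT t).1 ht).1⟩
  rw [Finset.card_eq_sum_card_fiberwise hm]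
  refine Finset.sum_congr rfl fun f hf => ?_
  rw [mem_ed] at hf
  unfold tri
  refine Finset.card_bij (fun z _ => (f.1, f.2, z)) ?_ ?_ ?_
  · intro z hz
    obtain ⟨-, hz1, hz2⟩ := Finset.mem_filter.1 hz
    rw [Finset.mem_filter, hT]
    exact ⟨⟨hf.2.2, hz1, hz2⟩, rfl⟩
  · intro z _ z' _ h
    simp only [Prod.mk.injEq, true_and] at h
    exact h
  · rintro ⟨x, y, z⟩ ht
    rw [Finset.mem_filter, hT] at ht
    obtain ⟨⟨-, h2, h3⟩, h4⟩ := ht
    simp only at h2 h3 h4
    refine ⟨z, ?_, ?_⟩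
    · rw [← h4]
      exact Finset.mem_filter.2 ⟨Finset.mem_univ _, h2, h3⟩
    · rw [← h4]

theorem tri_sum {V : Type*} [Fintype V] [DecidableEq V] (G : SimpleGraph V)
    [DecidableRel G.Adj] :
    ∑ f ∈ ed G univ, tri G univ f = 6 * (G.cliqueFinset 3).card := by
  obtain ⟨T, hT⟩ : ∃ T : Finset (V × V × V), T = (univ : Finset (V × V × V)).filter
      (fun t => G.Adj t.1 t.2.1 ∧ G.Adj t.1 t.2.2 ∧ G.Adj t.2.1 t.2.2) := ⟨_, rfl⟩
  have h1 : ∑ f ∈ ed G univ, tri G univ f = T.card := by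
    refine tri_bij G T fun t => ?_
    rw [hT, Finset.mem_filter]
    exact ⟨fun h => h.2, fun h => ⟨Finset.mem_univ _, h⟩⟩
  have h2 : T.card = 6 * (G.cliqueFinset 3).card := by
    have hm : ∀ t ∈ T, ({t.1, t.2.1, t.2.2} : Finset V) ∈ G.cliqueFinset 3 := by
      intro t ht
      rw [hT] at ht
      obtain ⟨-, h1, h2, h3⟩ := Finset.mem_filter.1 ht
      rw [SimpleGraph.mem_cliqueFinset_iff]
      exact SimpleGraph.is3Clique_triple_iff.2 ⟨h1, h2, h3⟩
    rw [Finset.card_eq_sum_card_fiberwise hm]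
    rw [Finset.sum_congr rfl (g := fun _ => 6)]
    · rw [Finset.sum_const, smul_eq_mul, mul_comm]
    · intro s hs
      rw [SimpleGraph.mem_cliqueFinset_iff] at hs
      obtain ⟨a, b, c, hab, hac, hbc, rfl⟩ := SimpleGraph.is3Clique_iff.1 hs
      rw [hT]
      have h6 := fib6 G hab hac hbc
      convert h6 using 2
  rw [h1, h2]

end Pool.Agent.K6T
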