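import Pool.Agent.K6T.Defs

/-!
# K6T / Dc : counting edges

PROOFS.

`ed_card`: `ed G S` is the set of ordered adjacent pairs of `S`; the fibre over the first coordinate `v ∈ S` is a copy of `nb G S v`
(`Finset.card_filter`, `Finset.sum_product`).

`dc_erase`: the ordered adjacent pairs of `S` which contain `v` are the `(v, w)` and the `(w, v)`, `w ∈ nb G S v`; or: `dc G S = (nb G S v).card +
∑ w ∈ S.erase v, (nb G S w).card`, and for `w ∈ S.erase v`, `(nb G S w).card = (nb G (S.erase v) w).card + (if G.Adj v w then 1 else 0)`.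

`dc_even`: `Finset.sum_card...` or `ed G S` is a disjoint union of pairs `{(x,y), (y,x)}`: the involution `Prod.swap` on `ed G S` has no fixed point
(`Finset.card_involution`-like lemmas, `Finset.even_card_of_involution..`), or by induction on `S` with `dc_erase`
(`Finset.strongInduction`; `dc G ∅ = 0`). The last way is the shortest.

`dc_le`: `(nb G S v).card ≤ S.card - 1` for `v ∈ S`, since `v ∉ nb G S v`.

`dc_mono`: `nb G S v ⊆ nb H S v`.

`dc_add_edge`: `nb (G ⊔ edge a b) S a = insert b (nb G S a)`, `nb (G ⊔ edge a b) S b = insert a (nb G S b)`, all other neighbourhoods are unchanged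
(`SimpleGraph.edge_adj`); or compare `ed`: `ed (G ⊔ edge a b) S = insert (a,b) (insert (b,a) (ed G S))`.

`exists_le_dc`: induction on `(dc G S - 2 k)/2` (or on `dc G S`): if `dc G S ≠ 2 k` then `dc G S ≥ 2 k + 2` (`dc_even`), so there is an adjacent pair `a b` in
`S`; `G' = G.deleteEdges {s(a,b)}` (or `G \ SimpleGraph.edge a b`) has `dc G' S = dc G S - 2` (by `dc_add_edge` for `G'`, as `G' ⊔ edge a b = G`).

`nb_nb_card`: both sides count the `z ∈ S` adjacent to `v` and to `w`.

`dc_sep`: `ed G (X ∪ Y) = ed G X ∪ ed G Y` and `ed G (X ∩ Y) = ed G X ∩ ed G Y`; `Finset.card_union_add_card_inter`.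

`dc_clique`: every `v ∈ A` has `nb G A v = A.erase v`.

`exists_small`: otherwise `k * S.card ≤ dc G S`.
-/

set_option autoImplicit false

namespace Pool.Agent.K6T

open Finset
open Classical

variable {V : Type*}

theorem ed_card (G : SimpleGraph V) (S : Finset V) : (ed G S).card = dc G S := by
  unfold ed dc nb
  rw [card_filter, sum_product]
  refine sum_congr rfl fun v _ => ?_
  rw [card_filter]

private theorem nb_card (G : SimpleGraph V) (S : Finset V) (v : V) :
    (nb G S v).card = ∑ w ∈ S, (if G.Adj v w then 1 else 0) := by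
  unfold nb
  rw [card_filter]

theorem dc_erase (G : SimpleGraph V) (S : Finset V) {v : V} (hv : v ∈ S) :
    dc G (S.erase v) + 2 * (nb G S v).card = dc G S := by
  have h1 : dc G S = (nb G S v).card + ∑ x ∈ S.erase v, (nb G S x).card := by
    unfold dc
    rw [add_sum_erase S (fun x => (nb G S x).card) hv]
  have h2 : ∀ x ∈ S.erase v, (nb G S x).card =
      (if G.Adj x v then 1 else 0) + (nb G (S.erase v) x).card := by
    intro x _
    rw [nb_card, nb_card, add_sum_erase S (fun w => if G.Adj x w then 1 else 0) hv]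
  have h3 : ∑ x ∈ S.erase v, (if G.Adj x v then 1 else 0) = (nb G S v).card := by
    rw [nb_card, ← add_sum_erase S (fun w => if G.Adj v w then 1 else 0) hv,
      if_neg (G.irrefl), zero_add]
    exact sum_congr rfl fun x _ => by simp only [G.adj_comm]
  rw [h1, sum_congr rfl h2, sum_add_distrib, h3]
  unfold dc
  ring

theorem dc_even (G : SimpleGraph V) (S : Finset V) : Even (dc G S) := by
  induction S using Finset.strongInduction with
  | H S ih =>
    rcases S.eq_empty_or_nonempty with h | ⟨v, hv⟩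
    · subst h
      simp [dc]
    · rw [← dc_erase G S hv]
      exact (ih _ (erase_ssubset hv)).add (even_two_mul _)

theorem dc_le (G : SimpleGraph V) (S : Finset V) : dc G S + S.card ≤ S.card * S.card := by
  have h1 : ∀ v ∈ S, (nb G S v).card + 1 ≤ S.card := by
    intro v hv
    have h2 : nb G S v ⊆ S.erase v := by
      intro w hw
      rw [mem_nb] at hw
      exact mem_erase.2 ⟨hw.2.ne', hw.1⟩
    have h3 := card_le_card h2
    rw [card_erase_of_mem hv] at h3
    have h4 := card_pos.2 ⟨v, hv⟩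
    omega
  have h5 := sum_le_sum h1
  rw [sum_add_distrib, sum_const, sum_const, smul_eq_mul, smul_eq_mul, mul_one] at h5
  exact h5

theorem dc_mono {G H : SimpleGraph V} (h : G ≤ H) (S : Finset V) : dc G S ≤ dc H S := by
  refine sum_le_sum fun v _ => card_le_card ?_
  intro w hw
  rw [mem_nb] at hw ⊢
  exact ⟨hw.1, h hw.2⟩

theorem dc_add_edge {G : SimpleGraph V} {S : Finset V} {a b : V} (ha : a ∈ S) (hb : b ∈ S)
    (hab : a ≠ b) (h : ¬ G.Adj a b) : dc (G ⊔ SimpleGraph.edge a b) S = dc G S + 2 := by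
  have h1 : ed (G ⊔ SimpleGraph.edge a b) S = insert (a, b) (insert (b, a) (ed G S)) := by
    ext ⟨x, y⟩
    rw [mem_insert, mem_insert, mem_ed, mem_ed, SimpleGraph.sup_adj, SimpleGraph.edge_adj]
    simp only [Prod.mk.injEq]
    constructor
    · rintro ⟨hx, hy, h2 | ⟨h2 | h2, -⟩⟩
      · exact Or.inr (Or.inr ⟨hx, hy, h2⟩)
      · exact Or.inl h2
      · exact Or.inr (Or.inl h2)
    · rintro (⟨rfl, rfl⟩ | ⟨rfl, rfl⟩ | ⟨hx, hy, h2⟩)
      · exact ⟨ha, hb, Or.inr ⟨Or.inl ⟨rfl, rfl⟩, hab⟩⟩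
      · exact ⟨hb, ha, Or.inr ⟨Or.inr ⟨rfl, rfl⟩, hab.symm⟩⟩
      · exact ⟨hx, hy, Or.inl h2⟩
  have h2 : (b, a) ∉ ed G S := by
    rw [mem_ed]
    rintro ⟨-, -, h3⟩
    exact h h3.symm
  have h3 : (a, b) ∉ insert (b, a) (ed G S) := by
    rw [mem_insert, mem_ed]
    rintro (h4 | ⟨-, -, h4⟩)
    · exact hab (Prod.mk.inj h4).1
    · exact h h4
  rw [← ed_card, ← ed_card, h1, card_insert_of_notMem h3, card_insert_of_notMem h2]

theorem exists_le_dc (G : SimpleGraph V) (S : Finset V) (k : ℕ) (h : 2 * k ≤ dc G S) :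
    ∃ G' : SimpleGraph V, G' ≤ G ∧ dc G' S = 2 * k := by
  obtain ⟨m, hm⟩ : ∃ m, dc G S = m := ⟨_, rfl⟩
  induction m using Nat.strong_induction_on generalizing G with
  | _ m ih =>
    by_cases heq : dc G S = 2 * k
    · exact ⟨G, le_rfl, heq⟩
    · have hev := dc_even G S
      obtain ⟨r, hr⟩ := hev
      have hpos : 0 < dc G S := by omega
      have hex : ∃ a ∈ S, 0 < (nb G S a).card := by
        by_contra hcon
        push Not at hcon
        have : dc G S = 0 := sum_eq_zero fun v hv => Nat.le_zero.1 (hcon v hv)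
        omega
      obtain ⟨a, ha, hna⟩ := hex
      obtain ⟨b, hb⟩ := card_pos.1 hna
      rw [mem_nb] at hb
      obtain ⟨hbS, hab⟩ := hb
      obtain ⟨G', hG'⟩ : ∃ G' : SimpleGraph V, G' = G.deleteEdges {s(a, b)} := ⟨_, rfl⟩
      have hle : G' ≤ G := by
        rw [hG']
        exact SimpleGraph.deleteEdges_le _
      have hnadj : ¬ G'.Adj a b := by
        rw [hG', SimpleGraph.deleteEdges_adj]
        rintro ⟨-, h2⟩
        exact h2 (Set.mem_singleton _)
      have hsup : G' ⊔ SimpleGraph.edge a b = G := by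
        ext x y
        rw [SimpleGraph.sup_adj, SimpleGraph.edge_adj, hG', SimpleGraph.deleteEdges_adj,
          Set.mem_singleton_iff, Sym2.eq_iff]
        constructor
        · rintro (⟨h2, -⟩ | ⟨⟨rfl, rfl⟩ | ⟨rfl, rfl⟩, -⟩)
          · exact h2
          · exact hab
          · exact hab.symm
        · intro h2
          by_cases h3 : (x = a ∧ y = b) ∨ (x = b ∧ y = a)
          · exact Or.inr ⟨by
              rcases h3 with ⟨rfl, rfl⟩ | ⟨rfl, rfl⟩
              · exact Or.inl ⟨rfl, rfl⟩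
              · exact Or.inr ⟨rfl, rfl⟩, h2.ne⟩
          · exact Or.inl ⟨h2, h3⟩
      have hdc := dc_add_edge (G := G') ha hbS hab.ne hnadj
      rw [hsup] at hdc
      obtain ⟨G'', h1, h2⟩ := ih (dc G' S) (by omega) G' (by omega) rfl
      exact ⟨G'', h1.trans hle, h2⟩

theorem nb_nb_card (G : SimpleGraph V) (S : Finset V) (v w : V) :
    (nb G (nb G S v) w).card = tri G S (v, w) := by
  unfold nb tri
  rw [filter_filter]

theorem dc_sep (G : SimpleGraph V) (X Y : Finset V)
    (h : ∀ x ∈ X \ Y, ∀ y ∈ Y \ X, ¬ G.Adj x y) :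
    dc G (X ∪ Y) + dc G (X ∩ Y) = dc G X + dc G Y := by
  have h1 : ed G (X ∪ Y) = ed G X ∪ ed G Y := by
    ext ⟨x, y⟩
    simp only [mem_union, mem_ed]
    constructor
    · rintro ⟨hx, hy, hxy⟩
      by_cases hxX : x ∈ X
      · by_cases hyX : y ∈ X
        · exact Or.inl ⟨hxX, hyX, hxy⟩
        · have hyY : y ∈ Y := hy.resolve_left hyX
          by_cases hxY : x ∈ Y
          · exact Or.inr ⟨hxY, hyY, hxy⟩
          · exact absurd hxy (h x (mem_sdiff.2 ⟨hxX, hxY⟩) y (mem_sdiff.2 ⟨hyY, hyX⟩))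
      · have hxY : x ∈ Y := hx.resolve_left hxX
        by_cases hyY : y ∈ Y
        · exact Or.inr ⟨hxY, hyY, hxy⟩
        · have hyX : y ∈ X := hy.resolve_right hyY
          exact absurd hxy.symm (h y (mem_sdiff.2 ⟨hyX, hyY⟩) x (mem_sdiff.2 ⟨hxY, hxX⟩))
    · rintro (⟨hx, hy, hxy⟩ | ⟨hx, hy, hxy⟩)
      · exact ⟨Or.inl hx, Or.inl hy, hxy⟩
      · exact ⟨Or.inr hx, Or.inr hy, hxy⟩
  have h2 : ed G (X ∩ Y) = ed G X ∩ ed G Y := by
    ext ⟨x, y⟩
    simp only [mem_inter, mem_ed]
    tauto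
  rw [← ed_card, ← ed_card, ← ed_card, ← ed_card, h1, h2, card_union_add_card_inter]

theorem dc_clique (G : SimpleGraph V) (A : Finset V)
    (h : ∀ x ∈ A, ∀ y ∈ A, x ≠ y → G.Adj x y) : dc G A + A.card = A.card * A.card := by
  have h1 : ∀ v ∈ A, (nb G A v).card + 1 = A.card := by
    intro v hv
    have h2 : nb G A v = A.erase v := by
      ext w
      rw [mem_nb, mem_erase]
      exact ⟨fun hw => ⟨hw.2.ne', hw.1⟩, fun hw => ⟨hw.2, h v hv w hw.2 hw.1.symm⟩⟩
    have h4 := card_pos.2 ⟨v, hv⟩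
    rw [h2, card_erase_of_mem hv]
    omega
  have h5 := sum_congr rfl h1
  rw [sum_add_distrib, sum_const, sum_const, smul_eq_mul, smul_eq_mul, mul_one] at h5
  exact h5

theorem exists_small (G : SimpleGraph V) (S : Finset V) (k : ℕ) (h : dc G S < k * S.card) :
    ∃ v ∈ S, (nb G S v).card < k := by
  by_contra hcon
  push Not at hcon
  have h1 := sum_le_sum hcon
  rw [sum_const, smul_eq_mul, mul_comm] at h1
  exact absurd h (not_lt.2 h1)

end Pool.Agent.K6T
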