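import Mathlib

/-!
# K6T / Defs : definitions for MP_f8ea30_co (minimum degree 7 and `K_6` minors, few triangles)

All graphs live on a fixed type `V`; we look at finite vertex sets `S : Finset V` and at the graph
induced on `S`. Decidability is classical everywhere (`open Classical`).
-/

set_option autoImplicit false

namespace Pool.Agent.K6T

open Finset
open Classical

variable {V : Type*}

/-- `B` is nonempty and induces a connected subgraph of `G` (cut form). -/
def Conn (G : SimpleGraph V) (B : Finset V) : Prop :=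
  B.Nonempty ∧ ∀ A : Finset V, A ⊆ B → A.Nonempty → A ≠ B →
    ∃ x ∈ A, ∃ y ∈ B, y ∉ A ∧ G.Adj x y

/-- The graph induced by `G` on `S` has a `K_p` minor. -/
def HasK (p : ℕ) (G : SimpleGraph V) (S : Finset V) : Prop :=
  ∃ B : Fin p → Finset V, (∀ i, B i ⊆ S) ∧ (∀ i, Conn G (B i)) ∧
    (∀ i j, i ≠ j → Disjoint (B i) (B j)) ∧
    (∀ i j, i ≠ j → ∃ x ∈ B i, ∃ y ∈ B j, G.Adj x y)

/-- the neighbours of `v` inside `S` -/
noncomputable def nb (G : SimpleGraph V) (S : Finset V) (v : V) : Finset V :=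
  S.filter (fun w => G.Adj v w)

/-- twice the number of edges inside `S` -/
noncomputable def dc (G : SimpleGraph V) (S : Finset V) : ℕ := ∑ v ∈ S, (nb G S v).card

/-- the ordered pairs of adjacent vertices of `S` -/
noncomputable def ed (G : SimpleGraph V) (S : Finset V) : Finset (V × V) :=
  (S ×ˢ S).filter (fun f => G.Adj f.1 f.2)

/-- the number of common neighbours in `S` of the ends of `f` -/
noncomputable def tri (G : SimpleGraph V) (S : Finset V) (f : V × V) : ℕ :=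
  (S.filter (fun z => G.Adj f.1 z ∧ G.Adj f.2 z)).card

/-- `f` and `g` are different pairs sharing a vertex -/
def Touch (f g : V × V) : Prop := f ≠ g ∧ (f.1 = g.1 ∨ f.1 = g.2 ∨ f.2 = g.1 ∨ f.2 = g.2)

/-- a matching -/
def Mat (M : Finset (V × V)) : Prop := ∀ f ∈ M, ∀ g ∈ M, ¬ Touch f g

/-- `f` and `g` are disjoint and the edges between them form a perfect matching, so that two edges
`f`, `g` with `PP G f g` are opposite edges of an induced `C_4`. -/
def PP (G : SimpleGraph V) (f g : V × V) : Prop :=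
  (f.1 ≠ g.1 ∧ f.1 ≠ g.2 ∧ f.2 ≠ g.1 ∧ f.2 ≠ g.2) ∧
  ((G.Adj f.1 g.1 ∧ G.Adj f.2 g.2 ∧ ¬ G.Adj f.1 g.2 ∧ ¬ G.Adj f.2 g.1) ∨
   (G.Adj f.1 g.2 ∧ G.Adj f.2 g.1 ∧ ¬ G.Adj f.1 g.1 ∧ ¬ G.Adj f.2 g.2))

/-- the number of elements `g` of `M` in relation `P` with `f` -/
noncomputable def pw {ι : Type*} (P : ι → ι → Prop) (M : Finset ι) (f : ι) : ℕ :=
  (M.filter (fun g => P f g)).card

/-- the number of ordered pairs of elements of `M` in relation `P` -/
noncomputable def ww {ι : Type*} (P : ι → ι → Prop) (M : Finset ι) : ℕ := ∑ f ∈ M, pw P M f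

/-- Mader's theorem for `K_{q+2}` (`q = 1, 2, 3, 4`), on the vertex type `V`. -/
def Mad (V : Type*) (q : ℕ) : Prop :=
  ∀ (G : SimpleGraph V) (S : Finset V), q ≤ S.card →
    2 * q * S.card + 2 ≤ dc G S + (q + 1) * q → HasK (q + 2) G S

theorem mem_nb {G : SimpleGraph V} {S : Finset V} {v w : V} :
    w ∈ nb G S v ↔ w ∈ S ∧ G.Adj v w := by
  simp [nb]

theorem nb_subset (G : SimpleGraph V) (S : Finset V) (v : V) : nb G S v ⊆ S :=
  Finset.filter_subset _ _

theorem mem_ed {G : SimpleGraph V} {S : Finset V} {f : V × V} :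
    f ∈ ed G S ↔ f.1 ∈ S ∧ f.2 ∈ S ∧ G.Adj f.1 f.2 := by
  simp [ed, and_assoc]

theorem Touch.symm {f g : V × V} (h : Touch f g) : Touch g f := by
  obtain ⟨h1, h2⟩ := h
  refine ⟨h1.symm, ?_⟩
  rcases h2 with h | h | h | h <;> simp [h]

theorem not_touch_self (f : V × V) : ¬ Touch f f := fun h => h.1 rfl

theorem PP.symm {G : SimpleGraph V} {f g : V × V} (h : PP G f g) : PP G g f := by
  obtain ⟨⟨h1, h2, h3, h4⟩, h5⟩ := h
  refine ⟨⟨h1.symm, h3.symm, h2.symm, h4.symm⟩, ?_⟩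
  rcases h5 with ⟨a, b, c, d⟩ | ⟨a, b, c, d⟩
  · exact Or.inl ⟨a.symm, b.symm, fun h => d h.symm, fun h => c h.symm⟩
  · exact Or.inr ⟨b.symm, a.symm, fun h => c h.symm, fun h => d h.symm⟩

theorem not_PP_self (G : SimpleGraph V) (f : V × V) : ¬ PP G f f := fun h => h.1.1 rfl

/-- monotonicity in the graph -/
theorem Conn.mono {G H : SimpleGraph V} (h : G ≤ H) {B : Finset V} (hB : Conn G B) :
    Conn H B := by
  refine ⟨hB.1, fun A hA hne hAB => ?_⟩
  obtain ⟨x, hx, y, hy, hyA, hxy⟩ := hB.2 A hA hne hAB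
  exact ⟨x, hx, y, hy, hyA, h hxy⟩

/-- monotonicity in the graph and in the set -/
theorem HasK.mono {p : ℕ} {G H : SimpleGraph V} (h : G ≤ H) {S T : Finset V} (hST : S ⊆ T)
    (hK : HasK p G S) : HasK p H T := by
  obtain ⟨B, h1, h2, h3, h4⟩ := hK
  refine ⟨B, fun i => (h1 i).trans hST, fun i => (h2 i).mono h, h3, fun i j hij => ?_⟩
  obtain ⟨x, hx, y, hy, hxy⟩ := h4 i j hij
  exact ⟨x, hx, y, hy, h hxy⟩

end Pool.Agent.K6T
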