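import Pool.Agent.K6T.Exch1

/-!
# K6T / Exch : the sum of all exchange inequalities

PROOF of `exch`.  Sum `exch1` over all `e ∈ E \ M`. Write `m = |M|`, `D f = #{e ∈ E \ M | T e f}`, `w = ww P M = ∑_{f ∈ M} pw P M f`.
LEFT: `92 (|E| - m) - 40 (∑_E t - ∑_M t) - 26 ∑_{e ∈ E \ M} pw P M e`, and (interchange of summation, symmetry of `P`)
`∑_{e ∈ E \ M} pw P M e = ∑_{f ∈ M} #{e ∈ E \ M | P f e} = ∑_{f ∈ M} (pw P E f - pw P M f) = ∑_{f ∈ M} pw P E f - w`.
RIGHT: `∑_{e ∈ E \ M} ∑_{f ∈ M, T e f} x f = ∑_{f ∈ M} D f * x f` with `x f = 92 - 40 t f - 26 pw P M f`; and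
`∑_{e ∈ E \ M} ww P (M.filter (T e)) = ∑_e ∑_{f ∈ M} ∑_{g ∈ M} [T e f] [T e g] [P f g] = ∑_{f ∈ M} ∑_{g ∈ M, P f g} #{e ∈ E \ M | T e f ∧ T e g} ≤ 4 w` by `h4`.
So `92 |E| - 92 m - 40 ∑_E t + 40 ∑_M t - 26 ∑_M pw P E f + 26 w ≤ 92 ∑_M D f - 40 ∑_M D f * t f - 26 ∑_M D f * pw P M f + 52 w`, which is the claim.
-/

set_option autoImplicit false

namespace Pool.Agent.K6T

open Finset
open Classical

variable {ι : Type*}

private theorem pw_sum (P : ι → ι → Prop) (M : Finset ι) (f : ι) :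
    pw P M f = ∑ g ∈ M, if P f g then 1 else 0 := by
  unfold pw
  exact Finset.card_filter _ _

private theorem sum_pw (P : ι → ι → Prop) (hP : ∀ a b, P a b → P b a) {E M : Finset ι}
    (hME : M ⊆ E) : ∑ e ∈ E \ M, pw P M e + ww P M = ∑ f ∈ M, pw P E f := by
  have h1 : ∑ e ∈ E \ M, pw P M e = ∑ f ∈ M, pw P (E \ M) f := by
    simp only [pw_sum]
    rw [Finset.sum_comm]
    refine Finset.sum_congr rfl fun f _ => Finset.sum_congr rfl fun e _ => ?_
    by_cases h : P e f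
    · rw [if_pos h, if_pos (hP _ _ h)]
    · rw [if_neg h, if_neg fun h' => h (hP _ _ h')]
  rw [h1]
  unfold ww
  rw [← Finset.sum_add_distrib]
  refine Finset.sum_congr rfl fun f _ => ?_
  rw [pw_sum, pw_sum, pw_sum, Finset.sum_sdiff hME]

private theorem sum_ww (P T : ι → ι → Prop) (D M : Finset ι)
    (h4 : ∀ f ∈ M, ∀ g ∈ M, P f g → (D.filter (fun e => T e f ∧ T e g)).card ≤ 4) :
    ∑ e ∈ D, ww P (M.filter (fun f => T e f)) ≤ 4 * ww P M := by
  have h1 : ∀ e, ww P (M.filter (fun f => T e f)) =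
      ∑ f ∈ M, ∑ g ∈ M, if P f g then (if T e f ∧ T e g then 1 else 0) else 0 := by
    intro e
    unfold ww
    simp only [pw_sum]
    rw [Finset.sum_filter]
    refine Finset.sum_congr rfl fun f _ => ?_
    split_ifs with h
    · rw [Finset.sum_filter]
      refine Finset.sum_congr rfl fun g _ => ?_
      by_cases hg : T e g <;> by_cases hp : P f g <;> simp [hg, hp, h]
    · rw [Finset.sum_eq_zero]
      intro g _
      simp [h]
  simp only [h1]
  rw [Finset.sum_comm]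
  unfold ww
  rw [Finset.mul_sum]
  refine Finset.sum_le_sum fun f hf => ?_
  rw [Finset.sum_comm, pw_sum, Finset.mul_sum]
  refine Finset.sum_le_sum fun g hg => ?_
  by_cases hp : P f g
  · simp only [if_pos hp, mul_one]
    rw [← Finset.card_filter]
    exact h4 f hf g hg hp
  · simp [hp]

theorem exch (P T : ι → ι → Prop) (hP : ∀ a b, P a b → P b a) (hPi : ∀ a, ¬ P a a)
    (hT : ∀ a b, T a b → T b a) (hTi : ∀ a, ¬ T a a)
    (t : ι → ℕ) (E M : Finset ι) (hME : M ⊆ E) (hM : ∀ f ∈ M, ∀ g ∈ M, ¬ T f g)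
    (hmax : ∀ M' ⊆ E, (∀ f ∈ M', ∀ g ∈ M', ¬ T f g) →
      92 * (M'.card : ℤ) - 40 * ∑ f ∈ M', (t f : ℤ) - 13 * (ww P M' : ℤ) ≤
      92 * (M.card : ℤ) - 40 * ∑ f ∈ M, (t f : ℤ) - 13 * (ww P M : ℤ))
    (h4 : ∀ f ∈ M, ∀ g ∈ M, P f g → ((E \ M).filter (fun e => T e f ∧ T e g)).card ≤ 4) :
    92 * E.card + 40 * ∑ f ∈ M, t f +
        40 * ∑ f ∈ M, ((E \ M).filter (fun e => T e f)).card * t f +
        26 * ∑ f ∈ M, ((E \ M).filter (fun e => T e f)).card * pw P M f ≤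
      92 * M.card + 40 * ∑ e ∈ E, t e + 26 * ∑ f ∈ M, pw P E f +
        92 * ∑ f ∈ M, ((E \ M).filter (fun e => T e f)).card + 26 * ww P M := by
  have hsum : ∑ e ∈ E \ M, (92 - 40 * (t e : ℤ) - 26 * (pw P M e : ℤ)) ≤
      ∑ e ∈ E \ M, (∑ f ∈ M.filter (fun f => T e f), (92 - 40 * (t f : ℤ) - 26 * (pw P M f : ℤ)) +
        13 * (ww P (M.filter (fun f => T e f)) : ℤ)) := by
    refine Finset.sum_le_sum fun e he => ?_
    have he' := Finset.mem_sdiff.1 he
    exact exch1 P T hP hPi hT hTi t E M hME hM hmax he'.1 he'.2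
  rw [Finset.sum_add_distrib] at hsum
  have hd : ∑ e ∈ E \ M, ∑ f ∈ M.filter (fun f => T e f),
      (92 - 40 * (t f : ℤ) - 26 * (pw P M f : ℤ)) =
      ∑ f ∈ M, (((E \ M).filter (fun e => T e f)).card : ℤ) *
        (92 - 40 * (t f : ℤ) - 26 * (pw P M f : ℤ)) := by
    simp only [Finset.sum_filter]
    rw [Finset.sum_comm]
    refine Finset.sum_congr rfl fun f _ => ?_
    rw [← Finset.sum_filter, Finset.sum_const, nsmul_eq_mul]
  rw [hd] at hsum
  have ha : (E \ M).card + M.card = E.card := Finset.card_sdiff_add_card_eq_card hME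
  have hb : ∑ e ∈ E \ M, t e + ∑ e ∈ M, t e = ∑ e ∈ E, t e := Finset.sum_sdiff hME
  have hc := sum_pw P hP hME
  have he := sum_ww P T (E \ M) M h4
  have hl : ∑ e ∈ E \ M, (92 - 40 * (t e : ℤ) - 26 * (pw P M e : ℤ)) =
      92 * ((E \ M).card : ℤ) - 40 * ((∑ e ∈ E \ M, t e : ℕ) : ℤ) -
        26 * ((∑ e ∈ E \ M, pw P M e : ℕ) : ℤ) := by
    rw [Finset.sum_sub_distrib, Finset.sum_sub_distrib, Finset.sum_const, nsmul_eq_mul,
      ← Finset.mul_sum, ← Finset.mul_sum]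
    push_cast
    ring
  have hr : ∑ f ∈ M, (((E \ M).filter (fun e => T e f)).card : ℤ) *
        (92 - 40 * (t f : ℤ) - 26 * (pw P M f : ℤ)) =
      92 * ((∑ f ∈ M, ((E \ M).filter (fun e => T e f)).card : ℕ) : ℤ) -
        40 * ((∑ f ∈ M, ((E \ M).filter (fun e => T e f)).card * t f : ℕ) : ℤ) -
        26 * ((∑ f ∈ M, ((E \ M).filter (fun e => T e f)).card * pw P M f : ℕ) : ℤ) := by
    push_cast
    rw [Finset.mul_sum, Finset.mul_sum, Finset.mul_sum, ← Finset.sum_sub_distrib,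
      ← Finset.sum_sub_distrib]
    refine Finset.sum_congr rfl fun f _ => ?_
    ring
  have hw : ∑ e ∈ E \ M, 13 * (ww P (M.filter (fun f => T e f)) : ℤ) =
      13 * ((∑ e ∈ E \ M, ww P (M.filter (fun f => T e f)) : ℕ) : ℤ) := by
    push_cast
    rw [Finset.mul_sum]
  rw [hl, hr, hw] at hsum
  generalize ∑ e ∈ E \ M, t e = x1 at *
  generalize ∑ e ∈ E \ M, pw P M e = x2 at *
  generalize ∑ f ∈ M, ((E \ M).filter (fun e => T e f)).card = x3 at *
  generalize ∑ f ∈ M, ((E \ M).filter (fun e => T e f)).card * t f = x4 at *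
  generalize ∑ f ∈ M, ((E \ M).filter (fun e => T e f)).card * pw P M f = x5 at *
  generalize ∑ e ∈ E \ M, ww P (M.filter (fun f => T e f)) = x6 at *
  generalize ∑ f ∈ M, pw P E f = x7 at *
  generalize ∑ e ∈ M, t e = x8 at *
  generalize ∑ e ∈ E, t e = x9 at *
  generalize ww P M = x10 at *
  omega

end Pool.Agent.K6T
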