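import Pool.Agent.K6T.Defs

/-!
# K6T / Exch1 : one exchange

Abstract setting: `E` a finite set, `T` (touch) and `P` symmetric irreflexive relations, `M ⊆ E` a set without touching elements (matching) which maximises
`92 |M'| - 40 ∑_{M'} t - 13 w(M')`, `w(M') = ww P M'` the number of ordered pairs of `M'` in relation `P`.

PROOF of `exch1`.  `F = M.filter (T e)`, `M' = insert e (M \ F)`; `e ∉ M`. `M' ⊆ E`, and no two elements of `M'` touch (`M \ F` has no element touching `e`). So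
`hmax` applies to `M'`. `|M'| = |M| - |F| + 1`; `∑_{M'} t = ∑_M t - ∑_F t + t e`;
`w(M') = w(M \ F) + 2 pw P (M \ F) e` (`P` is symmetric and `¬ P e e`), `pw P (M \ F) e ≤ pw P M e`, and
`w(M \ F) = w(M) - 2 ∑_{f ∈ F} pw P M f + w(F)` (write `w` and `pw` as double sums of 0/1 over `M × M`: the pairs with first or second component in `F`). Hence
`w(M') ≤ w(M) - 2 ∑_{f ∈ F} pw P M f + w(F) + 2 pw P M e`, and `hmax` gives
`92 (1 - |F|) - 40 (t e - ∑_F t) - 13 (w(F) + 2 pw P M e - 2 ∑_F pw P M f) ≤ 0`, which is the claim.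
(`ww_insert` and `ww_sdiff` are the two facts on `w`.)
-/

set_option autoImplicit false

namespace Pool.Agent.K6T

open Finset
open Classical

variable {ι : Type*}

private theorem pw_sum (P : ι → ι → Prop) (M : Finset ι) (f : ι) :
    pw P M f = ∑ g ∈ M, if P f g then 1 else 0 := by
  unfold pw
  rw [Finset.card_filter]

theorem ww_insert (P : ι → ι → Prop) (hP : ∀ a b, P a b → P b a) (hPi : ∀ a, ¬ P a a)
    (M : Finset ι) {e : ι} (he : e ∉ M) : ww P (insert e M) = ww P M + 2 * pw P M e := by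
  unfold ww
  rw [Finset.sum_insert he]
  have h1 : pw P (insert e M) e = pw P M e := by
    rw [pw_sum, pw_sum, Finset.sum_insert he, if_neg (hPi e), zero_add]
  have h2 : ∀ f ∈ M, pw P (insert e M) f = pw P M f + if P e f then 1 else 0 := by
    intro f _
    rw [pw_sum, pw_sum, Finset.sum_insert he, add_comm]
    congr 1
    exact if_congr ⟨fun h => hP _ _ h, fun h => hP _ _ h⟩ rfl rfl
  rw [Finset.sum_congr rfl h2, Finset.sum_add_distrib, h1, ← pw_sum]
  ring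

theorem ww_sdiff (P : ι → ι → Prop) (hP : ∀ a b, P a b → P b a)
    {M F : Finset ι} (hF : F ⊆ M) :
    ww P (M \ F) + 2 * ∑ f ∈ F, pw P M f = ww P M + ww P F := by
  unfold ww
  simp only [pw_sum]
  have e1 : ∀ f, ∑ g ∈ M, (if P f g then 1 else 0 : ℕ) =
      ∑ g ∈ M \ F, (if P f g then 1 else 0) + ∑ g ∈ F, if P f g then 1 else 0 :=
    fun f => (Finset.sum_sdiff hF).symm
  simp only [e1, Finset.sum_add_distrib]
  rw [← Finset.sum_sdiff hF (f := fun f => ∑ g ∈ M \ F, (if P f g then 1 else 0 : ℕ)),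
    ← Finset.sum_sdiff hF (f := fun f => ∑ g ∈ F, (if P f g then 1 else 0 : ℕ))]
  have e2 : ∑ f ∈ M \ F, ∑ g ∈ F, (if P f g then 1 else 0 : ℕ) =
      ∑ f ∈ F, ∑ g ∈ M \ F, if P f g then 1 else 0 := by
    rw [Finset.sum_comm]
    refine Finset.sum_congr rfl fun f _ => Finset.sum_congr rfl fun g _ => ?_
    exact if_congr ⟨fun h => hP _ _ h, fun h => hP _ _ h⟩ rfl rfl
  rw [e2]
  ring

theorem exch1 (P T : ι → ι → Prop) (hP : ∀ a b, P a b → P b a) (hPi : ∀ a, ¬ P a a)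
    (hT : ∀ a b, T a b → T b a) (hTi : ∀ a, ¬ T a a)
    (t : ι → ℕ) (E M : Finset ι) (hME : M ⊆ E) (hM : ∀ f ∈ M, ∀ g ∈ M, ¬ T f g)
    (hmax : ∀ M' ⊆ E, (∀ f ∈ M', ∀ g ∈ M', ¬ T f g) →
      92 * (M'.card : ℤ) - 40 * ∑ f ∈ M', (t f : ℤ) - 13 * (ww P M' : ℤ) ≤
      92 * (M.card : ℤ) - 40 * ∑ f ∈ M, (t f : ℤ) - 13 * (ww P M : ℤ))
    {e : ι} (he : e ∈ E) (heM : e ∉ M) :
    92 - 40 * (t e : ℤ) - 26 * (pw P M e : ℤ) ≤
      ∑ f ∈ M.filter (fun f => T e f), (92 - 40 * (t f : ℤ) - 26 * (pw P M f : ℤ)) +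
        13 * (ww P (M.filter (fun f => T e f)) : ℤ) := by
  obtain ⟨F, hF⟩ : ∃ F, F = M.filter (fun f => T e f) := ⟨_, rfl⟩
  rw [← hF]
  have hFM : F ⊆ M := by rw [hF]; exact Finset.filter_subset _ _
  have hmemF : ∀ f, f ∈ F ↔ f ∈ M ∧ T e f := fun f => by rw [hF, Finset.mem_filter]
  have heD : e ∉ M \ F := fun h => heM (Finset.mem_sdiff.1 h).1
  have h1 := hmax (insert e (M \ F))
    (Finset.insert_subset he (Finset.sdiff_subset.trans hME)) (by
      intro f hf g hg htg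
      rcases Finset.mem_insert.1 hf with rfl | hf
      · rcases Finset.mem_insert.1 hg with rfl | hg
        · exact hTi _ htg
        · obtain ⟨h2, h3⟩ := Finset.mem_sdiff.1 hg
          exact h3 ((hmemF g).2 ⟨h2, htg⟩)
      · obtain ⟨h2, h3⟩ := Finset.mem_sdiff.1 hf
        rcases Finset.mem_insert.1 hg with rfl | hg
        · exact h3 ((hmemF f).2 ⟨h2, hT _ _ htg⟩)
        · exact hM f h2 g (Finset.mem_sdiff.1 hg).1 htg)
  have c1 : (insert e (M \ F)).card = (M \ F).card + 1 := Finset.card_insert_of_notMem heD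
  have c2 : (M \ F).card + F.card = M.card := Finset.card_sdiff_add_card_eq_card hFM
  have s1 : ∑ f ∈ insert e (M \ F), (t f : ℤ) = (t e : ℤ) + ∑ f ∈ M \ F, (t f : ℤ) :=
    Finset.sum_insert heD
  have s2 : ∑ f ∈ M \ F, (t f : ℤ) + ∑ f ∈ F, (t f : ℤ) = ∑ f ∈ M, (t f : ℤ) :=
    Finset.sum_sdiff hFM
  have w1 := ww_insert P hP hPi (M \ F) heD
  have w2 := ww_sdiff P hP hFM
  have w3 : pw P (M \ F) e ≤ pw P M e := by
    unfold pw
    exact Finset.card_le_card (Finset.filter_subset_filter _ Finset.sdiff_subset)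
  have r1 : ∑ f ∈ F, (92 - 40 * (t f : ℤ) - 26 * (pw P M f : ℤ)) =
      92 * (F.card : ℤ) - 40 * ∑ f ∈ F, (t f : ℤ) - 26 * ∑ f ∈ F, (pw P M f : ℤ) := by
    rw [Finset.sum_sub_distrib, Finset.sum_sub_distrib, Finset.sum_const, ← Finset.mul_sum,
      ← Finset.mul_sum, nsmul_eq_mul]
    ring
  rw [r1]
  rw [c1, s1, w1] at h1
  push_cast at h1
  have c2' : ((M \ F).card : ℤ) + (F.card : ℤ) = (M.card : ℤ) := by exact_mod_cast c2
  have w2' : (ww P (M \ F) : ℤ) + 2 * ∑ f ∈ F, (pw P M f : ℤ) =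
      (ww P M : ℤ) + (ww P F : ℤ) := by exact_mod_cast w2
  have w3' : (pw P (M \ F) e : ℤ) ≤ (pw P M e : ℤ) := by exact_mod_cast w3
  linarith

end Pool.Agent.K6T
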