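import Pool.Agent.K6T.Bags
import Pool.Agent.K6T.Dc

/-!
# K6T / Quot : contracting a matching

PROOF of `quot`.  Let `Y = M.image Prod.snd`, `S' = S \ Y` and `F a = {a} ∪ {z ∈ S | (a, z) ∈ M}`. From `Mat` and `M ⊆ ed G S` (so `f.1 ≠ f.2` for `f ∈ M`):
* two different elements of `M` have four different ends; in particular `Prod.snd` is injective on `M`, so `Y.card = M.card` and `S'.card + M.card = S.card`;
* for `a ∈ S'`: if `(a, y) ∈ M` then `F a = {a, y}`, if there is no such `y` then `F a = {a}`;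
* `F a`, `F b` are disjoint for different `a, b ∈ S'` and `S` is the union of the `F a`, `a ∈ S'` (if `z ∈ Y`, `(a, z) ∈ M`, then `a ∉ Y`).

`Q.Adj a b :⇔ a ≠ b ∧ ∃ x ∈ F a, ∃ y ∈ F b, G.Adj x y`. `F a` is connected (`conn_singleton`, `conn_pair`), so `HasK.of_bags` gives the last statement.

COUNTING.  Write `[..]` for 0/1. `dc G S = ∑_{x ∈ S} ∑_{y ∈ S} [x ~ y] = ∑_{a ∈ S'} ∑_{b ∈ S'} k(a,b)` with `k(a,b) = ∑_{x ∈ F a} ∑_{y ∈ F b} [x ~ y]`
(`Finset.sum_biUnion`). `k(a,a) = 2` if `(a,y) ∈ M` for some `y`, else `0`; so `∑_a k(a,a) = 2 |M|` (`Prod.fst` is injective on `M`).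
For `a ≠ b` in `S'`:  `k(a,b) ≤ [Q.Adj a b] + τ(a,b) + τ(b,a) + π(a,b)`, where
`τ(a,b) = #{z ∈ F b | ∃ y, (a,y) ∈ M ∧ a ~ z ∧ y ~ z}` and `π(a,b) = [∃ y y', (a,y) ∈ M ∧ (b,y') ∈ M ∧ PP G (a,y) (b,y')]`. Check: if `F a`, `F b` are singletons,
`k = [Q.Adj a b]`. If `F a = {a,y}`, `F b = {b}`: `k ≤ 1` or (`a ~ b`, `y ~ b`, `k = 2`, `τ(a,b) = 1`, `Q.Adj a b`); symmetrically for `F a = {a}`, `F b = {b,y'}`. If
`F a = {a,y}`, `F b = {b,y'}`: the 16 cases for the truth values of `a ~ b`, `a ~ y'`, `y ~ b`, `y ~ y'`: four edges: `1 + 2 + 2 ≥ 4`; three edges: `1 + 1 + 1 = 3`; two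
edges with a common end: `1 + 1 = 2`; two disjoint edges: `1 + π = 2`; one edge: `1`; none: `0`.
Sums: `∑_{a ≠ b} [Q.Adj a b] = dc Q S'`; `∑_{a ≠ b} τ(a,b) ≤ ∑_{f ∈ M} tri G S f` (for `(a,y) ∈ M` fixed, the sets `{z ∈ F b | a ~ z ∧ y ~ z}`, `b ∈ S'`, are disjoint
subsets of `{z ∈ S | a ~ z ∧ y ~ z}`), the same for `τ(b,a)`; `∑_{a,b} π(a,b) ≤ ww (PP G) M` (`(a,b) ↦ ((a,y),(b,y'))` is injective).

`mat_card`: with the same facts, `M.image Prod.fst` and `M.image Prod.snd` are disjoint subsets of `S` with `M.card` elements each.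
-/

set_option autoImplicit false

namespace Pool.Agent.K6T

open Finset
open Classical

variable {V : Type*}

private theorem mat_ne {M : Finset (V × V)} (hm : Mat M) {f g : V × V} (hf : f ∈ M) (hg : g ∈ M)
    (hne : f ≠ g) : f.1 ≠ g.1 ∧ f.1 ≠ g.2 ∧ f.2 ≠ g.1 ∧ f.2 ≠ g.2 := by
  have h := hm f hf g hg
  unfold Touch at h
  refine ⟨fun h1 => h ⟨hne, Or.inl h1⟩, fun h1 => h ⟨hne, Or.inr (Or.inl h1)⟩,
    fun h1 => h ⟨hne, Or.inr (Or.inr (Or.inl h1))⟩, fun h1 => h ⟨hne, Or.inr (Or.inr (Or.inr h1))⟩⟩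

theorem mat_card {G : SimpleGraph V} {S : Finset V} {M : Finset (V × V)} (hM : M ⊆ ed G S)
    (hm : Mat M) : 2 * M.card ≤ S.card := by
  have h1 : (M.image Prod.fst).card = M.card := by
    apply Finset.card_image_of_injOn
    intro f hf g hg hfg
    by_contra hne
    exact (mat_ne hm hf hg hne).1 hfg
  have h2 : (M.image Prod.snd).card = M.card := by
    apply Finset.card_image_of_injOn
    intro f hf g hg hfg
    by_contra hne
    exact (mat_ne hm hf hg hne).2.2.2 hfg
  have h3 : Disjoint (M.image Prod.fst) (M.image Prod.snd) := by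
    rw [Finset.disjoint_left]
    intro x hx hx'
    obtain ⟨f, hf, rfl⟩ := Finset.mem_image.1 hx
    obtain ⟨g, hg, hgf⟩ := Finset.mem_image.1 hx'
    by_cases hne : f = g
    · subst hne
      have h4 := (mem_ed.1 (hM hf)).2.2
      rw [hgf] at h4
      exact G.loopless.irrefl _ h4
    · exact (mat_ne hm hf hg hne).2.1 hgf.symm
  have h4 : M.image Prod.fst ∪ M.image Prod.snd ⊆ S := by
    intro x hx
    rcases Finset.mem_union.1 hx with h | h
    · obtain ⟨f, hf, rfl⟩ := Finset.mem_image.1 h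
      exact (mem_ed.1 (hM hf)).1
    · obtain ⟨f, hf, rfl⟩ := Finset.mem_image.1 h
      exact (mem_ed.1 (hM hf)).2.1
  have h5 := Finset.card_le_card h4
  rw [Finset.card_union_of_disjoint h3, h1, h2] at h5
  omega

/-- Contract the edge `a y` to the vertex `a`. -/
private def con (G : SimpleGraph V) (a y : V) : SimpleGraph V where
  Adj u v := u ≠ v ∧ (G.Adj u v ∨ (u = a ∧ G.Adj y v) ∨ (v = a ∧ G.Adj y u))
  symm := ⟨by
    rintro u v ⟨h, h1 | h1 | h1⟩
    · exact ⟨h.symm, Or.inl h1.symm⟩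
    · exact ⟨h.symm, Or.inr (Or.inr h1)⟩
    · exact ⟨h.symm, Or.inr (Or.inl h1)⟩⟩
  loopless := ⟨fun u h => h.1 rfl⟩

private theorem con_adj {G : SimpleGraph V} {a y u v : V} : (con G a y).Adj u v ↔
    u ≠ v ∧ (G.Adj u v ∨ (u = a ∧ G.Adj y v) ∨ (v = a ∧ G.Adj y u)) := Iff.rfl

private theorem con_adj' {G : SimpleGraph V} {a y u v : V} (hu : u ≠ a) (hv : v ≠ a) :
    (con G a y).Adj u v ↔ G.Adj u v := by
  rw [con_adj]
  constructor
  · rintro ⟨_, h | ⟨h, _⟩ | ⟨h, _⟩⟩
    · exact h
    · exact absurd h hu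
    · exact absurd h hv
  · intro h
    exact ⟨G.ne_of_adj h, Or.inl h⟩

private theorem con_adj_a {G : SimpleGraph V} {a y u : V} (hu : u ≠ a) :
    (con G a y).Adj u a ↔ G.Adj u a ∨ G.Adj u y := by
  rw [con_adj]
  constructor
  · rintro ⟨_, h | ⟨h, _⟩ | ⟨_, h⟩⟩
    · exact Or.inl h
    · exact absurd h hu
    · exact Or.inr h.symm
  · rintro (h | h)
    · exact ⟨hu, Or.inl h⟩
    · exact ⟨hu, Or.inr (Or.inr ⟨rfl, h.symm⟩)⟩

private theorem dc_sum (G : SimpleGraph V) (S : Finset V) :
    dc G S = ∑ v ∈ S, ∑ w ∈ S, if G.Adj v w then 1 else 0 := by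
  unfold dc nb
  exact Finset.sum_congr rfl fun v _ => Finset.card_filter _ _

private theorem dc_con {G : SimpleGraph V} {S : Finset V} {a y : V} (ha : a ∈ S) (hy : y ∈ S)
    (h : G.Adj a y) :
    dc G S = dc (con G a y) (S.erase y) + 2 + 2 * tri G S (a, y) := by
  have hay : a ≠ y := G.ne_of_adj h
  have haS : a ∈ S.erase y := Finset.mem_erase.2 ⟨hay, ha⟩
  have h1 := dc_erase G S hy
  obtain ⟨R, hR⟩ : ∃ R : ℕ, R = ∑ w ∈ S.erase y, if (w ≠ a ∧ G.Adj y w ∧ ¬ G.Adj a w) then 1 else 0 :=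
    ⟨_, rfl⟩
  have h2 : dc (con G a y) (S.erase y) = dc G (S.erase y) + 2 * R := by
    rw [dc_sum, dc_sum]
    have e1 : ∀ v w, (if (con G a y).Adj v w then 1 else 0) = (if G.Adj v w then 1 else 0) +
        (if v = a ∧ (w ≠ a ∧ G.Adj y w ∧ ¬ G.Adj a w) then 1 else 0) +
        (if w = a ∧ (v ≠ a ∧ G.Adj y v ∧ ¬ G.Adj a v) then 1 else 0) := by
      intro v w
      by_cases hv : v = a
      · subst hv
        by_cases hw : w = v
        · subst hw
          simp
        · have e2 : (con G v y).Adj v w ↔ G.Adj v w ∨ G.Adj w y := by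
            rw [SimpleGraph.adj_comm, con_adj_a hw, G.adj_comm w v]
          by_cases c1 : G.Adj v w
          · simp [e2, c1, hw]
          · by_cases c2 : G.Adj y w
            · simp [e2, c1, hw, c2, G.adj_comm w y]
            · simp [e2, c1, hw, c2, G.adj_comm w y]
      · by_cases hw : w = a
        · subst hw
          by_cases c1 : G.Adj v w
          · simp [con_adj_a hv, c1, hv, G.adj_comm w v]
          · by_cases c2 : G.Adj y v
            · simp [con_adj_a hv, c1, hv, c2, G.adj_comm w v, G.adj_comm v y]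
            · simp [con_adj_a hv, c1, hv, c2, G.adj_comm w v, G.adj_comm v y]
        · simp [con_adj' hv hw, hv, hw]
    have e3 : ∑ v ∈ S.erase y, ∑ w ∈ S.erase y,
        (if v = a ∧ (w ≠ a ∧ G.Adj y w ∧ ¬ G.Adj a w) then 1 else 0) = R := by
      rw [Finset.sum_eq_single_of_mem a haS]
      · rw [hR]
        refine Finset.sum_congr rfl fun w _ => ?_
        simp
      · intro v _ hv
        exact Finset.sum_eq_zero fun w _ => if_neg (fun h => hv h.1)
    have e4 : ∑ v ∈ S.erase y, ∑ w ∈ S.erase y,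
        (if w = a ∧ (v ≠ a ∧ G.Adj y v ∧ ¬ G.Adj a v) then 1 else 0) = R := by
      rw [Finset.sum_comm]
      exact e3
    simp only [e1, Finset.sum_add_distrib]
    rw [e3, e4]
    ring
  have h3 : (nb G S y).card = R + 1 + tri G S (a, y) := by
    unfold nb tri
    rw [Finset.card_filter, Finset.card_filter]
    have e1 : ∀ w ∈ S, (if G.Adj y w then 1 else 0) =
        (if (w ≠ a ∧ G.Adj y w ∧ ¬ G.Adj a w) then 1 else 0) + (if w = a then 1 else 0) +
        (if G.Adj (a, y).1 w ∧ G.Adj (a, y).2 w then 1 else 0) := by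
      intro w _
      by_cases hw : w = a
      · subst hw
        simp [h.symm]
      · by_cases c1 : G.Adj y w
        · by_cases c2 : G.Adj a w
          · simp [hw, c1, c2]
          · simp [hw, c1, c2]
        · simp [hw, c1]
    rw [Finset.sum_congr rfl e1, Finset.sum_add_distrib, Finset.sum_add_distrib]
    congr 1
    congr 1
    · rw [hR]
      symm
      apply Finset.sum_erase
      rw [if_neg]
      exact fun h => G.loopless.irrefl _ h.2.1
    · rw [Finset.sum_ite_eq' S a, if_pos ha]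
  omega

private theorem hasK_con {G : SimpleGraph V} {S : Finset V} {a y : V} (ha : a ∈ S) (hy : y ∈ S)
    (h : G.Adj a y) {p : ℕ} (hK : HasK p (con G a y) (S.erase y)) : HasK p G S := by
  have hay : a ≠ y := G.ne_of_adj h
  refine HasK.of_bags (fun b => if b = a then {a, y} else {b}) ?_ ?_ ?_ ?_ hK
  · intro b hb
    split_ifs with h1
    · intro x hx
      rcases Finset.mem_insert.1 hx with h2 | h2
      · rw [h2]; exact ha
      · rw [Finset.mem_singleton.1 h2]; exact hy
    · intro x hx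
      rw [Finset.mem_singleton.1 hx]
      exact Finset.mem_of_mem_erase hb
  · intro b _
    split_ifs with h1
    · exact conn_pair h
    · exact conn_singleton G b
  · intro b hb c hc hbc
    have hby := Finset.ne_of_mem_erase hb
    have hcy := Finset.ne_of_mem_erase hc
    split_ifs with h1 h2 h2
    · exact absurd (h1.trans h2.symm) hbc
    · rw [Finset.disjoint_singleton_right]
      simp [h2, hcy]
    · rw [Finset.disjoint_singleton_left]
      simp [h1, hby]
    · simpa using hbc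
  · intro b hb c hc hbc
    rw [con_adj] at hbc
    obtain ⟨hne, h1 | ⟨h1, h2⟩ | ⟨h1, h2⟩⟩ := hbc
    · refine ⟨b, ?_, c, ?_, h1⟩
      · split_ifs with h3
        · rw [h3]; exact Finset.mem_insert_self _ _
        · exact Finset.mem_singleton_self _
      · split_ifs with h3
        · rw [h3]; exact Finset.mem_insert_self _ _
        · exact Finset.mem_singleton_self _
    · refine ⟨y, ?_, c, ?_, h2⟩
      · rw [if_pos h1]
        simp
      · split_ifs with h3
        · rw [h3]; exact Finset.mem_insert_self _ _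
        · exact Finset.mem_singleton_self _
    · refine ⟨b, ?_, y, ?_, h2.symm⟩
      · split_ifs with h3
        · rw [h3]; exact Finset.mem_insert_self _ _
        · exact Finset.mem_singleton_self _
      · rw [if_pos h1]
        simp

private theorem tri_con {G : SimpleGraph V} {S : Finset V} {a y u v : V} (ha : a ∈ S) (hy : y ∈ S)
    (hay : a ≠ y) (hua : u ≠ a) (huy : u ≠ y) (hva : v ≠ a) (hvy : v ≠ y) :
    tri (con G a y) (S.erase y) (u, v) ≤ tri G S (u, v) +
      (if PP G (a, y) (u, v) then 1 else 0) := by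
  unfold tri
  have hsub : ∀ z ∈ (S.erase y).filter (fun z => (con G a y).Adj (u, v).1 z ∧
      (con G a y).Adj (u, v).2 z), z ≠ a → z ∈ S.filter (fun z => G.Adj (u, v).1 z ∧
        G.Adj (u, v).2 z) ∧ z ≠ y := by
    intro z hz hza
    obtain ⟨h1, h2, h3⟩ := Finset.mem_filter.1 hz
    rw [con_adj' hua hza] at h2
    rw [con_adj' hva hza] at h3
    exact ⟨Finset.mem_filter.2 ⟨Finset.mem_of_mem_erase h1, h2, h3⟩, Finset.ne_of_mem_erase h1⟩
  by_cases hA : G.Adj u a ∧ G.Adj v a
  · refine le_trans (Finset.card_le_card ?_) (Nat.le_add_right _ _)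
    intro z hz
    by_cases hza : z = a
    · subst hza
      exact Finset.mem_filter.2 ⟨ha, hA⟩
    · exact (hsub z hz hza).1
  by_cases hB : G.Adj u y ∧ G.Adj v y
  · refine le_trans ?_ (Nat.le_add_right _ _)
    have h1 : (S.erase y).filter (fun z => (con G a y).Adj (u, v).1 z ∧
        (con G a y).Adj (u, v).2 z) ⊆ insert a ((S.filter (fun z => G.Adj (u, v).1 z ∧
        G.Adj (u, v).2 z)).erase y) := by
      intro z hz
      by_cases hza : z = a
      · rw [hza]; exact Finset.mem_insert_self _ _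
      · obtain ⟨h2, h3⟩ := hsub z hz hza
        exact Finset.mem_insert_of_mem (Finset.mem_erase.2 ⟨h3, h2⟩)
    have hyT : y ∈ S.filter (fun z => G.Adj (u, v).1 z ∧ G.Adj (u, v).2 z) :=
      Finset.mem_filter.2 ⟨hy, hB⟩
    refine (Finset.card_le_card h1).trans ((Finset.card_insert_le _ _).trans ?_)
    rw [Finset.card_erase_of_mem hyT]
    have := Finset.card_pos.2 ⟨y, hyT⟩
    omega
  by_cases hC : PP G (a, y) (u, v)
  · rw [if_pos hC]
    have h1 : (S.erase y).filter (fun z => (con G a y).Adj (u, v).1 z ∧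
        (con G a y).Adj (u, v).2 z) ⊆ insert a (S.filter (fun z => G.Adj (u, v).1 z ∧
        G.Adj (u, v).2 z)) := by
      intro z hz
      by_cases hza : z = a
      · rw [hza]; exact Finset.mem_insert_self _ _
      · exact Finset.mem_insert_of_mem (hsub z hz hza).1
    exact (Finset.card_le_card h1).trans (Finset.card_insert_le _ _)
  · refine le_trans (Finset.card_le_card ?_) (Nat.le_add_right _ _)
    intro z hz
    by_cases hza : z = a
    · exfalso
      subst hza
      obtain ⟨_, h2, h3⟩ := Finset.mem_filter.1 hz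
      simp only [con_adj_a hua] at h2
      simp only [con_adj_a hva] at h3
      apply hC
      refine ⟨⟨hua.symm, hva.symm, huy.symm, hvy.symm⟩, ?_⟩
      simp only []
      rw [G.adj_comm z u, G.adj_comm z v, G.adj_comm y u, G.adj_comm y v]
      tauto
    · exact (hsub z hz hza).1

private theorem ww_insert {P : V × V → V × V → Prop} (hs : ∀ f g, P f g → P g f)
    (hi : ∀ f, ¬ P f f) {M : Finset (V × V)} {f : V × V} (hf : f ∉ M) :
    ww P (insert f M) = ww P M + 2 * ∑ g ∈ M, if P f g then 1 else 0 := by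
  unfold ww pw
  rw [Finset.sum_insert hf]
  have h1 : ((insert f M).filter (fun g => P f g)).card = ∑ g ∈ M, if P f g then 1 else 0 := by
    rw [Finset.card_filter, Finset.sum_insert hf, if_neg (hi f), zero_add]
  have h2 : ∀ g ∈ M, ((insert f M).filter (fun h => P g h)).card =
      (M.filter (fun h => P g h)).card + if P f g then 1 else 0 := by
    intro g _
    rw [Finset.card_filter, Finset.sum_insert hf, Finset.card_filter, add_comm]
    congr 1
    by_cases h3 : P f g
    · rw [if_pos h3, if_pos (hs _ _ h3)]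
    · rw [if_neg h3, if_neg (fun h4 => h3 (hs _ _ h4))]
  rw [h1, Finset.sum_congr rfl h2, Finset.sum_add_distrib]
  ring

theorem quot (G : SimpleGraph V) (S : Finset V) (M : Finset (V × V)) (hM : M ⊆ ed G S)
    (hm : Mat M) :
    ∃ (Q : SimpleGraph V) (S' : Finset V), S' ⊆ S ∧ S'.card + M.card = S.card ∧
      dc G S ≤ dc Q S' + 2 * M.card + 2 * ∑ f ∈ M, tri G S f + ww (PP G) M ∧
      ∀ p, HasK p Q S' → HasK p G S := by
  induction M using Finset.induction_on generalizing G S with
  | empty =>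
    refine ⟨G, S, Finset.Subset.refl _, by simp, by omega, fun _ h => h⟩
  | insert f M hf ih =>
    obtain ⟨a, y⟩ := f
    have hfe := mem_ed.1 (hM (Finset.mem_insert_self _ _))
    obtain ⟨ha, hy, hay⟩ := hfe
    simp only [] at ha hy hay
    have hne : a ≠ y := G.ne_of_adj hay
    have hg : ∀ g ∈ M, g.1 ≠ a ∧ g.2 ≠ a ∧ g.1 ≠ y ∧ g.2 ≠ y := by
      intro g hgM
      have h1 := mat_ne hm (Finset.mem_insert_self _ _) (Finset.mem_insert_of_mem hgM)
        (fun h => hf (by rw [h]; exact hgM))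
      exact ⟨h1.1.symm, h1.2.1.symm, h1.2.2.1.symm, h1.2.2.2.symm⟩
    have hM' : M ⊆ ed (con G a y) (S.erase y) := by
      intro g hgM
      obtain ⟨h1, h2, h3⟩ := mem_ed.1 (hM (Finset.mem_insert_of_mem hgM))
      obtain ⟨c1, c2, c3, c4⟩ := hg g hgM
      exact mem_ed.2 ⟨Finset.mem_erase.2 ⟨c3, h1⟩, Finset.mem_erase.2 ⟨c4, h2⟩,
        (con_adj' c1 c2).2 h3⟩
    have hm' : Mat M := fun g hg h hh =>
      hm g (Finset.mem_insert_of_mem hg) h (Finset.mem_insert_of_mem hh)
    obtain ⟨Q, S', h1, h2, h3, h4⟩ := ih (con G a y) (S.erase y) hM' hm'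
    have hcard : (S.erase y).card + 1 = S.card := by
      rw [Finset.card_erase_of_mem hy]
      have := Finset.card_pos.2 ⟨y, hy⟩
      omega
    refine ⟨Q, S', h1.trans (Finset.erase_subset _ _), ?_, ?_, fun p hp => hasK_con ha hy hay (h4 p hp)⟩
    · rw [Finset.card_insert_of_notMem hf]
      omega
    · rw [Finset.card_insert_of_notMem hf, Finset.sum_insert hf,
        ww_insert (fun _ _ h => h.symm) (not_PP_self G) hf, dc_con ha hy hay]
      have h5 : ∑ g ∈ M, tri (con G a y) (S.erase y) g ≤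
          ∑ g ∈ M, tri G S g + ∑ g ∈ M, if PP G (a, y) g then 1 else 0 := by
        rw [← Finset.sum_add_distrib]
        refine Finset.sum_le_sum fun g hgM => ?_
        obtain ⟨c1, c2, c3, c4⟩ := hg g hgM
        exact tri_con ha hy hne c1 c3 c2 c4
      have h6 : ww (PP (con G a y)) M = ww (PP G) M := by
        unfold ww pw
        refine Finset.sum_congr rfl fun g hgM => ?_
        congr 1
        refine Finset.filter_congr fun h hh => ?_
        obtain ⟨c1, c2, c3, c4⟩ := hg g hgM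
        obtain ⟨d1, d2, d3, d4⟩ := hg h hh
        unfold PP
        rw [con_adj' c1 d1, con_adj' c2 d2, con_adj' c1 d2, con_adj' c2 d1]
      rw [h6] at h3
      omega

end Pool.Agent.K6T
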