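import Pool.Agent.K6T.Mad6
import Pool.Agent.K6T.Quot
import Pool.Agent.K6T.Conv

/-!
# K6T / FewC4 : minimum degree 7 and few 4-cycles give a `K_6` minor

`M` a maximal matching. `quot` contracts it; the loss is `2 |M| + 2 ∑ tri + ww (PP G) M`, and
`8 ∑ tri + 4 ww ≤ 8 |M| + (number of ordered 4-cycles)`. The vertices outside `M` are pairwise
non-adjacent, hence `dc + 26 |M| ≥ 14 n`; together with `dc ≥ 7 n` this gives
`dc + 4 |M| ≥ 8 n + n / 13`, and Mader's theorem applies.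
-/

set_option autoImplicit false

namespace Pool.Agent.K6T

open Finset
open Classical

variable {V : Type*}

/-- the ordered 4-cycles with all vertices in `S` -/
noncomputable def cyc (G : SimpleGraph V) (S : Finset V) : Finset (V × V × V × V) :=
  (S ×ˢ S ×ˢ S ×ˢ S).filter (fun p => G.Adj p.1 p.2.1 ∧ G.Adj p.2.1 p.2.2.1 ∧
    G.Adj p.2.2.1 p.2.2.2 ∧ G.Adj p.2.2.2 p.1 ∧ p.1 ≠ p.2.2.1 ∧ p.2.1 ≠ p.2.2.2)

theorem mem_cyc {G : SimpleGraph V} {S : Finset V} {a b c d : V} :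
    (a, b, c, d) ∈ cyc G S ↔ (a ∈ S ∧ b ∈ S ∧ c ∈ S ∧ d ∈ S) ∧ G.Adj a b ∧ G.Adj b c ∧
      G.Adj c d ∧ G.Adj d a ∧ a ≠ c ∧ b ≠ d := by
  simp [cyc]

/-- two elements of a matching which share a vertex are equal -/
theorem mat_share {M : Finset (V × V)} (hm : Mat M) {f g : V × V} (hf : f ∈ M) (hg : g ∈ M)
    (h : f.1 = g.1 ∨ f.1 = g.2 ∨ f.2 = g.1 ∨ f.2 = g.2) : f = g := by
  by_contra hne
  exact hm f hf g hg ⟨hne, h⟩

/-- `x y` or `y x` is in `M` -/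
def EM (M : Finset (V × V)) (x y : V) : Prop := (x, y) ∈ M ∨ (y, x) ∈ M

theorem EM_symm {M : Finset (V × V)} {x y : V} (h : EM M x y) : EM M y x := h.symm

theorem EM_share {M : Finset (V × V)} (hm : Mat M) {x y z : V} (h : EM M x y) (h' : EM M x z) :
    y = z := by
  rcases h with h | h <;> rcases h' with h' | h'
  · exact congrArg Prod.snd (mat_share hm h h' (Or.inl rfl))
  · have := mat_share hm h h' (Or.inr (Or.inl rfl))
    exact (congrArg Prod.snd this).trans (congrArg Prod.fst this)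
  · have := mat_share hm h h' (Or.inr (Or.inr (Or.inl rfl)))
    exact (congrArg Prod.fst this).trans (congrArg Prod.snd this)
  · exact congrArg Prod.fst (mat_share hm h h' (Or.inr (Or.inr (Or.inr rfl))))

theorem cyc_rot {G : SimpleGraph V} {S : Finset V} {a b c d : V} (h : (a, b, c, d) ∈ cyc G S) :
    (d, a, b, c) ∈ cyc G S := by
  obtain ⟨⟨ha, hb, hc, hd⟩, h1, h2, h3, h4, h5, h6⟩ := mem_cyc.1 h
  exact mem_cyc.2 ⟨⟨hd, ha, hb, hc⟩, h4, h1, h2, h3, h6.symm, h5⟩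

/-- rotation of a family of ordered 4-cycles -/
theorem card_rot (G : SimpleGraph V) (S : Finset V) (P Q : V × V × V × V → Prop)
    (h : ∀ a b c d, P (a, b, c, d) → Q (d, a, b, c)) :
    ((cyc G S).filter P).card ≤ ((cyc G S).filter Q).card := by
  apply card_le_card_of_injOn (fun p => (p.2.2.2, p.1, p.2.1, p.2.2.1))
  · rintro ⟨a, b, c, d⟩ hp
    rw [mem_coe, mem_filter] at hp ⊢
    exact ⟨cyc_rot hp.1, h a b c d hp.2⟩
  · rintro ⟨a, b, c, d⟩ - ⟨a', b', c', d'⟩ - h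
    simp only [Prod.mk.injEq] at h
    obtain ⟨rfl, rfl, rfl, rfl⟩ := h
    rfl

/-- the ordered 4-cycles attached to `M` -/
theorem cyc_split (G : SimpleGraph V) (S : Finset V) (M : Finset (V × V)) (hM : M ⊆ ed G S)
    (hm : Mat M) :
    2 * ((cyc G S).filter (fun p => (p.1, p.2.2.1) ∈ M)).card +
      2 * ((cyc G S).filter (fun p => (p.2.2.1, p.1) ∈ M)).card +
      2 * ((cyc G S).filter (fun p => (p.1, p.2.1) ∈ M ∧ EM M p.2.2.1 p.2.2.2 ∧
        ¬ G.Adj p.1 p.2.2.1 ∧ ¬ G.Adj p.2.1 p.2.2.2)).card +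
      2 * ((cyc G S).filter (fun p => (p.2.1, p.1) ∈ M ∧ EM M p.2.2.1 p.2.2.2 ∧
        ¬ G.Adj p.1 p.2.2.1 ∧ ¬ G.Adj p.2.1 p.2.2.2)).card ≤ (cyc G S).card := by
  have b1 : ((cyc G S).filter (fun p => (p.1, p.2.2.1) ∈ M)).card ≤
      ((cyc G S).filter (fun p => (p.2.1, p.2.2.2) ∈ M)).card := by
    convert card_rot G S (fun p => (p.1, p.2.2.1) ∈ M)
      (fun p => (p.2.1, p.2.2.2) ∈ M)
      (fun a b c d h => h)
  have b2 : ((cyc G S).filter (fun p => (p.2.2.1, p.1) ∈ M)).card ≤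
      ((cyc G S).filter (fun p => (p.2.2.2, p.2.1) ∈ M)).card := by
    convert card_rot G S (fun p => (p.2.2.1, p.1) ∈ M)
      (fun p => (p.2.2.2, p.2.1) ∈ M)
      (fun a b c d h => h)
  have d1 : ((cyc G S).filter (fun p => (p.1, p.2.1) ∈ M ∧ EM M p.2.2.1 p.2.2.2 ∧
        ¬ G.Adj p.1 p.2.2.1 ∧ ¬ G.Adj p.2.1 p.2.2.2)).card ≤
      ((cyc G S).filter (fun p => (p.2.1, p.2.2.1) ∈ M ∧ EM M p.2.2.2 p.1 ∧
        ¬ G.Adj p.1 p.2.2.1 ∧ ¬ G.Adj p.2.1 p.2.2.2)).card := by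
    convert card_rot G S (fun p => (p.1, p.2.1) ∈ M ∧ EM M p.2.2.1 p.2.2.2 ∧
        ¬ G.Adj p.1 p.2.2.1 ∧ ¬ G.Adj p.2.1 p.2.2.2)
      (fun p => (p.2.1, p.2.2.1) ∈ M ∧ EM M p.2.2.2 p.1 ∧
        ¬ G.Adj p.1 p.2.2.1 ∧ ¬ G.Adj p.2.1 p.2.2.2)
      (fun a b c d h => ⟨h.1, h.2.1, fun k => h.2.2.2 k.symm, h.2.2.1⟩)
  have d2 : ((cyc G S).filter (fun p => (p.2.1, p.1) ∈ M ∧ EM M p.2.2.1 p.2.2.2 ∧
        ¬ G.Adj p.1 p.2.2.1 ∧ ¬ G.Adj p.2.1 p.2.2.2)).card ≤
      ((cyc G S).filter (fun p => (p.2.2.1, p.2.1) ∈ M ∧ EM M p.2.2.2 p.1 ∧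
        ¬ G.Adj p.1 p.2.2.1 ∧ ¬ G.Adj p.2.1 p.2.2.2)).card := by
    convert card_rot G S (fun p => (p.2.1, p.1) ∈ M ∧ EM M p.2.2.1 p.2.2.2 ∧
        ¬ G.Adj p.1 p.2.2.1 ∧ ¬ G.Adj p.2.1 p.2.2.2)
      (fun p => (p.2.2.1, p.2.1) ∈ M ∧ EM M p.2.2.2 p.1 ∧
        ¬ G.Adj p.1 p.2.2.1 ∧ ¬ G.Adj p.2.1 p.2.2.2)
      (fun a b c d h => ⟨h.1, h.2.1, fun k => h.2.2.2 k.symm, h.2.2.1⟩)
  -- the complete quadruples
  have k1 : ((cyc G S).filter (fun p => EM M p.1 p.2.2.1 ∧ EM M p.2.1 p.2.2.2)).card ≤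
      ((cyc G S).filter (fun p => EM M p.1 p.2.1 ∧ EM M p.2.2.1 p.2.2.2 ∧
        G.Adj p.1 p.2.2.1)).card := by
    apply card_le_card_of_injOn (fun p => (p.1, p.2.2.1, p.2.1, p.2.2.2))
    · rintro ⟨a, b, c, d⟩ hp
      rw [mem_coe, mem_filter] at hp ⊢
      obtain ⟨hp, h1, h2⟩ := hp
      obtain ⟨⟨ha, hb, hc, hd⟩, e1, e2, e3, e4, e5, e6⟩ := mem_cyc.1 hp
      simp only at h1 h2 ⊢
      have hE : ∀ {x y : V}, EM M x y → G.Adj x y := by
        rintro x y (h | h)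
        · exact (mem_ed.1 (hM h)).2.2
        · exact (mem_ed.1 (hM h)).2.2.symm
      exact ⟨mem_cyc.2 ⟨⟨ha, hc, hb, hd⟩, hE h1, e2.symm, hE h2, e4, e1.ne, e3.ne⟩, h1, h2, e1⟩
    · rintro ⟨a, b, c, d⟩ - ⟨a', b', c', d'⟩ - h
      simp only [Prod.mk.injEq] at h
      obtain ⟨rfl, rfl, rfl, rfl⟩ := h
      rfl
  have key : ((cyc G S).filter (fun p => (p.1, p.2.2.1) ∈ M)).card +
      ((cyc G S).filter (fun p => (p.2.2.1, p.1) ∈ M)).card +
      ((cyc G S).filter (fun p => (p.2.1, p.2.2.2) ∈ M)).card +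
      ((cyc G S).filter (fun p => (p.2.2.2, p.2.1) ∈ M)).card +
      ((cyc G S).filter (fun p => EM M p.1 p.2.1 ∧ EM M p.2.2.1 p.2.2.2 ∧
        G.Adj p.1 p.2.2.1)).card +
      ((cyc G S).filter (fun p => (p.1, p.2.1) ∈ M ∧ EM M p.2.2.1 p.2.2.2 ∧
        ¬ G.Adj p.1 p.2.2.1 ∧ ¬ G.Adj p.2.1 p.2.2.2)).card +
      ((cyc G S).filter (fun p => (p.2.1, p.1) ∈ M ∧ EM M p.2.2.1 p.2.2.2 ∧
        ¬ G.Adj p.1 p.2.2.1 ∧ ¬ G.Adj p.2.1 p.2.2.2)).card +
      ((cyc G S).filter (fun p => (p.2.1, p.2.2.1) ∈ M ∧ EM M p.2.2.2 p.1 ∧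
        ¬ G.Adj p.1 p.2.2.1 ∧ ¬ G.Adj p.2.1 p.2.2.2)).card +
      ((cyc G S).filter (fun p => (p.2.2.1, p.2.1) ∈ M ∧ EM M p.2.2.2 p.1 ∧
        ¬ G.Adj p.1 p.2.2.1 ∧ ¬ G.Adj p.2.1 p.2.2.2)).card ≤ (cyc G S).card +
      ((cyc G S).filter (fun p => EM M p.1 p.2.2.1 ∧ EM M p.2.1 p.2.2.2)).card := by
    rw [card_filter, card_filter, card_filter, card_filter, card_filter, card_filter,
      card_filter, card_filter, card_filter, card_filter, card_eq_sum_ones,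
      ← sum_add_distrib, ← sum_add_distrib, ← sum_add_distrib, ← sum_add_distrib,
      ← sum_add_distrib, ← sum_add_distrib, ← sum_add_distrib, ← sum_add_distrib,
      ← sum_add_distrib]
    refine sum_le_sum ?_
    rintro ⟨a, b, c, d⟩ hp
    obtain ⟨-, h1, h2, h3, h4, h5, h6⟩ := mem_cyc.1 hp
    simp only
    have anti : ∀ {x y : V}, x ≠ y → (x, y) ∈ M → (y, x) ∉ M := by
      intro x y hxy h h'
      exact hxy (congrArg Prod.fst (mat_share hm h h' (Or.inr (Or.inl rfl))))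
    have s1 : (if (a, c) ∈ M then 1 else 0) + (if (c, a) ∈ M then 1 else 0) =
        (if EM M a c then 1 else 0 : ℕ) := by
      by_cases e1 : (a, c) ∈ M
      · simp [EM, e1, anti h5 e1]
      · by_cases e2 : (c, a) ∈ M <;> simp [EM, e1, e2]
    have s2 : (if (b, d) ∈ M then 1 else 0) + (if (d, b) ∈ M then 1 else 0) =
        (if EM M b d then 1 else 0 : ℕ) := by
      by_cases e1 : (b, d) ∈ M
      · simp [EM, e1, anti h6 e1]
      · by_cases e2 : (d, b) ∈ M <;> simp [EM, e1, e2]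
    rw [s1, add_assoc (if EM M a c then 1 else 0), s2]
    by_cases hac : EM M a c
    · have f1 : ¬ EM M a b := fun h => h2.ne (EM_share hm h hac)
      have f2 : ¬ EM M b c := fun h =>
        h1.ne (EM_share hm (EM_symm hac) (EM_symm h))
      have f3 : (a, b) ∉ M := fun h => f1 (Or.inl h)
      have f4 : (b, a) ∉ M := fun h => f1 (Or.inr h)
      have f5 : (b, c) ∉ M := fun h => f2 (Or.inl h)
      have f6 : (c, b) ∉ M := fun h => f2 (Or.inr h)
      by_cases hbd : EM M b d <;> simp [hac, hbd, f1, f3, f4, f5, f6]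
    · by_cases hbd : EM M b d
      · have f1 : ¬ EM M a b := fun h =>
          h4.ne (EM_share hm hbd (EM_symm h))
        have f2 : ¬ EM M b c := fun h => h3.ne (EM_share hm h hbd)
        have f3 : (a, b) ∉ M := fun h => f1 (Or.inl h)
        have f4 : (b, a) ∉ M := fun h => f1 (Or.inr h)
        have f5 : (b, c) ∉ M := fun h => f2 (Or.inl h)
        have f6 : (c, b) ∉ M := fun h => f2 (Or.inr h)
        simp [hac, hbd, f1, f3, f4, f5, f6]
      · by_cases hadj : G.Adj a c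
        · simp only [hac, hbd, hadj, not_true, false_and, and_false, if_false, and_true]
          split_ifs <;> omega
        · by_cases hab : EM M a b
          · have f2 : ¬ EM M b c := fun h => h5 (EM_share hm (EM_symm hab) h)
            have f5 : (b, c) ∉ M := fun h => f2 (Or.inl h)
            have f6 : (c, b) ∉ M := fun h => f2 (Or.inr h)
            rcases hab with hab | hab
            · have g1 := anti h1.ne hab
              simp only [hac, hbd, hadj, f5, f6, g1, false_and, and_false, if_false]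
              split_ifs <;> omega
            · have g1 := anti h1.ne' hab
              simp only [hac, hbd, hadj, f5, f6, g1, false_and, and_false, if_false]
              split_ifs <;> omega
          · have f3 : (a, b) ∉ M := fun h => hab (Or.inl h)
            have f4 : (b, a) ∉ M := fun h => hab (Or.inr h)
            by_cases hbc : (b, c) ∈ M
            · have g1 := anti h2.ne hbc
              simp only [hac, hbd, hadj, f3, f4, g1, false_and, and_false, if_false]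
              split_ifs <;> omega
            · simp only [hac, hbd, hadj, f3, f4, hbc, false_and, and_false, if_false]
              split_ifs <;> omega
  omega

theorem cyc_tri1 (G : SimpleGraph V) (S : Finset V) (M : Finset (V × V)) (hM : M ⊆ ed G S) :
    ∑ f ∈ M, (tri G S f * tri G S f - tri G S f) ≤
      ((cyc G S).filter (fun p => (p.1, p.2.2.1) ∈ M)).card := by
  have h1 : ∑ f ∈ M, (tri G S f * tri G S f - tri G S f) =
      (M.sigma fun f => (S.filter (fun z => G.Adj f.1 z ∧ G.Adj f.2 z)).offDiag).card := by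
    rw [card_sigma]
    refine sum_congr rfl fun f _ => ?_
    rw [offDiag_card]
    rfl
  rw [h1]
  apply card_le_card_of_injOn (fun s => (s.1.1, s.2.1, s.1.2, s.2.2))
  · rintro ⟨⟨a, b⟩, ⟨c, d⟩⟩ hs
    rw [mem_coe, mem_sigma, mem_offDiag, mem_filter, mem_filter] at hs
    obtain ⟨hf, ⟨hc, hac, hbc⟩, ⟨hd, had, hbd⟩, hcd⟩ := hs
    obtain ⟨ha, hb, hab⟩ := mem_ed.1 (hM hf)
    rw [mem_coe, mem_filter]
    exact ⟨mem_cyc.2 ⟨⟨ha, hc, hb, hd⟩, hac, hbc.symm, hbd, had.symm, hab.ne, hcd⟩, hf⟩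
  · rintro ⟨⟨a, b⟩, ⟨c, d⟩⟩ - ⟨⟨a', b'⟩, ⟨c', d'⟩⟩ - h
    simp only [Prod.mk.injEq] at h
    obtain ⟨rfl, rfl, rfl, rfl⟩ := h
    rfl

theorem cyc_tri2 (G : SimpleGraph V) (S : Finset V) (M : Finset (V × V)) (hM : M ⊆ ed G S) :
    ∑ f ∈ M, (tri G S f * tri G S f - tri G S f) ≤
      ((cyc G S).filter (fun p => (p.2.2.1, p.1) ∈ M)).card := by
  have h1 : ∑ f ∈ M, (tri G S f * tri G S f - tri G S f) =
      (M.sigma fun f => (S.filter (fun z => G.Adj f.1 z ∧ G.Adj f.2 z)).offDiag).card := by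
    rw [card_sigma]
    refine sum_congr rfl fun f _ => ?_
    rw [offDiag_card]
    rfl
  rw [h1]
  apply card_le_card_of_injOn (fun s => (s.1.2, s.2.1, s.1.1, s.2.2))
  · rintro ⟨⟨a, b⟩, ⟨c, d⟩⟩ hs
    rw [mem_coe, mem_sigma, mem_offDiag, mem_filter, mem_filter] at hs
    obtain ⟨hf, ⟨hc, hac, hbc⟩, ⟨hd, had, hbd⟩, hcd⟩ := hs
    obtain ⟨ha, hb, hab⟩ := mem_ed.1 (hM hf)
    rw [mem_coe, mem_filter]
    exact ⟨mem_cyc.2 ⟨⟨hb, hc, ha, hd⟩, hbc, hac.symm, had, hbd.symm, hab.ne', hcd⟩, hf⟩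
  · rintro ⟨⟨a, b⟩, ⟨c, d⟩⟩ - ⟨⟨a', b'⟩, ⟨c', d'⟩⟩ - h
    simp only [Prod.mk.injEq] at h
    obtain ⟨rfl, rfl, rfl, rfl⟩ := h
    rfl

theorem ww_card (G : SimpleGraph V) (M : Finset (V × V)) :
    ww (PP G) M = ((M ×ˢ M).filter (fun s => PP G s.1 s.2)).card := by
  rw [card_filter, sum_product, ww]
  refine sum_congr rfl fun f _ => ?_
  rw [pw, card_filter]

theorem cyc_pp1 (G : SimpleGraph V) (S : Finset V) (M : Finset (V × V)) (hM : M ⊆ ed G S)
    (hm : Mat M) : ww (PP G) M ≤ ((cyc G S).filter (fun p => (p.1, p.2.1) ∈ M ∧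
        EM M p.2.2.1 p.2.2.2 ∧ ¬ G.Adj p.1 p.2.2.1 ∧ ¬ G.Adj p.2.1 p.2.2.2)).card := by
  rw [ww_card]
  apply card_le_card_of_injOn (fun s => if G.Adj s.1.1 s.2.1 then (s.1.1, s.1.2, s.2.2, s.2.1)
    else (s.1.1, s.1.2, s.2.1, s.2.2))
  · rintro ⟨⟨a, b⟩, ⟨c, d⟩⟩ hs
    rw [mem_coe, mem_filter, mem_product] at hs
    obtain ⟨⟨hf, hg⟩, ⟨h1, h2, h3, h4⟩, h5⟩ := hs
    obtain ⟨ha, hb, hab⟩ := mem_ed.1 (hM hf)
    obtain ⟨hc, hd, hcd⟩ := mem_ed.1 (hM hg)
    simp only at *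
    rcases h5 with ⟨k1, k2, k3, k4⟩ | ⟨k1, k2, k3, k4⟩
    · rw [if_pos k1, mem_coe, mem_filter]
      exact ⟨mem_cyc.2 ⟨⟨ha, hb, hd, hc⟩, hab, k2, hcd.symm, k1.symm, h2, h3⟩, hf, Or.inr hg,
        k3, k4⟩
    · rw [if_neg k3, mem_coe, mem_filter]
      exact ⟨mem_cyc.2 ⟨⟨ha, hb, hc, hd⟩, hab, k2, hcd, k1.symm, h1, h4⟩, hf, Or.inl hg, k3, k4⟩
  · rintro ⟨⟨a, b⟩, ⟨c, d⟩⟩ hs ⟨⟨a', b'⟩, ⟨c', d'⟩⟩ hs' h
    rw [mem_coe, mem_filter, mem_product] at hs hs'
    have hg := hs.1.2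
    have hg' := hs'.1.2
    simp only at h hg hg'
    have key : a = a' ∧ b = b' ∧ ((c = c' ∧ d = d') ∨ (c = d' ∧ d = c')) := by
      split_ifs at h <;> simp only [Prod.mk.injEq] at h <;> tauto
    obtain ⟨rfl, rfl, h1⟩ := key
    have h2 : (c, d) = (c', d') := by
      apply mat_share hm hg hg'
      rcases h1 with ⟨h1, -⟩ | ⟨h1, -⟩
      · exact Or.inl h1
      · exact Or.inr (Or.inl h1)
    rw [h2]

theorem cyc_pp2 (G : SimpleGraph V) (S : Finset V) (M : Finset (V × V)) (hM : M ⊆ ed G S)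
    (hm : Mat M) : ww (PP G) M ≤ ((cyc G S).filter (fun p => (p.2.1, p.1) ∈ M ∧
        EM M p.2.2.1 p.2.2.2 ∧ ¬ G.Adj p.1 p.2.2.1 ∧ ¬ G.Adj p.2.1 p.2.2.2)).card := by
  rw [ww_card]
  apply card_le_card_of_injOn (fun s => if G.Adj s.1.1 s.2.1 then (s.1.2, s.1.1, s.2.1, s.2.2)
    else (s.1.2, s.1.1, s.2.2, s.2.1))
  · rintro ⟨⟨a, b⟩, ⟨c, d⟩⟩ hs
    rw [mem_coe, mem_filter, mem_product] at hs
    obtain ⟨⟨hf, hg⟩, ⟨h1, h2, h3, h4⟩, h5⟩ := hs
    obtain ⟨ha, hb, hab⟩ := mem_ed.1 (hM hf)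
    obtain ⟨hc, hd, hcd⟩ := mem_ed.1 (hM hg)
    simp only at *
    rcases h5 with ⟨k1, k2, k3, k4⟩ | ⟨k1, k2, k3, k4⟩
    · rw [if_pos k1, mem_coe, mem_filter]
      exact ⟨mem_cyc.2 ⟨⟨hb, ha, hc, hd⟩, hab.symm, k1, hcd, k2.symm, h3, h2⟩, hf, Or.inl hg,
        k4, k3⟩
    · rw [if_neg k3, mem_coe, mem_filter]
      exact ⟨mem_cyc.2 ⟨⟨hb, ha, hd, hc⟩, hab.symm, k1, hcd.symm, k2.symm, h4, h1⟩, hf,
        Or.inr hg, k4, k3⟩
  · rintro ⟨⟨a, b⟩, ⟨c, d⟩⟩ hs ⟨⟨a', b'⟩, ⟨c', d'⟩⟩ hs' h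
    rw [mem_coe, mem_filter, mem_product] at hs hs'
    have hg := hs.1.2
    have hg' := hs'.1.2
    simp only at h hg hg'
    have key : a = a' ∧ b = b' ∧ ((c = c' ∧ d = d') ∨ (c = d' ∧ d = c')) := by
      split_ifs at h <;> simp only [Prod.mk.injEq] at h <;> tauto
    obtain ⟨rfl, rfl, h1⟩ := key
    have h2 : (c, d) = (c', d') := by
      apply mat_share hm hg hg'
      rcases h1 with ⟨h1, -⟩ | ⟨h1, -⟩
      · exact Or.inl h1
      · exact Or.inr (Or.inl h1)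
    rw [h2]

/-- the excess is bounded by the number of 4-cycles -/
theorem excess (G : SimpleGraph V) (S : Finset V) (M : Finset (V × V)) (hM : M ⊆ ed G S)
    (hm : Mat M) :
    8 * ∑ f ∈ M, tri G S f + 4 * ww (PP G) M ≤ 8 * M.card + (cyc G S).card := by
  have h1 := cyc_split G S M hM hm
  have h2 := cyc_tri1 G S M hM
  have h3 := cyc_tri2 G S M hM
  have h4 := cyc_pp1 G S M hM hm
  have h5 := cyc_pp2 G S M hM hm
  have h6 : 4 * ∑ f ∈ M, tri G S f ≤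
      4 * M.card + 2 * ∑ f ∈ M, (tri G S f * tri G S f - tri G S f) := by
    rw [mul_sum, mul_sum, mul_comm 4 M.card, ← smul_eq_mul M.card 4, ← sum_const,
      ← sum_add_distrib]
    refine sum_le_sum fun f _ => ?_
    obtain ⟨t, ht⟩ : ∃ t, t = tri G S f := ⟨_, rfl⟩
    rw [← ht]
    rcases Nat.lt_or_ge t 2 with h | h
    · interval_cases t <;> norm_num
    · obtain ⟨s, rfl⟩ : ∃ s, t = s + 2 := ⟨t - 2, by omega⟩
      have e1 : (s + 2) * (s + 2) - (s + 2) = (s + 2) * (s + 1) := by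
        rw [Nat.sub_eq_iff_eq_add (by nlinarith)]; ring
      rw [e1]
      nlinarith [Nat.zero_le (s * s)]
  omega

/-- a maximal matching: the vertices outside are pairwise non-adjacent -/
theorem max_deg (G : SimpleGraph V) (S : Finset V) (hd : ∀ v ∈ S, 7 ≤ (nb G S v).card) :
    ∃ M : Finset (V × V), M ⊆ ed G S ∧ Mat M ∧ 14 * S.card ≤ dc G S + 26 * M.card := by
  obtain ⟨M, hMmem, hmax⟩ := Finset.exists_max_image
    ((ed G S).powerset.filter (fun M => Mat M)) (fun M => M.card)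
    ⟨∅, by
      rw [Finset.mem_filter, Finset.mem_powerset]
      exact ⟨Finset.empty_subset _, fun f hf => absurd hf (Finset.notMem_empty f)⟩⟩
  rw [Finset.mem_filter, Finset.mem_powerset] at hMmem
  obtain ⟨hME, hM⟩ := hMmem
  refine ⟨M, hME, hM, ?_⟩
  obtain ⟨W, hW⟩ : ∃ W, W = M.image Prod.fst ∪ M.image Prod.snd := ⟨_, rfl⟩
  have mW : ∀ {v}, v ∈ W ↔ ∃ f ∈ M, v = f.1 ∨ v = f.2 := by
    intro v
    rw [hW, mem_union, mem_image, mem_image]
    constructor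
    · rintro (⟨f, hf, h⟩ | ⟨f, hf, h⟩)
      · exact ⟨f, hf, Or.inl h.symm⟩
      · exact ⟨f, hf, Or.inr h.symm⟩
    · rintro ⟨f, hf, h | h⟩
      · exact Or.inl ⟨f, hf, h.symm⟩
      · exact Or.inr ⟨f, hf, h.symm⟩
  have hWS : W ⊆ S := by
    intro v hv
    obtain ⟨f, hf, h | h⟩ := mW.1 hv
    · rw [h]; exact (mem_ed.1 (hME hf)).1
    · rw [h]; exact (mem_ed.1 (hME hf)).2.1
  have hWc : W.card ≤ 2 * M.card := by
    rw [hW]
    calc _ ≤ _ := card_union_le _ _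
      _ ≤ M.card + M.card := Nat.add_le_add card_image_le card_image_le
      _ = 2 * M.card := by ring
  have hWc' : 2 * M.card ≤ W.card := by
    have e1 : (M.image Prod.fst).card = M.card := by
      apply card_image_of_injOn
      intro f hf g hg h
      exact mat_share hM hf hg (Or.inl h)
    have e2 : (M.image Prod.snd).card = M.card := by
      apply card_image_of_injOn
      intro f hf g hg h
      exact mat_share hM hf hg (Or.inr (Or.inr (Or.inr h)))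
    have e3 : Disjoint (M.image Prod.fst) (M.image Prod.snd) := by
      rw [disjoint_left]
      intro v h1 h2
      obtain ⟨f, hf, rfl⟩ := mem_image.1 h1
      obtain ⟨g, hg, hgf⟩ := mem_image.1 h2
      have h3 := mat_share hM hf hg (Or.inr (Or.inl hgf.symm))
      rw [← h3] at hgf
      exact (mem_ed.1 (hME hf)).2.2.ne hgf.symm
    rw [hW, card_union_of_disjoint e3, e1, e2]
    omega
  -- the outside vertices
  have hind : ∀ x ∈ S \ W, ∀ y ∈ S \ W, ¬ G.Adj x y := by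
    intro x hx y hy hxy
    rw [mem_sdiff] at hx hy
    have h1 : (x, y) ∉ M := fun h => hx.2 (mW.2 ⟨(x, y), h, Or.inl rfl⟩)
    have hne : ∀ f ∈ M, ¬ (x = f.1 ∨ x = f.2 ∨ y = f.1 ∨ y = f.2) := by
      rintro f hf (h | h | h | h)
      · exact hx.2 (mW.2 ⟨f, hf, Or.inl h⟩)
      · exact hx.2 (mW.2 ⟨f, hf, Or.inr h⟩)
      · exact hy.2 (mW.2 ⟨f, hf, Or.inl h⟩)
      · exact hy.2 (mW.2 ⟨f, hf, Or.inr h⟩)
    have h2 := hmax (insert (x, y) M) (by
      rw [mem_filter, mem_powerset]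
      refine ⟨insert_subset (mem_ed.2 ⟨hx.1, hy.1, hxy⟩) hME, ?_⟩
      intro f hf g hg ht
      rcases mem_insert.1 hf with h3 | h3
      · rcases mem_insert.1 hg with h4 | h4
        · exact ht.1 (h3.trans h4.symm)
        · rw [h3] at ht
          exact hne g h4 ht.2
      · rcases mem_insert.1 hg with h4 | h4
        · rw [h4] at ht
          exact hne f h3 ht.symm.2
        · exact hM f h3 g h4 ht)
    rw [card_insert_of_notMem h1] at h2
    omega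
  -- the degree sums
  have hdec : dc G S = ∑ v ∈ S \ W, (nb G S v).card + ∑ v ∈ W, (nb G S v).card := by
    rw [dc, sum_sdiff hWS]
  have h1 : ∑ v ∈ W, ((nb G (S \ W) v).card + 1) ≤ ∑ v ∈ W, (nb G S v).card := by
    refine sum_le_sum fun v hv => ?_
    obtain ⟨w, hwW, hvw⟩ : ∃ w ∈ W, G.Adj v w := by
      obtain ⟨f, hf, h | h⟩ := mW.1 hv
      · exact ⟨f.2, mW.2 ⟨f, hf, Or.inr rfl⟩, by rw [h]; exact (mem_ed.1 (hME hf)).2.2⟩
      · exact ⟨f.1, mW.2 ⟨f, hf, Or.inl rfl⟩, by rw [h]; exact (mem_ed.1 (hME hf)).2.2.symm⟩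
    have hnot : w ∉ nb G (S \ W) v := fun h => (mem_sdiff.1 (mem_nb.1 h).1).2 hwW
    rw [← card_insert_of_notMem hnot]
    refine card_le_card (insert_subset (mem_nb.2 ⟨hWS hwW, hvw⟩) ?_)
    intro z hz
    obtain ⟨h3, h4⟩ := mem_nb.1 hz
    exact mem_nb.2 ⟨(mem_sdiff.1 h3).1, h4⟩
  have h2 : ∑ v ∈ W, (nb G (S \ W) v).card = ∑ u ∈ S \ W, (nb G S u).card := by
    have e1 : ∀ u ∈ S \ W, (nb G S u).card = ∑ v ∈ W, (if G.Adj v u then 1 else 0) := by
      intro u hu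
      rw [← card_filter]
      congr 1
      ext z
      rw [mem_nb, mem_filter]
      constructor
      · rintro ⟨h3, h4⟩
        refine ⟨?_, h4.symm⟩
        by_contra h5
        exact hind u hu z (mem_sdiff.2 ⟨h3, h5⟩) h4
      · rintro ⟨h3, h4⟩
        exact ⟨hWS h3, h4.symm⟩
    rw [sum_congr rfl e1, sum_comm]
    refine sum_congr rfl fun v _ => ?_
    rw [← card_filter]
    rfl
  have h3 : 7 * (S \ W).card ≤ ∑ u ∈ S \ W, (nb G S u).card := by
    rw [mul_comm, ← smul_eq_mul, ← sum_const]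
    exact sum_le_sum fun u hu => hd u (mem_sdiff.1 hu).1
  have h4 : (S \ W).card + W.card = S.card := card_sdiff_add_card_eq_card hWS
  rw [sum_add_distrib, sum_const, smul_eq_mul, mul_one, h2] at h1
  omega

/-- minimum degree 7 and few 4-cycles -/
theorem core_four (G : SimpleGraph V) (S : Finset V) (hne : S.Nonempty)
    (hd : ∀ v ∈ S, 7 ≤ (nb G S v).card)
    (hC : 13 * (cyc G S).card ≤ 4 * (S.card + 234)) : HasK 6 G S := by
  obtain ⟨M, hME, hM, h14⟩ := max_deg G S hd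
  obtain ⟨Q, S', -, hS', hdc, hK⟩ := quot G S M hME hM
  have h2m := mat_card hME hM
  have hex := excess G S M hME hM
  have h7 : 7 * S.card ≤ dc G S := by
    rw [dc, mul_comm, ← smul_eq_mul, ← sum_const]
    exact sum_le_sum hd
  have hn : 8 ≤ S.card := by
    obtain ⟨v, hv⟩ := hne
    have h1 := hd v hv
    have h2 : insert v (nb G S v) ⊆ S := by
      intro w hw
      rcases Finset.mem_insert.1 hw with h | h
      · rw [h]; exact hv
      · exact (mem_nb.1 h).1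
    have h3 : v ∉ nb G S v := fun h => (mem_nb.1 h).2.ne rfl
    have h4 := Finset.card_le_card h2
    rw [Finset.card_insert_of_notMem h3] at h4
    omega
  have hfin : HasK (4 + 2) Q S' := by
    apply mad4 V Q S'
    · omega
    · omega
  exact hK 6 hfin

end Pool.Agent.K6T
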