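import Pool.Agent.K6T.Bags

/-!
# K6T / Four7 : a 4-regular graph on 7 vertices has a `K_5` minor

PROOF.  Every vertex of `N` has exactly two non-neighbours in `N` (other than itself). Write `x ~ y` for adjacency in `G`.

CASE T: there are three different pairwise non-adjacent vertices `a, b, c ∈ N`. Then each of `a, b, c` is adjacent to all four others `w, x, y, z`. Each of
`w, x, y, z` is adjacent to `a, b, c` and hence to exactly one of the other three: renaming, `w ~ x` and `y ~ z`. `K_5` minor: the bags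
`{c}, {w}, {x}, {a, y}, {b, z}` (`c ~ w`, `c ~ x`, `w ~ x`, `y ~ c`, `a ~ w`, `a ~ x`, `z ~ c`, `b ~ w`, `b ~ x`, `a ~ z`; `a ~ y` and `b ~ z` make the pairs connected,
`conn_pair`).

CASE N: there is no such triple. Let `a ∈ N` with non-neighbours `b ≠ c`; `b ~ c`. Let `d ≠ a` be the other non-neighbour of `b` and `e ≠ a` the other
non-neighbour of `c` (`d ≠ c`, `e ≠ b` as `b ~ c`). If `d = e` then `a, b, c, d` have all their non-neighbours among `{a,b,c,d}`, so the three other vertices are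
adjacent to `a, b, c, d` and (having 4 neighbours) pairwise non-adjacent: excluded. So `a, b, c, d, e` are different; let `f, g` be the two other vertices.
`d ~ e`: otherwise `a, b, c, d, e` have all their non-neighbours among themselves and `f` has at most one non-neighbour (`g`). So the second
non-neighbour of `d` (other than `b`; it is not `a`, `c`, `e`) is `f` or `g`, say `f`. The second non-neighbour of `e` (other than `c`) is `g` (if it were `f`, then `g` would have no
non-neighbour). Then `f ≁ g`. So the complement is the 7-cycle `a b d f g e c`; all other pairs are adjacent. Bags: `{a, f}, {b, e}, {d}, {g}, {c}`: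
`a ~ f`, `b ~ e`, `d ~ g`, `d ~ c`, `g ~ c`, `a ~ d`, `a ~ g`, `f ~ c`, `e ~ d`, `b ~ g`, `b ~ c`, `a ~ e`.
(For a formal proof it may be easier to choose an equivalence `Fin 7 ≃ N` or to work with the function sending a vertex to its two non-neighbours.)
-/

set_option autoImplicit false

namespace Pool.Agent.K6T

open Finset
open Classical

variable {V : Type*}

private theorem disj_pair {a b : V} {s : Finset V} (h1 : a ∉ s) (h2 : b ∉ s) :
    Disjoint ({a, b} : Finset V) s := by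
  rw [Finset.disjoint_left]
  intro x hx
  rcases Finset.mem_insert.1 hx with rfl | hx
  · exact h1
  · rw [Finset.mem_singleton] at hx
    rw [hx]
    exact h2

/-- five bags: three single vertices and two edges -/
private theorem bags5 {G : SimpleGraph V} {N : Finset V} {s t r p q u v : V}
    (hs : s ∈ N) (ht : t ∈ N) (hr : r ∈ N) (hp : p ∈ N) (hq : q ∈ N) (hu : u ∈ N) (hv : v ∈ N)
    (d1 : p ≠ s) (d2 : q ≠ s) (d3 : u ≠ s) (d4 : v ≠ s)
    (d5 : p ≠ t) (d6 : q ≠ t) (d7 : u ≠ t) (d8 : v ≠ t)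
    (d9 : p ≠ r) (d10 : q ≠ r) (d11 : u ≠ r) (d12 : v ≠ r)
    (d13 : p ≠ u) (d14 : p ≠ v) (d15 : q ≠ u) (d16 : q ≠ v)
    (a1 : G.Adj s t) (a2 : G.Adj s r) (a3 : G.Adj t r) (a4 : G.Adj p q) (a5 : G.Adj u v)
    (b1 : ∃ x ∈ ({p, q} : Finset V), G.Adj s x) (b2 : ∃ x ∈ ({u, v} : Finset V), G.Adj s x)
    (b3 : ∃ x ∈ ({p, q} : Finset V), G.Adj t x) (b4 : ∃ x ∈ ({u, v} : Finset V), G.Adj t x)
    (b5 : ∃ x ∈ ({p, q} : Finset V), G.Adj r x) (b6 : ∃ x ∈ ({u, v} : Finset V), G.Adj r x)
    (b7 : ∃ x ∈ ({p, q} : Finset V), ∃ y ∈ ({u, v} : Finset V), G.Adj x y) :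
    HasK 5 G N := by
  have key : ∀ (B : Fin 5 → Finset V), (∀ i, B i ⊆ N) → (∀ i, Conn G (B i)) →
      (∀ i j, i < j → Disjoint (B i) (B j) ∧ ∃ x ∈ B i, ∃ y ∈ B j, G.Adj x y) → HasK 5 G N := by
    intro B h1 h2 h3
    refine ⟨B, h1, h2, fun i j hij => ?_, fun i j hij => ?_⟩
    · rcases lt_or_gt_of_ne hij with h | h
      · exact (h3 i j h).1
      · exact (h3 j i h).1.symm
    · rcases lt_or_gt_of_ne hij with h | h
      · exact (h3 i j h).2
      · obtain ⟨x, hx, y, hy, hxy⟩ := (h3 j i h).2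
        exact ⟨y, hy, x, hx, hxy.symm⟩
  have hst := a1.ne
  have hsr := a2.ne
  have htr := a3.ne
  have e1 : ∀ {y : V} {S : Finset V}, (∃ x ∈ S, G.Adj y x) →
      ∃ x ∈ ({y} : Finset V), ∃ z ∈ S, G.Adj x z := by
    rintro y S ⟨x, hx, hxy⟩
    exact ⟨y, Finset.mem_singleton_self y, x, hx, hxy⟩
  have e2 : ∀ {y z : V}, G.Adj y z → ∃ x ∈ ({y} : Finset V), ∃ w ∈ ({z} : Finset V),
      G.Adj x w := by
    intro y z hyz
    exact ⟨y, Finset.mem_singleton_self y, z, Finset.mem_singleton_self z, hyz⟩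
  have e3 : ∀ {y z w : V}, z ≠ y → w ≠ y → Disjoint ({y} : Finset V) {z, w} := by
    intro y z w h1 h2
    rw [Finset.disjoint_singleton_left, Finset.mem_insert, Finset.mem_singleton]
    rintro (h | h)
    · exact h1 h.symm
    · exact h2 h.symm
  have hpp : Disjoint ({p, q} : Finset V) {u, v} := by
    refine disj_pair ?_ ?_
    · rw [Finset.mem_insert, Finset.mem_singleton]
      rintro (h | h)
      · exact d13 h
      · exact d14 h
    · rw [Finset.mem_insert, Finset.mem_singleton]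
      rintro (h | h)
      · exact d15 h
      · exact d16 h
  refine key ![{s}, {t}, {r}, {p, q}, {u, v}] ?_ ?_ ?_
  · intro i
    fin_cases i
    · simpa using hs
    · simpa using ht
    · simpa using hr
    · change ({p, q} : Finset V) ⊆ N
      rw [Finset.insert_subset_iff, Finset.singleton_subset_iff]
      exact ⟨hp, hq⟩
    · change ({u, v} : Finset V) ⊆ N
      rw [Finset.insert_subset_iff, Finset.singleton_subset_iff]
      exact ⟨hu, hv⟩
  · intro i
    fin_cases i
    · exact conn_singleton G s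
    · exact conn_singleton G t
    · exact conn_singleton G r
    · exact conn_pair a4
    · exact conn_pair a5
  · intro i j hij
    fin_cases i <;> fin_cases j <;> first
      | exact absurd hij (by decide)
      | skip
    · exact ⟨Finset.disjoint_singleton.2 hst, e2 a1⟩
    · exact ⟨Finset.disjoint_singleton.2 hsr, e2 a2⟩
    · exact ⟨e3 d1 d2, e1 b1⟩
    · exact ⟨e3 d3 d4, e1 b2⟩
    · exact ⟨Finset.disjoint_singleton.2 htr, e2 a3⟩
    · exact ⟨e3 d5 d6, e1 b3⟩
    · exact ⟨e3 d7 d8, e1 b4⟩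
    · exact ⟨e3 d9 d10, e1 b5⟩
    · exact ⟨e3 d11 d12, e1 b6⟩
    · exact ⟨hpp, b7⟩

private theorem inl {G : SimpleGraph V} {x p q : V} (h : G.Adj x p) :
    ∃ y ∈ ({p, q} : Finset V), G.Adj x y := ⟨p, by simp, h⟩

private theorem inr {G : SimpleGraph V} {x p q : V} (h : G.Adj x q) :
    ∃ y ∈ ({p, q} : Finset V), G.Adj x y := ⟨q, by simp, h⟩

/-- there is another vertex outside a short list -/
private theorem pick {N : Finset V} (hN : N.card = 7) (l : List V) (hl : l.length < 7) :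
    ∃ u ∈ N, u ∉ l := by
  by_contra hcon
  push Not at hcon
  have h1 : N ⊆ l.toFinset := fun u hu => List.mem_toFinset.2 (hcon u hu)
  have h2 := Finset.card_le_card h1
  have h3 := l.toFinset_card_le
  omega

/-- at most seven vertices -/
private theorem no8 {N : Finset V} (hN : N.card = 7) (l : List V) (hl : l.Nodup)
    (hlN : ∀ x ∈ l, x ∈ N) : l.length ≤ 7 := by
  have h1 : l.toFinset ⊆ N := fun u hu => hlN u (List.mem_toFinset.1 hu)
  have h2 := Finset.card_le_card h1
  rw [List.toFinset_card_of_nodup hl] at h2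
  omega

/-- at most two non-neighbours -/
private theorem H3 {G : SimpleGraph V} {N : Finset V} (hN : N.card = 7)
    (h : ∀ w ∈ N, (nb G N w).card = 4) {w x y z : V} (hw : w ∈ N) (hx : x ∈ N) (hy : y ∈ N)
    (hz : z ∈ N) (xw : x ≠ w) (yw : y ≠ w) (zw : z ≠ w) (xy : x ≠ y) (xz : x ≠ z) (yz : y ≠ z)
    (nx : ¬ G.Adj w x) (ny : ¬ G.Adj w y) : G.Adj w z := by
  by_contra nz
  have h1 : nb G N w ⊆ N \ {w, x, y, z} := by
    intro v hv
    rw [mem_nb] at hv
    rw [Finset.mem_sdiff]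
    refine ⟨hv.1, fun h2 => ?_⟩
    simp only [Finset.mem_insert, Finset.mem_singleton] at h2
    rcases h2 with rfl | rfl | rfl | rfl
    · exact G.loopless.irrefl _ hv.2
    · exact nx hv.2
    · exact ny hv.2
    · exact nz hv.2
  have h2 : ({w, x, y, z} : Finset V) ⊆ N := by
    intro v hv
    simp only [Finset.mem_insert, Finset.mem_singleton] at hv
    rcases hv with rfl | rfl | rfl | rfl <;> assumption
  have h3 : ({w, x, y, z} : Finset V).card = 4 := by
    rw [Finset.card_insert_of_notMem, Finset.card_insert_of_notMem, Finset.card_insert_of_notMem,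
      Finset.card_singleton]
    · simpa using yz
    · simpa using ⟨xy, xz⟩
    · simpa using ⟨xw.symm, yw.symm, zw.symm⟩
  have h4 := Finset.card_le_card h1
  rw [Finset.card_sdiff_of_subset h2, h3, hN, h w hw] at h4
  omega

/-- at least two non-neighbours -/
private theorem H2 {G : SimpleGraph V} {N : Finset V} (hN : N.card = 7)
    (h : ∀ w ∈ N, (nb G N w).card = 4) {w : V} (hw : w ∈ N) (x : V) :
    ∃ y ∈ N, y ≠ w ∧ y ≠ x ∧ ¬ G.Adj w y := by
  by_contra hcon
  push Not at hcon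
  have h1 : (N.erase w).erase x ⊆ nb G N w := by
    intro v hv
    rw [Finset.mem_erase, Finset.mem_erase] at hv
    rw [mem_nb]
    exact ⟨hv.2.2, hcon v hv.2.2 hv.2.1 hv.1⟩
  have h2 := Finset.card_le_card h1
  rw [h w hw] at h2
  have h3 := Finset.pred_card_le_card_erase (s := N.erase w) (a := x)
  rw [Finset.card_erase_of_mem hw, hN] at h3
  omega

private theorem caseT {G : SimpleGraph V} {N : Finset V} (hN : N.card = 7)
    (h : ∀ w ∈ N, (nb G N w).card = 4) {a b c : V} (ha : a ∈ N) (hb : b ∈ N) (hc : c ∈ N)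
    (ab : a ≠ b) (ac : a ≠ c) (bc : b ≠ c) (nab : ¬ G.Adj a b) (nac : ¬ G.Adj a c)
    (nbc : ¬ G.Adj b c) : HasK 5 G N := by
  have nba : ¬ G.Adj b a := fun h => nab h.symm
  have nca : ¬ G.Adj c a := fun h => nac h.symm
  have ncb : ¬ G.Adj c b := fun h => nbc h.symm
  have fa : ∀ x ∈ N, x ≠ a → x ≠ b → x ≠ c → G.Adj a x := fun x hx h1 h2 h3 =>
    H3 hN h ha hb hc hx ab.symm ac.symm h1 bc h2.symm h3.symm nab nac
  have fb : ∀ x ∈ N, x ≠ a → x ≠ b → x ≠ c → G.Adj b x := fun x hx h1 h2 h3 =>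
    H3 hN h hb ha hc hx ab bc.symm h2 ac h1.symm h3.symm nba nbc
  have fc : ∀ x ∈ N, x ≠ a → x ≠ b → x ≠ c → G.Adj c x := fun x hx h1 h2 h3 =>
    H3 hN h hc ha hb hx ac bc h3 ab h1.symm h2.symm nca ncb
  obtain ⟨w, hw, hw'⟩ := pick hN [a, b, c] (by simp)
  obtain ⟨x, hx, hx'⟩ := pick hN [a, b, c, w] (by simp)
  obtain ⟨y, hy, hy'⟩ := pick hN [a, b, c, w, x] (by simp)
  obtain ⟨z, hz, hz'⟩ := pick hN [a, b, c, w, x, y] (by simp)
  simp only [List.mem_cons, List.not_mem_nil, or_false, not_or] at hw' hx' hy' hz'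
  obtain ⟨wa, wb, wc⟩ := hw'
  obtain ⟨xa, xb, xc, xw⟩ := hx'
  obtain ⟨ya, yb, yc, yw, yx⟩ := hy'
  obtain ⟨za, zb, zc, zw, zx, zy⟩ := hz'
  -- the bags for an edge `w x` outside `a, b, c` and the other two vertices
  have main : ∀ w x y z : V, w ∈ N → x ∈ N → y ∈ N → z ∈ N → w ≠ a → w ≠ b → w ≠ c →
      x ≠ a → x ≠ b → x ≠ c → y ≠ a → y ≠ b → y ≠ c → z ≠ a → z ≠ b → z ≠ c →
      x ≠ w → y ≠ w → z ≠ w → y ≠ x → z ≠ x → z ≠ y → G.Adj w x → HasK 5 G N := by
    intro w x y z hw hx hy hz wa wb wc xa xb xc ya yb yc za zb zc xw yw zw yx zx zy hwx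
    refine bags5 (s := c) (t := w) (r := x) (p := a) (q := y) (u := b) (v := z)
      hc hw hx ha hy hb hz ac yc bc zc wa.symm yw wb.symm zw xa.symm yx xb.symm zx ab za.symm yb
      zy.symm (fc w hw wa wb wc) (fc x hx xa xb xc) hwx (fa y hy ya yb yc) (fb z hz za zb zc)
      (inr (fc y hy ya yb yc)) (inr (fc z hz za zb zc)) (inl (fa w hw wa wb wc).symm)
      (inl (fb w hw wa wb wc).symm) (inl (fa x hx xa xb xc).symm)
      (inl (fb x hx xa xb xc).symm) ⟨a, by simp, z, by simp, fa z hz za zb zc⟩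
  by_cases h1 : G.Adj w x
  · exact main w x y z hw hx hy hz wa wb wc xa xb xc ya yb yc za zb zc xw yw zw yx zx zy h1
  · by_cases h2 : G.Adj w y
    · exact main w y x z hw hy hx hz wa wb wc ya yb yc xa xb xc za zb zc yw xw zw (Ne.symm yx)
        zy zx h2
    · have h3 : G.Adj w z := H3 hN h hw hx hy hz xw yw zw (Ne.symm yx) (Ne.symm zx)
        (Ne.symm zy) h1 h2
      exact main w z y x hw hz hy hx wa wb wc za zb zc ya yb yc xa xb xc zw yw xw (Ne.symm zy)
        (Ne.symm zx) (Ne.symm yx) h3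

theorem four7 (G : SimpleGraph V) (N : Finset V) (hN : N.card = 7)
    (h : ∀ w ∈ N, (nb G N w).card = 4) : HasK 5 G N := by
  obtain ⟨a, ha, -⟩ := pick hN [] (by simp)
  obtain ⟨b, hb, ba, -, nab⟩ := H2 hN h ha a
  obtain ⟨c, hc, ca, cb, nac⟩ := H2 hN h ha b
  by_cases hbc : G.Adj b c
  swap
  · exact caseT hN h ha hb hc ba.symm ca.symm cb.symm nab nac hbc
  obtain ⟨d, hd, db, da, nbd⟩ := H2 hN h hb a
  obtain ⟨e, he, ec, ea, nce⟩ := H2 hN h hc a
  have dc : d ≠ c := fun h1 => nbd (h1 ▸ hbc)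
  have eb : e ≠ b := fun h1 => nce (h1 ▸ hbc.symm)
  have nba : ¬ G.Adj b a := fun h1 => nab h1.symm
  have nca : ¬ G.Adj c a := fun h1 => nac h1.symm
  have ndb : ¬ G.Adj d b := fun h1 => nbd h1.symm
  have nec : ¬ G.Adj e c := fun h1 => nce h1.symm
  have fa : ∀ x ∈ N, x ≠ a → x ≠ b → x ≠ c → G.Adj a x := fun x hx h1 h2 h3 =>
    H3 hN h ha hb hc hx ba ca h1 cb.symm h2.symm h3.symm nab nac
  have fb : ∀ x ∈ N, x ≠ b → x ≠ a → x ≠ d → G.Adj b x := fun x hx h1 h2 h3 =>
    H3 hN h hb ha hd hx ba.symm db h1 da.symm h2.symm h3.symm nba nbd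
  have fc : ∀ x ∈ N, x ≠ c → x ≠ a → x ≠ e → G.Adj c x := fun x hx h1 h2 h3 =>
    H3 hN h hc ha he hx ca.symm ec h1 ea.symm h2.symm h3.symm nca nce
  by_cases hde : d = e
  · -- `a, b, c, d` are a 4-cycle of the complement
    subst hde
    have fd : ∀ x ∈ N, x ≠ d → x ≠ b → x ≠ c → G.Adj d x := fun x hx h1 h2 h3 =>
      H3 hN h hd hb hc hx db.symm dc.symm h1 cb.symm h2.symm h3.symm ndb nec
    obtain ⟨f, hf, hf'⟩ := pick hN [a, b, c, d] (by simp)
    simp only [List.mem_cons, List.not_mem_nil, or_false, not_or] at hf'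
    obtain ⟨fa', fb', fc', fd'⟩ := hf'
    -- non-neighbours of vertices outside `a, b, c, d` are outside
    have hout : ∀ x y, x ∈ N → x ≠ a → x ≠ b → x ≠ c → x ≠ d → ¬ G.Adj x y →
        y ≠ a ∧ y ≠ b ∧ y ≠ c ∧ y ≠ d := by
      intro x y hx h1 h2 h3 h4 hxy
      refine ⟨?_, ?_, ?_, ?_⟩
      · rintro rfl
        exact hxy (fa x hx h1 h2 h3).symm
      · rintro rfl
        exact hxy (fb x hx h2 h1 h4).symm
      · rintro rfl
        exact hxy (fc x hx h3 h1 h4).symm
      · rintro rfl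
        exact hxy (fd x hx h4 h2 h3).symm
    obtain ⟨g, hg, gf, -, nfg⟩ := H2 hN h hf a
    obtain ⟨k, hk, kf, kg, nfk⟩ := H2 hN h hf g
    obtain ⟨g1, g2, g3, g4⟩ := hout f g hf fa' fb' fc' fd' nfg
    obtain ⟨k1, k2, k3, k4⟩ := hout f k hf fa' fb' fc' fd' nfk
    obtain ⟨m, hm, mg, mf, ngm⟩ := H2 hN h hg f
    obtain ⟨m1, m2, m3, m4⟩ := hout g m hg g1 g2 g3 g4 ngm
    have hmk : m = k := by
      by_contra hne
      have h8 := no8 hN [a, b, c, d, f, g, k, m] (by
        simp only [List.nodup_cons, List.mem_cons, List.not_mem_nil, or_false, not_or,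
          List.nodup_nil, not_false_eq_true, and_true]
        refine ⟨⟨?_, ?_, ?_, ?_, ?_, ?_, ?_⟩, ⟨?_, ?_, ?_, ?_, ?_, ?_⟩, ⟨?_, ?_, ?_, ?_, ?_⟩,
          ⟨?_, ?_, ?_, ?_⟩, ⟨?_, ?_, ?_⟩, ⟨?_, ?_⟩, ?_⟩ <;>
          first | assumption | (apply Ne.symm; assumption)) (by
        intro x hx
        simp only [List.mem_cons, List.not_mem_nil, or_false] at hx
        rcases hx with rfl | rfl | rfl | rfl | rfl | rfl | rfl | rfl <;> assumption)
      simp at h8
    rw [hmk] at ngm
    exact caseT hN h hf hg hk gf.symm kf.symm kg.symm nfg nfk ngm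
  · obtain ⟨f, hf, fd', fb', ndf⟩ := H2 hN h hd b
    have had : G.Adj a d := fa d hd da db dc
    have hae : G.Adj a e := fa e he ea eb ec
    have hcd : G.Adj c d := fc d hd dc da hde
    have hbe : G.Adj b e := fb e he eb ea (Ne.symm hde)
    have fa' : f ≠ a := fun h1 => ndf (h1 ▸ had.symm)
    have fc' : f ≠ c := fun h1 => ndf (h1 ▸ hcd.symm)
    have fd : ∀ x ∈ N, x ≠ d → x ≠ b → x ≠ f → G.Adj d x := fun x hx h1 h2 h3 =>
      H3 hN h hd hb hf hx db.symm fd' h1 (Ne.symm fb') h2.symm h3.symm ndb ndf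
    by_cases hfe : f = e
    · exfalso
      rw [hfe] at ndf fd
      have ned : ¬ G.Adj e d := fun h1 => ndf h1.symm
      have fe : ∀ x ∈ N, x ≠ e → x ≠ c → x ≠ d → G.Adj e x := fun x hx h1 h2 h3 =>
        H3 hN h he hc hd hx (Ne.symm ec) hde h1 (Ne.symm dc) h2.symm h3.symm nec ned
      obtain ⟨u, hu, hu'⟩ := pick hN [a, b, c, d, e] (by simp)
      simp only [List.mem_cons, List.not_mem_nil, or_false, not_or] at hu'
      obtain ⟨u1, u2, u3, u4, u5⟩ := hu'
      have hout : ∀ y, ¬ G.Adj u y → y ≠ a ∧ y ≠ b ∧ y ≠ c ∧ y ≠ d ∧ y ≠ e := by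
        intro y hy
        refine ⟨?_, ?_, ?_, ?_, ?_⟩
        · rintro rfl
          exact hy (fa u hu u1 u2 u3).symm
        · rintro rfl
          exact hy (fb u hu u2 u1 u4).symm
        · rintro rfl
          exact hy (fc u hu u3 u1 u5).symm
        · rintro rfl
          exact hy (fd u hu u4 u2 u5).symm
        · rintro rfl
          exact hy (fe u hu u5 u3 u4).symm
      obtain ⟨y, hy, yu, -, nuy⟩ := H2 hN h hu a
      obtain ⟨z, hz, zu, zy, nuz⟩ := H2 hN h hu y
      obtain ⟨y1, y2, y3, y4, y5⟩ := hout y nuy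
      obtain ⟨z1, z2, z3, z4, z5⟩ := hout z nuz
      have h8 := no8 hN [a, b, c, d, e, u, y, z] (by
        simp only [List.nodup_cons, List.mem_cons, List.not_mem_nil, or_false, not_or,
          List.nodup_nil, not_false_eq_true, and_true]
        refine ⟨⟨?_, ?_, ?_, ?_, ?_, ?_, ?_⟩, ⟨?_, ?_, ?_, ?_, ?_, ?_⟩, ⟨?_, ?_, ?_, ?_, ?_⟩,
          ⟨?_, ?_, ?_, ?_⟩, ⟨?_, ?_, ?_⟩, ⟨?_, ?_⟩, ?_⟩ <;>
          first | assumption | (apply Ne.symm; assumption)) (by
        intro x hx
        simp only [List.mem_cons, List.not_mem_nil, or_false] at hx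
        rcases hx with rfl | rfl | rfl | rfl | rfl | rfl | rfl | rfl <;> assumption)
      simp at h8
    · have hdea : G.Adj d e := fd e he (Ne.symm hde) eb (Ne.symm hfe)
      obtain ⟨g, hg, ge, gc, neg⟩ := H2 hN h he c
      have ga : g ≠ a := fun h1 => neg (h1 ▸ hae.symm)
      have gb : g ≠ b := fun h1 => neg (h1 ▸ hbe.symm)
      have gd : g ≠ d := fun h1 => neg (h1 ▸ hdea.symm)
      have fe : ∀ x ∈ N, x ≠ e → x ≠ c → x ≠ g → G.Adj e x := fun x hx h1 h2 h3 =>
        H3 hN h he hc hg hx (Ne.symm ec) ge h1 (Ne.symm gc) h2.symm h3.symm nec neg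
      by_cases hgf : g = f
      · exfalso
        rw [hgf] at neg fe
        have nfd : ¬ G.Adj f d := fun h1 => ndf h1.symm
        have nfe : ¬ G.Adj f e := fun h1 => neg h1.symm
        have ff : ∀ x ∈ N, x ≠ f → x ≠ d → x ≠ e → G.Adj f x := fun x hx h1 h2 h3 =>
          H3 hN h hf hd he hx (Ne.symm fd') (Ne.symm hfe) h1 hde h2.symm h3.symm nfd nfe
        obtain ⟨u, hu, hu'⟩ := pick hN [a, b, c, d, e, f] (by simp)
        simp only [List.mem_cons, List.not_mem_nil, or_false, not_or] at hu'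
        obtain ⟨u1, u2, u3, u4, u5, u6⟩ := hu'
        obtain ⟨y, hy, yu, -, nuy⟩ := H2 hN h hu a
        have y1 : y ≠ a := by
          rintro rfl
          exact nuy (fa u hu u1 u2 u3).symm
        have y2 : y ≠ b := by
          rintro rfl
          exact nuy (fb u hu u2 u1 u4).symm
        have y3 : y ≠ c := by
          rintro rfl
          exact nuy (fc u hu u3 u1 u5).symm
        have y4 : y ≠ d := by
          rintro rfl
          exact nuy (fd u hu u4 u2 u6).symm
        have y5 : y ≠ e := by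
          rintro rfl
          exact nuy (fe u hu u5 u3 u6).symm
        have y6 : y ≠ f := by
          rintro rfl
          exact nuy (ff u hu u6 u4 u5).symm
        have h8 := no8 hN [a, b, c, d, e, f, u, y] (by
          simp only [List.nodup_cons, List.mem_cons, List.not_mem_nil, or_false, not_or,
            List.nodup_nil, not_false_eq_true, and_true]
          refine ⟨⟨?_, ?_, ?_, ?_, ?_, ?_, ?_⟩, ⟨?_, ?_, ?_, ?_, ?_, ?_⟩, ⟨?_, ?_, ?_, ?_, ?_⟩,
            ⟨?_, ?_, ?_, ?_⟩, ⟨?_, ?_, ?_⟩, ⟨?_, ?_⟩, ?_⟩ <;>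
          first | assumption | (apply Ne.symm; assumption)) (by
          intro x hx
          simp only [List.mem_cons, List.not_mem_nil, or_false] at hx
          rcases hx with rfl | rfl | rfl | rfl | rfl | rfl | rfl | rfl <;> assumption)
        simp at h8
      · -- the complement is a 7-cycle
        have haf : G.Adj a f := fa f hf fa' fb' fc'
        have hag : G.Adj a g := fa g hg ga gb gc
        have hbg : G.Adj b g := fb g hg gb ga gd
        have hcg : G.Adj c g := fc g hg gc ga ge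
        have hcf : G.Adj c f := fc f hf fc' fa' hfe
        have hdg : G.Adj d g := fd g hg gd gb hgf
        exact bags5 (s := d) (t := g) (r := c) (p := a) (q := f) (u := b) (v := e)
          hd hg hc ha hf hb he (Ne.symm da) fd' (Ne.symm db) (Ne.symm hde) (Ne.symm ga)
          (Ne.symm hgf) (Ne.symm gb) (Ne.symm ge) (Ne.symm ca) fc' (Ne.symm cb) ec (Ne.symm ba)
          (Ne.symm ea) fb' hfe hdg hcd.symm hcg.symm haf hbe (inl had.symm) (inr hdea)
          (inl hag.symm) (inl hbg.symm) (inr hcf) (inl hbc.symm)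
          ⟨a, by simp, e, by simp, hae⟩

end Pool.Agent.K6T
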