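import Pool.Agent.K6T.Nbhd

/-!
# K6T / Loc : neighbourhoods without independent triple; components containing a given vertex

`alpha2`: let `|N| ≥ 7` and let `N` have no three pairwise non-adjacent vertices. Then some `N \ {a}`, `a ∈ N`, has a `K_4` minor. We may
assume `|N| = 7`. If some `x ∈ N` has at most `2` neighbours in `N`, its at least `4` non-neighbours form a clique. If `x` has
exactly `3` neighbours: if they form a clique we have a `K_4` missing a non-neighbour of `x`; otherwise two of them, `y`, `y'`, are not adjacent, every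
one of the three non-neighbours of `x` (a triangle) is adjacent to `y` or to `y'`, and `{y, x, y'}` and the triangle form a `K_4` minor
missing the third neighbour of `x`. If all degrees are at least `4`, delete a vertex of smallest degree and use `mad2`.
-/

set_option autoImplicit false

namespace Pool.Agent.K6T

open Finset
open Classical

variable {V : Type*}

theorem exists_comp_mem (G : SimpleGraph V) (R : Finset V) {v : V} (hv : v ∈ R) :
    ∃ C : Finset V, C ⊆ R ∧ v ∈ C ∧ Conn G C ∧ ∀ x ∈ C, ∀ y ∈ R, G.Adj x y → y ∈ C := by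
  obtain ⟨C, hC, hmax⟩ := Finset.exists_max_image
    (R.powerset.filter (fun C => v ∈ C ∧ Conn G C)) Finset.card
    ⟨{v}, by
      rw [mem_filter, mem_powerset, singleton_subset_iff]
      exact ⟨hv, mem_singleton_self v, conn_singleton G v⟩⟩
  rw [mem_filter, mem_powerset] at hC
  obtain ⟨hCR, hvC, hC⟩ := hC
  refine ⟨C, hCR, hvC, hC, fun x hx y hy hxy => ?_⟩
  by_contra hyC
  have h1 := hmax (insert y C) (by
    rw [mem_filter, mem_powerset]
    exact ⟨insert_subset hy hCR, mem_insert_of_mem hvC, conn_insert hC hx hxy.symm⟩)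
  rw [card_insert_of_notMem hyC] at h1
  omega

theorem conn_closed_subset {G : SimpleGraph V} {C R D : Finset V}
    (hcl : ∀ x ∈ C, ∀ y ∈ R, G.Adj x y → y ∈ C) (hD : Conn G D) (hDR : D ⊆ R) {x : V}
    (hx : x ∈ D) (hxC : x ∈ C) : D ⊆ C := by
  have h1 : D.filter (fun z => z ∈ C) = D := by
    by_contra hne
    obtain ⟨u, hu, z, hz, hzA, huz⟩ := hD.2 (D.filter (fun z => z ∈ C)) (filter_subset _ _)
      ⟨x, mem_filter.2 ⟨hx, hxC⟩⟩ hne
    exact hzA (mem_filter.2 ⟨hz, hcl u (mem_filter.1 hu).2 z (hDR hz) huz⟩)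
  intro z hz
  rw [← h1] at hz
  exact (mem_filter.1 hz).2

/-- the non-neighbours of a vertex form a clique -/
private theorem nonnb_clique {G : SimpleGraph V} {N : Finset V}
    (hα : ∀ x ∈ N, ∀ y ∈ N, ∀ z ∈ N, x ≠ y → x ≠ z → y ≠ z → G.Adj x y ∨ G.Adj x z ∨ G.Adj y z)
    {x : V} (hx : x ∈ N) : ∀ y ∈ (N.erase x) \ nb G N x, ∀ z ∈ (N.erase x) \ nb G N x, y ≠ z →
      G.Adj y z := by
  intro y hy z hz hyz
  rw [mem_sdiff, mem_erase, mem_nb] at hy hz
  have hxy : ¬ G.Adj x y := fun h => hy.2 ⟨hy.1.2, h⟩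
  have hxz : ¬ G.Adj x z := fun h => hz.2 ⟨hz.1.2, h⟩
  rcases hα x hx y hy.1.2 z hz.1.2 hy.1.1.symm hz.1.1.symm hyz with h | h | h
  · exact absurd h hxy
  · exact absurd h hxz
  · exact h

private theorem card_nonnb {G : SimpleGraph V} {N : Finset V} {x : V} (hx : x ∈ N) :
    ((N.erase x) \ nb G N x).card + (nb G N x).card + 1 = N.card := by
  have h1 : nb G N x ⊆ N.erase x := by
    intro z hz
    rw [mem_nb] at hz
    exact mem_erase.2 ⟨fun h => hz.2.ne h.symm, hz.1⟩
  have h2 := card_sdiff_add_card_eq_card h1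
  rw [card_erase_of_mem hx] at h2
  have h3 : 1 ≤ N.card := card_pos.2 ⟨x, hx⟩
  omega

/-- a clique of four vertices -/
private theorem hasK_four {G : SimpleGraph V} {W T : Finset V} (hW : 4 ≤ W.card) (hWT : W ⊆ T)
    (h : ∀ y ∈ W, ∀ z ∈ W, y ≠ z → G.Adj y z) : HasK 4 G T := by
  obtain ⟨W', hW', hc⟩ := exists_subset_card_eq hW
  have e : Fin 4 ≃ W' := (Fintype.equivFinOfCardEq (by simp [hc])).symm
  refine hasK_of_clique (fun i => ((e i : W') : V)) (fun i => hWT (hW' (e i).2)) fun i j hij => ?_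
  refine h _ (hW' (e i).2) _ (hW' (e j).2) fun h1 => hij ?_
  exact e.injective (Subtype.ext h1)

private theorem alpha2_seven (G : SimpleGraph V) (N : Finset V) (h7 : N.card = 7)
    (hα : ∀ x ∈ N, ∀ y ∈ N, ∀ z ∈ N, x ≠ y → x ≠ z → y ≠ z →
      G.Adj x y ∨ G.Adj x z ∨ G.Adj y z) : ∃ a ∈ N, HasK 4 G (N.erase a) := by
  obtain ⟨x, hx, hmin⟩ := Finset.exists_min_image N (fun z => (nb G N z).card)
    (card_pos.1 (by omega))
  have hcard := card_nonnb (G := G) hx
  have hcl := nonnb_clique hα hx
  rcases Nat.lt_or_ge (nb G N x).card 3 with h | h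
  · -- at most two neighbours
    exact ⟨x, hx, hasK_four (by omega) sdiff_subset hcl⟩
  rcases Nat.eq_or_lt_of_le h with h3 | h4
  · -- exactly three neighbours
    have hnbN : ∀ z ∈ nb G N x, z ∈ N ∧ G.Adj x z := fun z hz => mem_nb.1 hz
    set W := (N.erase x) \ nb G N x with hW
    have hWc : W.card = 3 := by omega
    have hWN : ∀ z ∈ W, z ∈ N ∧ z ≠ x ∧ ¬ G.Adj x z := by
      intro z hz
      rw [hW, mem_sdiff, mem_erase, mem_nb] at hz
      exact ⟨hz.1.2, hz.1.1, fun h => hz.2 ⟨hz.1.2, h⟩⟩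
    by_cases hY : ∀ y ∈ nb G N x, ∀ z ∈ nb G N x, y ≠ z → G.Adj y z
    · obtain ⟨w, hw⟩ := card_pos.1 (show 0 < W.card by omega)
      have hxn : x ∉ nb G N x := fun h => (mem_nb.1 h).2.ne rfl
      refine ⟨w, (hWN w hw).1, hasK_four (W := insert x (nb G N x)) ?_ ?_ ?_⟩
      · rw [card_insert_of_notMem hxn]; omega
      · intro z hz
        rcases mem_insert.1 hz with h | h
        · rw [h]
          exact mem_erase.2 ⟨(hWN w hw).2.1.symm, hx⟩
        · refine mem_erase.2 ⟨fun h5 => ?_, (hnbN z h).1⟩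
          exact (hWN w hw).2.2 (h5 ▸ (hnbN z h).2)
      · intro y hy z hz hyz
        rcases mem_insert.1 hy with h | h <;> rcases mem_insert.1 hz with h' | h'
        · exact absurd (h.trans h'.symm) hyz
        · rw [h]; exact (hnbN z h').2
        · rw [h']; exact (hnbN y h).2.symm
        · exact hY y h z h' hyz
    · push Not at hY
      obtain ⟨y, hy, y', hy', hyy, hnadj⟩ := hY
      -- the third neighbour
      have h5 : 0 < (((nb G N x).erase y).erase y').card := by
        rw [card_erase_of_mem (mem_erase.2 ⟨hyy.symm, hy'⟩), card_erase_of_mem hy]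
        omega
      obtain ⟨a, ha⟩ := card_pos.1 h5
      rw [mem_erase, mem_erase] at ha
      obtain ⟨hay', hay, haN⟩ := ha
      refine ⟨a, (hnbN a haN).1, ?_⟩
      have e : Fin 3 ≃ W := (Fintype.equivFinOfCardEq (by simp [hWc])).symm
      -- the cone over the triangle `W`
      have h3K : HasK 3 G W :=
        hasK_of_clique (fun i => ((e i : W) : V)) (fun i => (e i).2) fun i j hij =>
          hcl _ (e i).2 _ (e j).2 fun h1 => hij (e.injective (Subtype.ext h1))
      have hWdis : ∀ z ∈ W, z ∉ nb G N x := fun z hz h => (hWN z hz).2.2 (hnbN z h).2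
      have hax : a ≠ x := fun h => (hnbN a haN).2.ne h.symm
      have hBc : Conn G (insert y {x, y'}) :=
        conn_insert (conn_pair (hnbN y' hy').2) (mem_insert_self x _) (hnbN y hy).2.symm
      refine HasK.cone (Q := G) (fun z => {z}) (insert y {x, y'}) hBc ?_ ?_
        (fun z _ => conn_singleton G z) ?_ ?_ ?_ ?_ h3K
      · intro z hz
        rw [mem_insert, mem_insert, mem_singleton] at hz
        rcases hz with rfl | rfl | rfl
        · exact mem_erase.2 ⟨hay.symm, (hnbN _ hy).1⟩
        · exact mem_erase.2 ⟨hax.symm, hx⟩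
        · exact mem_erase.2 ⟨hay'.symm, (hnbN _ hy').1⟩
      · intro z hz
        rw [singleton_subset_iff]
        exact mem_erase.2 ⟨fun h => hWdis z hz (h ▸ haN), (hWN z hz).1⟩
      · intro z _ z' _ hzz
        exact disjoint_singleton.2 hzz
      · intro z _ z' _ hzz
        exact ⟨z, mem_singleton_self z, z', mem_singleton_self z', hzz⟩
      · intro z hz
        rw [disjoint_singleton_right]
        intro hz'
        rw [mem_insert, mem_insert, mem_singleton] at hz'
        rcases hz' with h | h | h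
        · exact hWdis z hz (h ▸ hy)
        · exact (hWN z hz).2.1 h
        · exact hWdis z hz (h ▸ hy')
      · intro z hz
        have hzy : y ≠ z := fun h => hWdis z hz (h ▸ hy)
        have hzy' : y' ≠ z := fun h => hWdis z hz (h ▸ hy')
        rcases hα y (hnbN y hy).1 y' (hnbN y' hy').1 z (hWN z hz).1 hyy hzy hzy' with h | h | h
        · exact absurd h hnadj
        · exact ⟨y, mem_insert_self y _, z, mem_singleton_self z, h⟩
        · exact ⟨y', by simp, z, mem_singleton_self z, h⟩
  · -- all degrees are at least four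
    refine ⟨x, hx, mad2 V G (N.erase x) ?_ ?_⟩
    · rw [card_erase_of_mem hx]; omega
    · have h5 := dc_erase G N hx
      have h6 : 7 * (nb G N x).card ≤ dc G N := by
        have h8 : ∑ _v ∈ N, (nb G N x).card ≤ ∑ v ∈ N, (nb G N v).card :=
          sum_le_sum fun v hv => hmin v hv
        rw [sum_const, smul_eq_mul, h7] at h8
        exact h8
      rw [card_erase_of_mem hx, h7]
      omega

theorem alpha2 (G : SimpleGraph V) (N : Finset V) (h7 : 7 ≤ N.card)
    (hα : ∀ x ∈ N, ∀ y ∈ N, ∀ z ∈ N, x ≠ y → x ≠ z → y ≠ z →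
      G.Adj x y ∨ G.Adj x z ∨ G.Adj y z) : ∃ a ∈ N, HasK 4 G (N.erase a) := by
  obtain ⟨N', hN', hc⟩ := exists_subset_card_eq h7
  obtain ⟨a, ha, hK⟩ := alpha2_seven G N' hc (fun x hx y hy z hz =>
    hα x (hN' hx) y (hN' hy) z (hN' hz))
  exact ⟨a, hN' ha, hK.mono le_rfl (erase_subset_erase a hN')⟩

end Pool.Agent.K6T
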