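import Pool.Agent.K6T.LocMain
import Pool.Agent.K6T.Conv

/-!
# K6T / LocConv : translation of the local conditions
-/

set_option autoImplicit false

namespace Pool.Agent.K6T

open Finset
open Classical

/-- a connected induced subgraph satisfies the cut property -/
theorem conn_of_induce {V : Type*} {G : SimpleGraph V} {B : Finset V}
    (h : (G.induce (B : Set V)).Connected) : Conn G B := by
  have hpre := h.preconnected
  obtain ⟨⟨x0, hx0⟩⟩ := h.nonempty
  refine ⟨⟨x0, by exact_mod_cast hx0⟩, fun A hA hne hAB => ?_⟩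
  by_contra hcon
  push Not at hcon
  obtain ⟨a, ha⟩ := hne
  have haB : a ∈ (B : Set V) := by exact_mod_cast hA ha
  apply hAB
  refine Subset.antisymm hA fun y hy => ?_
  have hyB : y ∈ (B : Set V) := by exact_mod_cast hy
  obtain ⟨p⟩ := hpre ⟨a, haB⟩ ⟨y, hyB⟩
  have key : ∀ (u v : (B : Set V)) (_ : (G.induce (B : Set V)).Walk u v), (u : V) ∈ A →
      (v : V) ∈ A := by
    intro u v p
    induction p with
    | nil => exact id
    | @cons u v' w' hadj _ ih =>
      intro hu
      apply ih
      by_contra hv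
      have hvB : (v' : V) ∈ B := by exact_mod_cast v'.2
      exact hcon (u : V) hu (v' : V) hvB hv (by simpa using hadj)
  exact key _ _ p ha

/-- a `K_p` minor given by sets -/
theorem hasK_of_sets {V : Type*} [Fintype V] {p : ℕ} {G : SimpleGraph V} {M : Finset V}
    (g : Fin p → Set V) (hM : ∀ i, g i ⊆ (M : Set V)) (hc : ∀ i, (G.induce (g i)).Connected)
    (hd : ∀ i j, i ≠ j → Disjoint (g i) (g j))
    (ha : ∀ i j, i ≠ j → ∃ u ∈ g i, ∃ v ∈ g j, G.Adj u v) : HasK p G M := by
  have hm : ∀ i z, z ∈ (g i).toFinset ↔ z ∈ g i := fun i z => Set.mem_toFinset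
  refine ⟨fun i => (g i).toFinset, fun i z hz => ?_, fun i => ?_, fun i j hij => ?_,
    fun i j hij => ?_⟩
  · exact_mod_cast hM i ((hm i z).1 hz)
  · apply conn_of_induce
    have h1 : (((g i).toFinset : Finset V) : Set V) = g i := Set.coe_toFinset (g i)
    rw [h1]
    exact hc i
  · rw [disjoint_left]
    intro z hz hz'
    exact (Set.disjoint_left.1 (hd i j hij)) ((hm i z).1 hz) ((hm j z).1 hz')
  · obtain ⟨u, hu, v, hv, huv⟩ := ha i j hij
    exact ⟨u, (hm i u).2 hu, v, (hm j v).2 hv, huv⟩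

theorem mem_erase_nb {V : Type*} [Fintype V] {G : SimpleGraph V} {w a z : V} (h : G.Adj w z)
    (hz : z ≠ a) : z ∈ (((nb G univ w).erase a : Finset V) : Set V) :=
  mem_coe.2 (mem_erase.2 ⟨hz, mem_nb.2 ⟨mem_univ _, h⟩⟩)

/-- a vertex of degree `d` in at least `2 d - 1` triangles -/
theorem hasK_of_tri {V : Type*} {G : SimpleGraph V} {N : Finset V} (h0 : 0 < N.card)
    (h : 4 * N.card ≤ dc G N + 2) : ∃ a ∈ N, HasK 4 G (N.erase a) := by
  obtain ⟨x, hx, hmin⟩ := Finset.exists_min_image N (fun z => (nb G N z).card) (card_pos.1 h0)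
  have h1 : N.card * (nb G N x).card ≤ dc G N := by
    unfold dc
    have := card_nsmul_le_sum N (fun z => (nb G N z).card) (nb G N x).card hmin
    simpa using this
  have h2 := dc_erase G N hx
  have h3 := dc_le G N
  have h4 : 5 ≤ N.card := by
    by_contra hlt
    push Not at hlt
    interval_cases N.card <;> omega
  refine ⟨x, hx, mad2 V G (N.erase x) ?_ ?_⟩
  · rw [card_erase_of_mem hx]; omega
  · rw [card_erase_of_mem hx]
    have h5 : 4 * N.card ≤ dc G N + 2 := h
    rcases Nat.lt_or_ge (nb G N x).card 4 with h6 | h6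
    · omega
    · obtain ⟨k, hk⟩ := Nat.exists_eq_add_of_le h6
      obtain ⟨m, hm⟩ := Nat.exists_eq_add_of_le h4
      rw [hk, hm] at h1
      have h7 : (5 + m) * (4 + k) = 20 + 4 * m + 5 * k + m * k := by ring
      rw [h7] at h1
      have h8 : k ≤ k * 5 + m * k := by nlinarith [Nat.zero_le (m * k)]
      rw [hk] at h2
      rw [hm]
      have h9 : 0 ≤ m * k := Nat.zero_le _
      omega

end Pool.Agent.K6T
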