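import Pool.Agent.K6T.Nbhd

/-!
# K6T / Mad6 : Mader's theorem for `K_6`

PROOF.  `mad_induct` with `q = 4`: `|S| ≥ 5`, induction hypothesis IH for smaller sets, `8 |S| + 2 = dc G S + 20`, all `|nb G S v| ≥ 5`, all
`|nb G (nb G S v) w| ≥ 4`. Suppose `¬ HasK 6 G S`.
1. `dc G S < 8 |S|`: there is `v ∈ S` with `|N| ≤ 7`, `N = nb G S v` (`exists_small`). `¬ HasK 5 G N` (`HasK.cone_nb`). So `nbhd` applies: `dc G N + 12 = 6 |N|` and (*): for
non-adjacent `a ≠ b` in `N`, `HasK 5 (G ⊔ edge a b) N`.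
2. `S ≠ insert v N`: otherwise `S.erase v = N` and `dc G S = dc G N + 2 |N| = 8 |N| - 12 = 8 |S| - 20` (`dc_erase`), but `dc G S = 8 |S| - 18`. So `R = S \ insert v N` is
nonempty; take `C` from `exists_comp`, and `A = {a ∈ N | ∃ c ∈ C, G.Adj a c}`.
3. `A` is a clique: if `a ≠ a'` in `A` are not adjacent, then (*) and `HasK.cone` with `Q = G ⊔ edge a a'`, `W = {v}`, `F z = if z = a then insert a C else {z}`
give `HasK 6 G S`. (`Conn G (insert a C)` by `conn_insert`; `C ∩ N = ∅`, `v ∉ C`; a `Q`-edge is a `G`-edge (use `z ∈ F z`) or the pair `a, a'`, and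
then `a'` has a neighbour in `C ⊆ F a`.)
4. `X = C ∪ A`, `Y = S \ C`. `X ∪ Y = S`, `X ∩ Y = A` (`A ⊆ N ⊆ Y`). There are no edges between `C = X \ Y` and `Y \ X`: a neighbour `y ∈ S` of `x ∈ C` which is not in `C` is not in
`R`, so `y = v` (impossible, then `x ∈ N`) or `y ∈ N`, and then `y ∈ A`. So `dc G S + dc G A = dc G X + dc G Y` (`dc_sep`), `dc G A + |A| = |A| |A|`
(`dc_clique`), `|X| + |Y| = |S| + |A|` (`Finset.card_union_add_card_inter`).
5. `|X| < |S|` (`v ∉ X`), `|X| ≥ 5` (take `c ∈ C`; `nb G S c ⊆ X`), `¬ HasK 6 G X` (`HasK.mono`), so by IH `dc G X + 20 < 8 |X| + 2`, by `dc_even`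
`dc G X + 20 ≤ 8 |X|`. The same for `Y`: `|Y| < |S|` (`C` is nonempty), `|Y| ≥ 5` (`N ⊆ Y`).
6. `dc G S ≤ 8 |X| + 8 |Y| - 40 - |A|² + |A| = 8 |S| - 40 + 9 |A| - |A|² ≤ 8 |S| - 20`, because `(|A| - 4) (|A| - 5) ≥ 0`. But `dc G S = 8 |S| - 18`.
-/

set_option autoImplicit false

namespace Pool.Agent.K6T

open Finset
open Classical

private theorem sq_aux (a : ℕ) : 9 * a ≤ a * a + 20 := by
  rcases Nat.lt_or_ge a 5 with h | h
  · interval_cases a <;> omega
  · obtain ⟨k, rfl⟩ := Nat.exists_eq_add_of_le h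
    have h2 : (5 + k) * (5 + k) = 25 + 10 * k + k * k := by ring
    rw [h2]
    have h3 := Nat.zero_le (k * k)
    generalize k * k = q at h3 ⊢
    omega

theorem mad4 (V : Type*) : Mad V 4 := by
  refine mad_induct 4 ?_
  intro G S hS5 IH heq hdeg htri
  by_contra hno6
  have h8 : dc G S < 8 * S.card := by omega
  obtain ⟨v, hv, hv7⟩ := exists_small G S 8 h8
  obtain ⟨N, hN⟩ : ∃ N, N = nb G S v := ⟨_, rfl⟩
  have hNmem : ∀ w, w ∈ N ↔ w ∈ S ∧ G.Adj v w := fun w => by rw [hN]; exact mem_nb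
  have hNS : N ⊆ S := by rw [hN]; exact nb_subset G S v
  have hvN : v ∉ N := fun h => G.loopless.irrefl v ((hNmem v).1 h).2
  have hN5 : 5 ≤ N.card := by rw [hN]; exact hdeg v hv
  have hN7 : N.card ≤ 7 := by rw [hN]; omega
  have hno5 : ¬ HasK 5 G N := fun h => hno6 (HasK.cone_nb hv (by rw [← hN]; exact h))
  have htriN : ∀ w ∈ N, 4 ≤ (nb G N w).card := by
    intro w hw
    rw [hN] at hw ⊢
    exact htri v hv w hw
  obtain ⟨hdN, hstar⟩ := nbhd G N hN5 hN7 htriN hno5
  have hvNS : insert v N ⊆ S := Finset.insert_subset hv hNS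
  have hne : insert v N ≠ S := by
    intro h
    have h1 : S.erase v = N := by
      rw [← h, Finset.erase_insert hvN]
    have h2 := dc_erase G S hv
    rw [h1, ← hN] at h2
    have h3 : S.card = N.card + 1 := by rw [← h, Finset.card_insert_of_notMem hvN]
    omega
  obtain ⟨R, hR⟩ : ∃ R, R = S \ insert v N := ⟨_, rfl⟩
  have hRmem : ∀ y, y ∈ R ↔ y ∈ S ∧ y ≠ v ∧ y ∉ N := fun y => by
    rw [hR, Finset.mem_sdiff, Finset.mem_insert, not_or]
  have hRne : R.Nonempty := by
    rw [hR, Finset.sdiff_nonempty]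
    intro h
    exact hne (Finset.Subset.antisymm hvNS h)
  obtain ⟨C, hCR, hC, hclosed⟩ := exists_comp G R hRne
  obtain ⟨A, hA⟩ : ∃ A, A = N.filter (fun a => ∃ c ∈ C, G.Adj a c) := ⟨_, rfl⟩
  have hAmem : ∀ a, a ∈ A ↔ a ∈ N ∧ ∃ c ∈ C, G.Adj a c := fun a => by
    rw [hA, Finset.mem_filter]
  have hAN : A ⊆ N := by rw [hA]; exact Finset.filter_subset _ _
  have hCS : C ⊆ S := fun x hx => ((hRmem x).1 (hCR hx)).1
  have hvC : v ∉ C := fun h => ((hRmem v).1 (hCR h)).2.1 rfl
  have hNC : ∀ y ∈ N, y ∉ C := fun y hy h => ((hRmem y).1 (hCR h)).2.2 hy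
  -- a neighbour in `S` of a vertex of `C`
  have hnbC : ∀ x ∈ C, ∀ y ∈ S, G.Adj x y → y ∈ C ∨ y ∈ A := by
    intro x hx y hy hxy
    by_cases hyC : y ∈ C
    · exact Or.inl hyC
    · right
      have hyR : y ∉ R := fun h => hyC (hclosed x hx y h hxy)
      have hyv : y ≠ v := by
        rintro rfl
        exact ((hRmem x).1 (hCR hx)).2.2 ((hNmem x).2 ⟨hCS hx, hxy.symm⟩)
      have hyN : y ∈ N := by
        by_contra h
        exact hyR ((hRmem y).2 ⟨hy, hyv, h⟩)
      exact (hAmem y).2 ⟨hyN, x, hx, hxy.symm⟩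
  have hclique : ∀ a ∈ A, ∀ a' ∈ A, a ≠ a' → G.Adj a a' := by
    intro a ha a' ha' haa
    by_contra hnadj
    obtain ⟨haN, c, hc, hac⟩ := (hAmem a).1 ha
    obtain ⟨haN', c', hc', hac'⟩ := (hAmem a').1 ha'
    have hK := hstar a haN a' haN' haa hnadj
    apply hno6
    have hFa : ∀ z, (if z = a then insert a C else {z} : Finset V) =
        if z = a then insert a C else {z} := fun _ => rfl
    have hself : ∀ z, z ∈ (if z = a then insert a C else {z} : Finset V) := by
      intro z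
      split_ifs with h
      · rw [h]; exact Finset.mem_insert_self _ _
      · exact Finset.mem_singleton_self _
    refine HasK.cone (p := 5) (fun z => if z = a then insert a C else {z}) {v}
      (conn_singleton G v) (Finset.singleton_subset_iff.2 hv) ?_ ?_ ?_ ?_ ?_ ?_ hK
    · intro z hz
      split_ifs with h
      · exact Finset.insert_subset (hNS haN) hCS
      · exact Finset.singleton_subset_iff.2 (hNS hz)
    · intro z hz
      split_ifs with h
      · exact conn_insert hC hc hac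
      · exact conn_singleton G z
    · intro x hx y hy hxy
      split_ifs with h h' h'
      · exact absurd (h.trans h'.symm) hxy
      · rw [Finset.disjoint_singleton_right, Finset.mem_insert, not_or]
        exact ⟨h', hNC y hy⟩
      · rw [Finset.disjoint_singleton_left, Finset.mem_insert, not_or]
        exact ⟨h, hNC x hx⟩
      · rw [Finset.disjoint_singleton]
        exact hxy
    · intro x hx y hy hxy
      rw [SimpleGraph.sup_adj, SimpleGraph.edge_adj] at hxy
      rcases hxy with hxy | ⟨⟨rfl, rfl⟩ | ⟨rfl, rfl⟩, -⟩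
      · exact ⟨x, hself x, y, hself y, hxy⟩
      · refine ⟨c', ?_, y, hself y, hac'.symm⟩
        rw [if_pos rfl]
        exact Finset.mem_insert_of_mem hc'
      · refine ⟨x, hself x, c', ?_, hac'⟩
        rw [if_pos rfl]
        exact Finset.mem_insert_of_mem hc'
    · intro z hz
      rw [Finset.disjoint_singleton_left]
      have hzv : v ≠ z := fun h => hvN (h ▸ hz)
      split_ifs with h
      · rw [Finset.mem_insert, not_or]
        exact ⟨fun h' => hzv (h'.trans h.symm), hvC⟩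
      · rw [Finset.mem_singleton]
        exact hzv
    · intro z hz
      exact ⟨v, Finset.mem_singleton_self v, z, hself z, ((hNmem z).1 hz).2⟩
  have hXY : (C ∪ A) ∪ (S \ C) = S := by
    ext x
    simp only [Finset.mem_union, Finset.mem_sdiff]
    constructor
    · rintro ((h | h) | ⟨h, -⟩)
      · exact hCS h
      · exact hNS (hAN h)
      · exact h
    · intro h
      by_cases hx : x ∈ C
      · exact Or.inl (Or.inl hx)
      · exact Or.inr ⟨h, hx⟩
  have hXiY : (C ∪ A) ∩ (S \ C) = A := by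
    ext x
    simp only [Finset.mem_union, Finset.mem_sdiff, Finset.mem_inter]
    constructor
    · rintro ⟨h | h, -, h'⟩
      · exact absurd h h'
      · exact h
    · intro h
      exact ⟨Or.inr h, hNS (hAN h), hNC x (hAN h)⟩
  have hsep := dc_sep G (C ∪ A) (S \ C) (by
    intro x hx y hy hxy
    simp only [Finset.mem_union, Finset.mem_sdiff, not_and, not_not] at hx hy
    obtain ⟨hx1, hx2⟩ := hx
    obtain ⟨⟨hy1, hy2⟩, hy3⟩ := hy
    have hxS : x ∈ S := by
      rcases hx1 with h | h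
      · exact hCS h
      · exact hNS (hAN h)
    have hxC := hx2 hxS
    rcases hnbC x hxC y hy1 hxy with h | h
    · exact hy2 h
    · exact hy3 (Or.inr h))
  rw [hXY, hXiY] at hsep
  have hcl := dc_clique G A hclique
  have hcard := Finset.card_union_add_card_inter (C ∪ A) (S \ C)
  rw [hXY, hXiY] at hcard
  have hXS : C ∪ A ⊆ S := Finset.union_subset hCS (hAN.trans hNS)
  have hXlt : (C ∪ A).card < S.card := by
    refine Finset.card_lt_card ⟨hXS, fun h => ?_⟩
    rcases Finset.mem_union.1 (h hv) with h' | h'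
    · exact hvC h'
    · exact hvN (hAN h')
  have hX5 : 5 ≤ (C ∪ A).card := by
    obtain ⟨c, hc⟩ := hC.1
    refine (hdeg c (hCS hc)).trans (Finset.card_le_card fun w hw => ?_)
    obtain ⟨h1, h2⟩ := mem_nb.1 hw
    exact Finset.mem_union.2 (hnbC c hc w h1 h2)
  have hYlt : (S \ C).card < S.card := by
    refine Finset.card_lt_card ⟨Finset.sdiff_subset, fun h => ?_⟩
    obtain ⟨c, hc⟩ := hC.1
    exact (Finset.mem_sdiff.1 (h (hCS hc))).2 hc
  have hY5 : 5 ≤ (S \ C).card :=
    hN5.trans (Finset.card_le_card fun w hw => Finset.mem_sdiff.2 ⟨hNS hw, hNC w hw⟩)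
  have hX20 : dc G (C ∪ A) + 20 ≤ 8 * (C ∪ A).card := by
    by_contra hcon
    have hev := dc_even G (C ∪ A)
    obtain ⟨k, hk⟩ := hev
    exact hno6 ((IH G (C ∪ A) hXlt (by omega) (by omega)).mono le_rfl hXS)
  have hY20 : dc G (S \ C) + 20 ≤ 8 * (S \ C).card := by
    by_contra hcon
    have hev := dc_even G (S \ C)
    obtain ⟨k, hk⟩ := hev
    exact hno6 ((IH G (S \ C) hYlt (by omega) (by omega)).mono le_rfl Finset.sdiff_subset)
  have hsq : 9 * A.card ≤ A.card * A.card + 20 := sq_aux A.card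
  revert heq hsep hcl hcard hX20 hY20 hsq
  generalize dc G A = q1
  generalize dc G S = q2
  generalize dc G (C ∪ A) = q3
  generalize dc G (S \ C) = q4
  generalize A.card * A.card = q5
  intro heq hsep hcl hcard hX20 hY20 hsq
  omega

end Pool.Agent.K6T
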