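import Pool.Agent.K6T.Loc
import Pool.Agent.K6T.Mad6

/-!
# K6T / LocMain : neighbourhoods with a `K_4` minor

`local_core`: let `S` be nonempty and suppose that every `w ∈ S` with at most `7` neighbours in `S` has a neighbour `a` such that
`N(w) \ {a}` has a `K_4` minor. Then `G[S]` has a `K_6` minor.
PROOF. Suppose not. By Mader's theorem there are vertices of degree at most `7`. Among all pairs of a vertex `w` of degree at most
`7` and a component `C` of `S \ N[w]` take one with `|C|` minimal. By counting edges of `C` and of `C ∪ N[w]` (Mader's theorem again) `C` contains a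
vertex of degree at most `7`. Let `w' ∈ C` have smallest degree, `X = N[w']`, and `D` the component of `S \ X` which contains `w`. By minimality
`D` contains `C \ X`, so every neighbour of `w'` is adjacent to a vertex of `D` or has closed neighbourhood `X`. The `K_6`
minor consists of `{w'}`, `D ∪ {a}` and the four bags of `N(w') \ {a}`.
-/

set_option autoImplicit false

namespace Pool.Agent.K6T

open Finset
open Classical

variable {V : Type*}

/-- the graph `G` with `a` made adjacent to everything -/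
private def unG (G : SimpleGraph V) (a : V) : SimpleGraph V where
  Adj x y := G.Adj x y ∨ (x = a ∧ y ≠ a) ∨ (y = a ∧ x ≠ a)
  symm := ⟨by
    rintro x y (h | h | h)
    · exact Or.inl h.symm
    · exact Or.inr (Or.inr h)
    · exact Or.inr (Or.inl h)⟩
  loopless := ⟨by
    rintro x (h | h | h)
    · exact h.ne rfl
    · exact h.2 h.1
    · exact h.2 h.1⟩

private theorem cone_vertex {p : ℕ} {G : SimpleGraph V} {M : Finset V} {v : V}
    (hv : ∀ z ∈ M, G.Adj v z) (h : HasK p G M) : HasK (p + 1) G (insert v M) :=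
  HasK.cone_nb (mem_insert_self v M)
    (h.mono le_rfl fun z hz => mem_nb.2 ⟨mem_insert_of_mem hz, hv z hz⟩)

private theorem drop {p : ℕ} {G : SimpleGraph V} {M : Finset V} (h : HasK (p + 1) G M) (b : V) :
    HasK p G (M.erase b) := by
  obtain ⟨B, h1, h2, h3, h4⟩ := h
  obtain ⟨i0, hi0⟩ : ∃ i0 : Fin (p + 1), ∀ j, j ≠ i0 → b ∉ B j := by
    by_cases hb : ∃ i, b ∈ B i
    · obtain ⟨i, hi⟩ := hb
      exact ⟨i, fun j hj hbj => (disjoint_left.1 (h3 j i hj)) hbj hi⟩
    · exact ⟨0, fun j _ hbj => hb ⟨j, hbj⟩⟩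
  refine ⟨fun j => B (i0.succAbove j), fun j => ?_, fun j => h2 _, fun i j hij => ?_,
    fun i j hij => ?_⟩
  · intro z hz
    refine mem_erase.2 ⟨fun hzb => ?_, h1 _ hz⟩
    rw [hzb] at hz
    exact hi0 _ (Fin.succAbove_ne i0 j) hz
  · exact h3 _ _ fun h => hij (Fin.succAbove_right_injective h)
  · exact h4 _ _ fun h => hij (Fin.succAbove_right_injective h)

private theorem attach {p : ℕ} {G : SimpleGraph V} {S D : Finset V} {w a0 : V} (hw : w ∈ S)
    (hDS : D ⊆ S) (hDw : w ∉ D) (hDN : ∀ z ∈ D, z ∉ nb G S w) (hD : Conn G D)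
    (ha0 : a0 ∈ nb G S w) (hK : HasK p G ((nb G S w).erase a0)) (hz : ∃ z ∈ D, G.Adj a0 z)
    (hall : ∀ b ∈ nb G S w, b ≠ a0 → (∃ z ∈ D, G.Adj b z) ∨ G.Adj b a0) :
    HasK (p + 1 + 1) G S := by
  have h5 : HasK (p + 1) (unG G a0) (nb G S w) := by
    refine HasK.cone_nb ha0 (hK.mono (fun x y h => Or.inl h) fun z hz => ?_)
    exact mem_nb.2 ⟨mem_of_mem_erase hz, Or.inr (Or.inl ⟨rfl, ne_of_mem_erase hz⟩)⟩
  obtain ⟨F, hFa, hFb⟩ : ∃ F : V → Finset V, F a0 = insert a0 D ∧ ∀ z, z ≠ a0 → F z = {z} :=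
    ⟨fun z => if z = a0 then insert a0 D else {z}, if_pos rfl, fun z hz => if_neg hz⟩
  have hself : ∀ z, z ∈ F z := by
    intro z
    by_cases h : z = a0
    · rw [h, hFa]; exact mem_insert_self _ _
    · rw [hFb z h]; exact mem_singleton_self z
  obtain ⟨z0, hz0, haz0⟩ := hz
  have hwN : w ∉ nb G S w := fun h => (mem_nb.1 h).2.ne rfl
  refine HasK.cone (Q := unG G a0) F {w} (conn_singleton G w) (singleton_subset_iff.2 hw)
    ?_ ?_ ?_ ?_ ?_ ?_ h5
  · intro z hz
    by_cases h : z = a0
    · rw [h, hFa]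
      exact insert_subset (mem_nb.1 ha0).1 hDS
    · rw [hFb z h, singleton_subset_iff]
      exact (mem_nb.1 hz).1
  · intro z _
    by_cases h : z = a0
    · rw [h, hFa]
      exact conn_insert hD hz0 haz0
    · rw [hFb z h]
      exact conn_singleton G z
  · intro x hx y hy hxy
    by_cases h : x = a0
    · have h' : y ≠ a0 := fun h2 => hxy (h.trans h2.symm)
      rw [h, hFa, hFb y h', disjoint_singleton_right, mem_insert]
      rintro (h2 | h2)
      · exact h' h2
      · exact hDN y h2 hy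
    · by_cases h' : y = a0
      · rw [h', hFa, hFb x h, disjoint_singleton_left, mem_insert]
        rintro (h2 | h2)
        · exact h h2
        · exact hDN x h2 hx
      · rw [hFb x h, hFb y h', disjoint_singleton]
        exact hxy
  · intro x hx y hy hxy
    have key : ∀ b ∈ nb G S w, b ≠ a0 → ∃ z ∈ F a0, ∃ u ∈ F b, G.Adj z u := by
      intro b hb hba
      rcases hall b hb hba with ⟨z, hz, hbz⟩ | h2
      · refine ⟨z, ?_, b, hself b, hbz.symm⟩
        rw [hFa]
        exact mem_insert_of_mem hz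
      · exact ⟨a0, hself a0, b, hself b, h2.symm⟩
    rcases hxy with h | h | h
    · exact ⟨x, hself x, y, hself y, h⟩
    · rw [h.1]
      exact key y hy h.2
    · rw [h.1]
      obtain ⟨z, hz, u, hu, hzu⟩ := key x hx h.2
      exact ⟨u, hu, z, hz, hzu.symm⟩
  · intro x hx
    rw [disjoint_singleton_left]
    by_cases h : x = a0
    · rw [h, hFa, mem_insert]
      rintro (h2 | h2)
      · exact hwN (h2 ▸ ha0)
      · exact hDw h2
    · rw [hFb x h, mem_singleton]
      intro h2
      exact hwN (h2 ▸ hx)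
  · intro x hx
    exact ⟨w, mem_singleton_self w, x, hself x, (mem_nb.1 hx).2⟩

/-- a set with a `K_4` minor spans at least six edges -/
private theorem twelve {G : SimpleGraph V} {M : Finset V} (h : HasK 4 G M) : 12 ≤ dc G M := by
  obtain ⟨B, h1, -, h3, h4⟩ := h
  choose x hx y hy hxy using h4
  rw [← ed_card]
  have hc : ((univ : Finset (Fin 4)).offDiag).card = 12 := by
    rw [offDiag_card]; rfl
  rw [← hc]
  have hd : ∀ i j z, z ∈ B i → z ∈ B j → i = j := by
    intro i j z hi hj
    by_contra hij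
    exact (disjoint_left.1 (h3 i j hij)) hi hj
  let f : Fin 4 × Fin 4 → V × V := fun q =>
    if hq : q.1 ≠ q.2 then (x q.1 q.2 hq, y q.1 q.2 hq) else (x 0 1 (by decide), y 0 1 (by decide))
  refine card_le_card_of_injOn f ?_ ?_
  · intro q hq
    rw [mem_coe, mem_offDiag] at hq
    have hf : f q = (x q.1 q.2 hq.2.2, y q.1 q.2 hq.2.2) := dif_pos hq.2.2
    rw [mem_coe, hf, mem_ed]
    exact ⟨h1 _ (hx _ _ _), h1 _ (hy _ _ _), hxy _ _ _⟩
  · intro q hq q' hq' hqq
    rw [mem_coe, mem_offDiag] at hq hq'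
    have hf : f q = (x q.1 q.2 hq.2.2, y q.1 q.2 hq.2.2) := dif_pos hq.2.2
    have hf' : f q' = (x q'.1 q'.2 hq'.2.2, y q'.1 q'.2 hq'.2.2) := dif_pos hq'.2.2
    rw [hf, hf', Prod.mk.injEq] at hqq
    refine Prod.ext ?_ ?_
    · refine hd _ _ _ (hx _ _ hq.2.2) ?_
      rw [hqq.1]
      exact hx _ _ hq'.2.2
    · refine hd _ _ _ (hy _ _ hq.2.2) ?_
      rw [hqq.2]
      exact hy _ _ hq'.2.2

private theorem nb_union (G : SimpleGraph V) {A B : Finset V} (hAB : Disjoint A B) (x : V) :
    (nb G (A ∪ B) x).card = (nb G A x).card + (nb G B x).card := by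
  unfold nb
  rw [filter_union, card_union_of_disjoint (disjoint_filter_filter hAB)]

private theorem dc_union (G : SimpleGraph V) {A B : Finset V} (hAB : Disjoint A B) :
    dc G (A ∪ B) = dc G A + dc G B + 2 * ∑ x ∈ A, (nb G B x).card := by
  have h1 : ∑ x ∈ B, (nb G A x).card = ∑ x ∈ A, (nb G B x).card := by
    unfold nb
    simp only [card_filter]
    rw [sum_comm]
    refine sum_congr rfl fun x _ => sum_congr rfl fun y _ => ?_
    simp only [G.adj_comm]
  unfold dc
  rw [sum_union hAB]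
  simp only [nb_union G hAB, sum_add_distrib]
  rw [h1]
  ring

private theorem low_deg {G : SimpleGraph V} {S C : Finset V} {w a : V} (hno : ¬ HasK 6 G S)
    (hw : w ∈ S) (h7 : (nb G S w).card ≤ 7) (ha : a ∈ nb G S w)
    (hK : HasK 4 G ((nb G S w).erase a)) (hCR : C ⊆ S \ insert w (nb G S w)) (hC : Conn G C)
    (hcl : ∀ x ∈ C, ∀ y ∈ S \ insert w (nb G S w), G.Adj x y → y ∈ C) :
    ∃ x ∈ C, (nb G S x).card ≤ 7 := by
  by_contra hcon
  push Not at hcon
  have hR : ∀ x ∈ C, x ∈ S ∧ x ≠ w ∧ x ∉ nb G S w := by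
    intro x hx
    have := hCR hx
    rw [mem_sdiff, mem_insert, not_or] at this
    exact ⟨this.1, this.2.1, this.2.2⟩
  set N := nb G S w with hN
  have hNS : N ⊆ S := nb_subset G S w
  have hdis : Disjoint C N := disjoint_left.2 fun x hx => (hR x hx).2.2
  have hwN : w ∉ N := fun h => (mem_nb.1 h).2.ne rfl
  have hwC : w ∉ C := fun h => (hR w h).2.1 rfl
  -- the neighbours of `x ∈ C`
  have hsplit : ∀ x ∈ C, 8 ≤ (nb G C x).card + (nb G N x).card := by
    intro x hx
    have h1 : nb G S x ⊆ nb G (C ∪ N) x := by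
      intro y hy
      obtain ⟨hyS, hxy⟩ := mem_nb.1 hy
      refine mem_nb.2 ⟨?_, hxy⟩
      by_cases hyN : y ∈ N
      · exact mem_union_right _ hyN
      · refine mem_union_left _ (hcl x hx y ?_ hxy)
        rw [mem_sdiff, mem_insert, not_or]
        refine ⟨hyS, fun h => ?_, hyN⟩
        rw [h] at hxy
        exact (hR x hx).2.2 (mem_nb.2 ⟨(hR x hx).1, hxy.symm⟩)
    have h2 := card_le_card h1
    rw [nb_union G hdis] at h2
    have := hcon x hx
    omega
  have hE : 8 * C.card ≤ dc G C + ∑ x ∈ C, (nb G N x).card := by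
    unfold dc
    rw [← sum_add_distrib]
    have := card_nsmul_le_sum C (fun x => (nb G C x).card + (nb G N x).card) 8 hsplit
    simpa [mul_comm] using this
  have hDN : 12 ≤ dc G N := by
    have h1 := twelve hK
    have h2 := dc_erase G N ha
    omega
  -- not all vertices of `N` are attached
  have hex : ∃ b ∈ N, ∀ z ∈ C, ¬ G.Adj b z := by
    by_contra hb
    push Not at hb
    refine hno (attach (p := 4) hw (fun z hz => (hR z hz).1) hwC (fun z hz => (hR z hz).2.2) hC ha hK
      (hb a ha) fun b hbN _ => Or.inl (hb b hbN))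
  obtain ⟨b, hbN, hb⟩ := hex
  have hnbN : ∀ x ∈ C, nb G N x ⊆ N.erase b := by
    intro x hx y hy
    obtain ⟨hyN, hxy⟩ := mem_nb.1 hy
    refine mem_erase.2 ⟨fun h => ?_, hyN⟩
    rw [h] at hxy
    exact hb x hx hxy.symm
  have hcb : (N.erase b).card = N.card - 1 := card_erase_of_mem hbN
  have hnbC : ∀ x ∈ C, nb G C x ⊆ C.erase x := by
    intro x _ y hy
    obtain ⟨hyC, hxy⟩ := mem_nb.1 hy
    exact mem_erase.2 ⟨hxy.ne', hyC⟩
  have hC1 : 1 ≤ C.card := card_pos.2 hC.1
  rcases Nat.lt_or_ge C.card 4 with h4 | h4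
  · -- small `C`
    have hC3 : C.card = 3 := by
      obtain ⟨x, hx⟩ := hC.1
      have h1 := card_le_card (hnbN x hx)
      have h2 := card_le_card (hnbC x hx)
      rw [card_erase_of_mem hx] at h2
      have := hsplit x hx
      omega
    have hCeq : ∀ x ∈ C, nb G C x = C.erase x := by
      intro x hx
      have h1 := card_le_card (hnbN x hx)
      have h3 := hsplit x hx
      refine eq_of_subset_of_card_le (hnbC x hx) ?_
      rw [card_erase_of_mem hx]
      omega
    have hNeq : ∀ x ∈ C, nb G N x = N.erase b := by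
      intro x hx
      have h2 := card_le_card (hnbC x hx)
      rw [card_erase_of_mem hx] at h2
      have h3 := hsplit x hx
      refine eq_of_subset_of_card_le (hnbN x hx) ?_
      omega
    obtain ⟨x, y, z, hxy, hxz, hyz, hCe⟩ := card_eq_three.1 hC3
    have hxC : x ∈ C := by rw [hCe]; simp
    have hyC : y ∈ C := by rw [hCe]; simp
    have hzC : z ∈ C := by rw [hCe]; simp
    have hadjC : ∀ u ∈ C, ∀ v ∈ C, u ≠ v → G.Adj u v := by
      intro u hu v hv huv
      have : v ∈ nb G C u := by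
        rw [hCeq u hu]
        exact mem_erase.2 ⟨huv.symm, hv⟩
      exact (mem_nb.1 this).2
    have hadjN : ∀ u ∈ C, ∀ v ∈ N.erase b, G.Adj u v := by
      intro u hu v hv
      rw [← hNeq u hu] at hv
      exact (mem_nb.1 hv).2
    have k3 : HasK 3 G (N.erase b) :=
      (drop hK b).mono le_rfl (erase_subset_erase b (erase_subset a N))
    have k4 := cone_vertex (v := x) (hadjN x hxC) k3
    have k5 := cone_vertex (v := y) (M := insert x (N.erase b)) (by
      intro v hv
      rcases mem_insert.1 hv with h | h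
      · rw [h]; exact hadjC y hyC x hxC hxy.symm
      · exact hadjN y hyC v h) k4
    have k6 := cone_vertex (v := z) (M := insert y (insert x (N.erase b))) (by
      intro v hv
      rcases mem_insert.1 hv with h | h
      · rw [h]; exact hadjC z hzC y hyC hyz.symm
      · rcases mem_insert.1 h with h | h
        · rw [h]; exact hadjC z hzC x hxC hxz.symm
        · exact hadjN z hzC v h) k5
    refine hno (k6.mono le_rfl ?_)
    refine insert_subset (hR z hzC).1 (insert_subset (hR y hyC).1 (insert_subset (hR x hxC).1 ?_))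
    exact (erase_subset b N).trans hNS
  · -- large `C`
    have hCS : C ⊆ S := fun x hx => (hR x hx).1
    have hm1 : ¬ (8 * C.card + 2 ≤ dc G C + 20) := fun h =>
      hno ((mad4 V G C h4 (by simpa using h)).mono le_rfl hCS)
    have hH : insert w (C ∪ N) ⊆ S := insert_subset hw (union_subset hCS hNS)
    have hwCN : w ∉ C ∪ N := by
      rw [mem_union, not_or]
      exact ⟨hwC, hwN⟩
    have hcH : (insert w (C ∪ N)).card = C.card + N.card + 1 := by
      rw [card_insert_of_notMem hwCN, card_union_of_disjoint hdis]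
    have hnbH : nb G (insert w (C ∪ N)) w = N := by
      ext y
      rw [mem_nb]
      constructor
      · rintro ⟨hy, hwy⟩
        exact mem_nb.2 ⟨hH hy, hwy⟩
      · intro hy
        exact ⟨mem_insert_of_mem (mem_union_right _ hy), (mem_nb.1 hy).2⟩
    have hdH : dc G (insert w (C ∪ N)) =
        dc G C + dc G N + 2 * (∑ x ∈ C, (nb G N x).card) + 2 * N.card := by
      have h1 := dc_erase G (insert w (C ∪ N)) (mem_insert_self w _)
      rw [erase_insert hwCN, hnbH, dc_union G hdis] at h1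
      omega
    have hm2 : ¬ (8 * (C.card + N.card + 1) + 2 ≤ dc G (insert w (C ∪ N)) + 20) := fun h =>
      hno ((mad4 V G (insert w (C ∪ N)) (by rw [hcH]; omega) (by rw [hcH]; simpa using h)).mono
        le_rfl hH)
    rw [hdH] at hm2
    obtain ⟨k, hk⟩ := dc_even G C
    omega

/-- Every nonempty `S` such that each vertex of degree at most `7` has a neighbour `a` such that the
other neighbours have a `K_4` minor has a `K_6` minor. -/
theorem local_core (G : SimpleGraph V) (S : Finset V) (hne : S.Nonempty)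
    (hloc : ∀ w ∈ S, (nb G S w).card ≤ 7 → ∃ a ∈ nb G S w, HasK 4 G ((nb G S w).erase a)) :
    HasK 6 G S := by
  by_contra hno
  have hlow : ∃ w ∈ S, (nb G S w).card ≤ 7 := by
    by_contra hc
    push Not at hc
    have h1 : 8 * S.card ≤ dc G S := by
      unfold dc
      have := card_nsmul_le_sum S (fun x => (nb G S x).card) 8 hc
      simpa [mul_comm] using this
    obtain ⟨v, hv⟩ := hne
    have h2 := hc v hv
    have h3 := card_le_card (nb_subset G S v)
    exact hno (mad4 V G S (by omega) (by omega))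
  -- a pair
  by_cases hdom : ∀ w ∈ S, (nb G S w).card ≤ 7 → S ⊆ insert w (nb G S w)
  · obtain ⟨w, hw, h7⟩ := hlow
    obtain ⟨a, ha, hK⟩ := hloc w hw h7
    have haS : a ∈ S := (mem_nb.1 ha).1
    have h8 : S.card ≤ 8 := by
      have h1 := card_le_card (hdom w hw h7)
      have h2 := card_insert_le w (nb G S w)
      omega
    have h9 : (nb G S a).card ≤ 7 := by
      have h1 : nb G S a ⊆ S.erase a := fun z hz =>
        mem_erase.2 ⟨(mem_nb.1 hz).2.ne', (mem_nb.1 hz).1⟩
      have h2 := card_le_card h1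
      rw [card_erase_of_mem haS] at h2
      omega
    have hda := hdom a haS h9
    have k5 : HasK 5 G (nb G S w) := by
      refine HasK.cone_nb ha (hK.mono le_rfl fun z hz => ?_)
      obtain ⟨hza, hzN⟩ := mem_erase.1 hz
      rcases mem_insert.1 (hda (mem_nb.1 hzN).1) with h | h
      · exact absurd h hza
      · exact mem_nb.2 ⟨hzN, (mem_nb.1 h).2⟩
    exact hno (HasK.cone_nb hw k5)
  obtain ⟨Good, hGood⟩ : ∃ Good : Finset V → Prop, ∀ C, Good C ↔ ∃ w ∈ S, (nb G S w).card ≤ 7 ∧
      C ⊆ S \ insert w (nb G S w) ∧ Conn G C ∧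
      ∀ x ∈ C, ∀ y ∈ S \ insert w (nb G S w), G.Adj x y → y ∈ C := ⟨_, fun C => Iff.rfl⟩
  obtain ⟨C, hCmem, hCmin⟩ := Finset.exists_min_image (S.powerset.filter Good) Finset.card (by
    push Not at hdom
    obtain ⟨w0, hw0, h70, hns⟩ := hdom
    obtain ⟨v, hv, hv'⟩ := not_subset.1 hns
    obtain ⟨C0, h1, h2, h3⟩ := exists_comp G (S \ insert w0 (nb G S w0)) ⟨v, mem_sdiff.2 ⟨hv, hv'⟩⟩
    exact ⟨C0, mem_filter.2 ⟨mem_powerset.2 (h1.trans sdiff_subset),
      (hGood C0).2 ⟨w0, hw0, h70, h1, h2, h3⟩⟩⟩)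
  have hmin : ∀ D : Finset V, Good D → C.card ≤ D.card := by
    intro D hD
    obtain ⟨w1, -, -, hD1, -⟩ := (hGood D).1 hD
    exact hCmin D (mem_filter.2 ⟨mem_powerset.2 (hD1.trans sdiff_subset), hD⟩)
  obtain ⟨w, hw, h7, hCR, hC, hcl⟩ := (hGood C).1 (mem_filter.1 hCmem).2
  have hR : ∀ x ∈ C, x ∈ S ∧ x ≠ w ∧ x ∉ nb G S w := by
    intro x hx
    have := hCR hx
    rw [mem_sdiff, mem_insert, not_or] at this
    exact ⟨this.1, this.2.1, this.2.2⟩
  obtain ⟨a, ha, hK⟩ := hloc w hw h7
  obtain ⟨x0, hx0, hx07⟩ := low_deg hno hw h7 ha hK hCR hC hcl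
  obtain ⟨w', hw'C, hw'min⟩ := Finset.exists_min_image C (fun x => (nb G S x).card) hC.1
  have h7' : (nb G S w').card ≤ 7 := (hw'min x0 hx0).trans hx07
  obtain ⟨hw'S, hw'w, hw'N⟩ := hR w' hw'C
  obtain ⟨a0, ha0, hK0⟩ := hloc w' hw'S h7'
  have hnadj : ¬ G.Adj w w' := fun h => hw'N (mem_nb.2 ⟨hw'S, h⟩)
  have hwR' : w ∈ S \ insert w' (nb G S w') := by
    rw [mem_sdiff, mem_insert, not_or]
    exact ⟨hw, hw'w.symm, fun h => hnadj (mem_nb.1 h).2.symm⟩
  obtain ⟨D, hDR, hwD, hD, hDcl⟩ := exists_comp_mem G (S \ insert w' (nb G S w')) hwR'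
  have hDR' : ∀ x ∈ D, x ∈ S ∧ x ≠ w' ∧ x ∉ nb G S w' := by
    intro x hx
    have := hDR hx
    rw [mem_sdiff, mem_insert, not_or] at this
    exact ⟨this.1, this.2.1, this.2.2⟩
  -- the neighbours of `w` outside `X` are in `D`
  have F1 : ∀ z ∈ nb G S w, z ∉ insert w' (nb G S w') → z ∈ D := by
    intro z hz hzX
    exact hDcl w hwD z (mem_sdiff.2 ⟨(mem_nb.1 hz).1, hzX⟩) (mem_nb.1 hz).2
  -- `C \ X ⊆ D`
  have F2 : ∀ y ∈ C, y ∉ insert w' (nb G S w') → y ∈ D := by
    intro y hy hyX
    by_contra hyD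
    obtain ⟨D', hD'R, hyD', hD', hD'cl⟩ := exists_comp_mem G (S \ insert w' (nb G S w'))
      (mem_sdiff.2 ⟨(hR y hy).1, hyX⟩)
    have hdis : ∀ z ∈ D', z ∉ D := by
      intro z hz hzD
      exact hyD (conn_closed_subset hDcl hD' hD'R hz hzD hyD')
    have hD'w : D' ⊆ S \ insert w (nb G S w) := by
      intro z hz
      have hzR := mem_sdiff.1 (hD'R hz)
      rw [mem_sdiff, mem_insert, not_or]
      refine ⟨hzR.1, fun h => ?_, fun h => ?_⟩
      · rw [h] at hz
        exact hdis w hz hwD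
      · exact hdis z hz (F1 z h hzR.2)
    have hD'C : D' ⊆ C := conn_closed_subset hcl hD' hD'w hyD' hy
    have hss : D' ⊂ C := by
      refine ⟨hD'C, fun h => ?_⟩
      have := mem_sdiff.1 (hD'R (h hw'C))
      exact this.2 (mem_insert_self _ _)
    have h1 := card_lt_card hss
    have h2 := hmin D' ((hGood D').2 ⟨w', hw'S, h7', hD'R, hD', hD'cl⟩)
    omega
  -- twins
  have F3 : ∀ b ∈ nb G S w', (∃ z ∈ D, G.Adj b z) ∨
      ∀ z ∈ insert w' (nb G S w'), z ≠ b → G.Adj b z := by
    intro b hb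
    by_cases hatt : ∃ z ∈ D, G.Adj b z
    · exact Or.inl hatt
    right
    push Not at hatt
    obtain ⟨hbS, hw'b⟩ := mem_nb.1 hb
    have hbw : b ≠ w := fun h => hnadj (h ▸ hw'b.symm)
    have hbN : b ∉ nb G S w := fun h => hatt w hwD (mem_nb.1 h).2.symm
    have hbC : b ∈ C := by
      refine hcl w' hw'C b ?_ hw'b
      rw [mem_sdiff, mem_insert, not_or]
      exact ⟨hbS, hbw, hbN⟩
    have hsub : nb G S b ⊆ (insert w' (nb G S w')).erase b := by
      intro z hz
      obtain ⟨hzS, hbz⟩ := mem_nb.1 hz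
      refine mem_erase.2 ⟨hbz.ne', ?_⟩
      by_contra hzX
      refine hatt z ?_ hbz
      by_cases hzw : z = w
      · rw [hzw]; exact hwD
      · by_cases hzN : z ∈ nb G S w
        · exact F1 z hzN hzX
        · refine F2 z (hcl b hbC z ?_ hbz) hzX
          rw [mem_sdiff, mem_insert, not_or]
          exact ⟨hzS, hzw, hzN⟩
    have hw'n : w' ∉ nb G S w' := fun h => (mem_nb.1 h).2.ne rfl
    have hcard : ((insert w' (nb G S w')).erase b).card ≤ (nb G S b).card := by
      rw [card_erase_of_mem (mem_insert_of_mem hb), card_insert_of_notMem hw'n]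
      have := hw'min b hbC
      simpa using this
    have heq := eq_of_subset_of_card_le hsub hcard
    intro z hz hzb
    have : z ∈ nb G S b := by
      rw [heq]
      exact mem_erase.2 ⟨hzb, hz⟩
    exact (mem_nb.1 this).2
  have ha0X : a0 ∈ insert w' (nb G S w') := mem_insert_of_mem ha0
  rcases F3 a0 ha0 with h | h
  · refine hno (attach (p := 4) hw'S (fun z hz => (hDR' z hz).1) (fun h => (hDR' w' h).2.1 rfl)
      (fun z hz => (hDR' z hz).2.2) hD ha0 hK0 h fun b hb hba => ?_)
    rcases F3 b hb with h1 | h1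
    · exact Or.inl h1
    · exact Or.inr (h1 a0 ha0X hba.symm)
  · have k5 : HasK 5 G (nb G S w') := by
      refine HasK.cone_nb ha0 (hK0.mono le_rfl fun z hz => ?_)
      obtain ⟨hza, hzN⟩ := mem_erase.1 hz
      exact mem_nb.2 ⟨hzN, h z (mem_insert_of_mem hzN) hza⟩
    exact hno (HasK.cone_nb hw'S k5)

end Pool.Agent.K6T
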