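import Pool.Agent.K6T.MadInd

/-!
# K6T / Mad5 : Mader's theorem for `K_3`, `K_4`, `K_5`

PROOFS, with `mad_induct`.

`mad1` (`q = 1`, `K_3`): `S` is nonempty; take `v ∈ S`, `w ∈ nb G S v` (`1 + 1 ≤ |nb G S v|`), `z ∈ nb G (nb G S v) w` (nonempty): `v, w, z` is a triangle
(`hasK_of_clique ![v, w, z]`).

`mad2` (`q = 2`, `K_4`): `dc G S = 4 |S| + 2 - 6 < 4 |S|`, so there is `v ∈ S` with `|N| ≤ 3`, `N = nb G S v` (`exists_small`), hence `|N| = 3`. Every `w ∈ N` has
`2 ≤ |nb G N w|`, so `dc G N ≥ 6` and `2 * 1 * 3 + 2 ≤ dc G N + 2`: `HasK 3 G N` by `mad1`, and `HasK.cone_nb`.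

`mad3` (`q = 3`, `K_5`): `dc G S = 6 |S| + 2 - 12 < 6 |S|`, so there is `v ∈ S` with `|N| ≤ 5`, and `|N| ≥ 4`. Every `w ∈ N` has `3 ≤ |nb G N w|`. If `|N| = 4`:
`dc G N ≥ 12`, `2 * 2 * 4 + 2 = 18 ≤ dc G N + 6`. If `|N| = 5`: `dc G N ≥ 15`, so `≥ 16` (`dc_even`), `2 * 2 * 5 + 2 = 22 ≤ dc G N + 6`. In both cases `HasK 4 G N` by
`mad2`, and `HasK.cone_nb`.
-/

set_option autoImplicit false

namespace Pool.Agent.K6T

open Finset
open Classical

theorem mad1 (V : Type*) : Mad V 1 := by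
  refine mad_induct 1 ?_
  intro G S hcard _ _ hdeg htri
  have hne : S.Nonempty := by
    rw [← Finset.card_pos]
    omega
  obtain ⟨v, hv⟩ := hne
  have h1 := hdeg v hv
  have hne2 : (nb G S v).Nonempty := by
    rw [← Finset.card_pos]
    omega
  obtain ⟨w, hw⟩ := hne2
  have h2 := htri v hv w hw
  have hne3 : (nb G (nb G S v) w).Nonempty := by
    rw [← Finset.card_pos]
    omega
  obtain ⟨z, hz⟩ := hne3
  rw [mem_nb] at hz
  obtain ⟨hz1, hwz⟩ := hz
  rw [mem_nb] at hw hz1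
  obtain ⟨hwS, hvw⟩ := hw
  obtain ⟨hzS, hvz⟩ := hz1
  have key : HasK 3 G S := by
    apply hasK_of_clique ![v, w, z]
    · intro i
      fin_cases i
      · exact hv
      · exact hwS
      · exact hzS
    · intro i j hij
      fin_cases i <;> fin_cases j
      · exact absurd rfl hij
      · exact hvw
      · exact hvz
      · exact hvw.symm
      · exact absurd rfl hij
      · exact hwz
      · exact hvz.symm
      · exact hwz.symm
      · exact absurd rfl hij
  exact key

theorem mad2 (V : Type*) : Mad V 2 := by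
  refine mad_induct 2 ?_
  intro G S hcard _ heq hdeg htri
  obtain ⟨v, hv, hlt⟩ := exists_small G S 4 (by omega)
  have h1 := hdeg v hv
  have h2 : (nb G S v).card = 3 := by omega
  have h3 : (nb G S v).card * 2 ≤ dc G (nb G S v) := by
    unfold dc
    rw [← smul_eq_mul]
    exact Finset.card_nsmul_le_sum _ _ _ (fun w hw => htri v hv w hw)
  have key : HasK 3 G (nb G S v) := mad1 V G (nb G S v) (by omega) (by omega)
  exact key.cone_nb hv

theorem mad3 (V : Type*) : Mad V 3 := by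
  refine mad_induct 3 ?_
  intro G S hcard _ heq hdeg htri
  obtain ⟨v, hv, hlt⟩ := exists_small G S 6 (by omega)
  have h1 := hdeg v hv
  have h3 : (nb G S v).card * 3 ≤ dc G (nb G S v) := by
    unfold dc
    rw [← smul_eq_mul]
    exact Finset.card_nsmul_le_sum _ _ _ (fun w hw => htri v hv w hw)
  obtain ⟨r, hr⟩ := dc_even G (nb G S v)
  have key : HasK 4 G (nb G S v) := mad2 V G (nb G S v) (by omega) (by omega)
  exact key.cone_nb hv

end Pool.Agent.K6T
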