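import Pool.Agent.K6T.Quot

/-!
# K6T / MadInd : the induction for Mader's theorem

PROOF of `mad_induct`.  Strong induction on `S.card`, for all `G`. Let `q ≤ S.card` and `2 q |S| + 2 ≤ dc G S + (q+1) q`.
If `|S| = q`: `dc G S ≤ q q - q` (`dc_le`) contradicts the hypothesis. So `q + 1 ≤ |S|`.
`(q+1) q` is even and `(q+1) q ≤ 2 q |S| + 2`, so `2 q |S| + 2 - (q+1) q = 2 k` for some `k`, and `2 k ≤ dc G S`; by `exists_le_dc` there is `G' ≤ G` with
`dc G' S = 2 k`. As `HasK (q+2) G' S → HasK (q+2) G S` (`HasK.mono`), we may replace `G` by `G'`: assume `2 q |S| + 2 = dc G S + (q+1) q`. Suppose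
`¬ HasK (q+2) G S`.

(1) every `v ∈ S` has `q + 1 ≤ |nb G S v|`: otherwise `S' = S.erase v` has `|S'| = |S| - 1 ≥ q`, `dc G S' = dc G S - 2 |nb G S v| ≥ dc G S - 2 q`
(`dc_erase`), so `2 q |S'| + 2 ≤ dc G S' + (q+1) q`, and the induction hypothesis gives `HasK (q+2) G S'`, hence `HasK (q+2) G S`.

(2) for `v ∈ S` and `w ∈ nb G S v`: `q ≤ |nb G (nb G S v) w| = tri G S (v,w)` (`nb_nb_card`): otherwise `tri G S (v,w) ≤ q - 1` and `quot` for
`M = {(v,w)}` (`Mat M` since `Touch f f` is false; `ww (PP G) M = 0` by `not_PP_self`) gives `Q`, `S'` with `|S'| + 1 = |S|`,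
`dc G S ≤ dc Q S' + 2 + 2 (q - 1)`, so `2 q |S'| + 2 ≤ dc Q S' + (q+1) q`, `HasK (q+2) Q S'` by induction, and `HasK (q+2) G S`.

So the hypotheses of `h` hold (`IH` of `h` is the induction hypothesis), and `h` gives `HasK (q+2) G S`.
-/

set_option autoImplicit false

namespace Pool.Agent.K6T

open Finset
open Classical

variable {V : Type*}

theorem mad_induct (q : ℕ)
    (h : ∀ (G : SimpleGraph V) (S : Finset V), q + 1 ≤ S.card →
      (∀ (G' : SimpleGraph V) (S' : Finset V), S'.card < S.card → q ≤ S'.card →
        2 * q * S'.card + 2 ≤ dc G' S' + (q + 1) * q → HasK (q + 2) G' S') →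
      2 * q * S.card + 2 = dc G S + (q + 1) * q →
      (∀ v ∈ S, q + 1 ≤ (nb G S v).card) →
      (∀ v ∈ S, ∀ w ∈ nb G S v, q ≤ (nb G (nb G S v) w).card) → HasK (q + 2) G S) :
    Mad V q := by
  suffices H : ∀ (n : ℕ) (G : SimpleGraph V) (S : Finset V), S.card = n → q ≤ S.card →
      2 * q * S.card + 2 ≤ dc G S + (q + 1) * q → HasK (q + 2) G S by
    intro G S h1 h2
    exact H S.card G S rfl h1 h2
  intro n
  induction n using Nat.strong_induction_on with
  | _ n ih =>
    intro G S hn hqS hdc
    have IH : ∀ (G' : SimpleGraph V) (S' : Finset V), S'.card < S.card → q ≤ S'.card →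
        2 * q * S'.card + 2 ≤ dc G' S' + (q + 1) * q → HasK (q + 2) G' S' := by
      intro G' S' h1 h2 h3
      exact ih S'.card (by omega) G' S' rfl h2 h3
    have hs : q + 1 ≤ S.card := by
      rcases Nat.lt_or_ge q S.card with h1 | h1
      · exact h1
      · exfalso
        have h2 : S.card = q := le_antisymm h1 hqS
        have h3 := dc_le G S
        rw [h2] at h3 hdc
        nlinarith
    obtain ⟨e, he⟩ := Nat.even_mul_succ_self q
    have he' : (q + 1) * q = 2 * e := by rw [mul_comm]; omega
    have hes : 2 * e ≤ q * S.card := by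
      rw [← he', mul_comm (q + 1) q]
      exact Nat.mul_le_mul_left q hs
    have h2qs : 2 * q * S.card = 2 * (q * S.card) := by ring
    obtain ⟨G', hG', hdG'⟩ := exists_le_dc G S (q * S.card + 1 - e) (by omega)
    refine HasK.mono hG' (Finset.Subset.refl S) ?_
    have heq : 2 * q * S.card + 2 = dc G' S + (q + 1) * q := by
      rw [hdG', he', h2qs]
      omega
    by_contra hcon
    refine hcon (h G' S hs IH heq ?_ ?_)
    · intro v hv
      by_contra hlt
      push Not at hlt
      apply hcon
      have hc : (S.erase v).card + 1 = S.card := Finset.card_erase_add_one hv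
      have hd := dc_erase G' S hv
      refine HasK.mono (le_refl G') (Finset.erase_subset v S) (IH G' (S.erase v) (by omega) (by omega) ?_)
      have h3 : 2 * q * S.card = 2 * q * (S.erase v).card + 2 * q := by
        rw [← hc]; ring
      omega
    · intro v hv w hw
      by_contra hlt
      push Not at hlt
      apply hcon
      rw [nb_nb_card] at hlt
      have hw' := mem_nb.mp hw
      have hM : ({(v, w)} : Finset (V × V)) ⊆ ed G' S := by
        rw [Finset.singleton_subset_iff, mem_ed]
        exact ⟨hv, hw'.1, hw'.2⟩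
      have hm : Mat ({(v, w)} : Finset (V × V)) := by
        intro f hf g hg
        rw [Finset.mem_singleton] at hf hg
        rw [hf, hg]
        exact not_touch_self _
      obtain ⟨Q, S', hS', hc, hle, hK⟩ := quot G' S {(v, w)} hM hm
      have hww : ww (PP G') ({(v, w)} : Finset (V × V)) = 0 := by
        unfold ww pw
        rw [Finset.sum_singleton, Finset.card_eq_zero, Finset.filter_eq_empty_iff]
        intro g hg
        rw [Finset.mem_singleton] at hg
        rw [hg]
        exact not_PP_self _ _
      rw [Finset.card_singleton] at hc hle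
      rw [Finset.sum_singleton, hww] at hle
      refine hK _ (IH Q S' (by omega) (by omega) ?_)
      have h3 : 2 * q * S.card = 2 * q * S'.card + 2 * q := by
        rw [← hc]; ring
      omega

end Pool.Agent.K6T
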