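import Pool.Agent.K6T.Mad6
import Pool.Agent.K6T.Exch
import Pool.Agent.K6T.Cnt
import Pool.Agent.K6T.CBd

/-!
# K6T / Main : minimum degree 7 and few triangles give a `K_6` minor
-/

set_option autoImplicit false

namespace Pool.Agent.K6T

open Finset
open Classical

variable {V : Type*}

/-- The main theorem: `S.card = n`, `dc G S = 2 e`, `∑ f ∈ ed G S, tri G S f = 6 T`. -/
theorem core (G : SimpleGraph V) (S : Finset V) (hne : S.Nonempty)
    (hd : ∀ v ∈ S, 7 ≤ (nb G S v).card)
    (hT : 653 * S.card + 10 * ∑ f ∈ ed G S, tri G S f ≤ 94 * dc G S + 2808) :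
    HasK 6 G S := by
  by_contra hno
  obtain ⟨M, hMmem, hmax⟩ := Finset.exists_max_image
    ((ed G S).powerset.filter (fun M => Mat M))
    (fun M => 92 * (M.card : ℤ) - 40 * ∑ f ∈ M, (tri G S f : ℤ) - 13 * (ww (PP G) M : ℤ))
    ⟨∅, by
      rw [Finset.mem_filter, Finset.mem_powerset]
      exact ⟨Finset.empty_subset _, fun f hf => absurd hf (Finset.notMem_empty f)⟩⟩
  rw [Finset.mem_filter, Finset.mem_powerset] at hMmem
  obtain ⟨hME, hM⟩ := hMmem
  have hinst : (fun a b => propDecidable (a = b) : DecidableEq (V × V)) = instDecidableEqProd :=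
    Subsingleton.elim _ _
  have hex := exch (PP G) Touch (fun a b h => h.symm) (not_PP_self G) (fun a b h => h.symm)
    not_touch_self (tri G S) (ed G S) M hME hM
    (fun M' hM' hM'' => hmax M' (by
      rw [Finset.mem_filter, Finset.mem_powerset]
      exact ⟨hM', hM''⟩))
    (fun f hf g hg h => by
      rw [hinst]
      exact touch_two hME hM hf hg h)
  rw [hinst, ed_card] at hex
  obtain ⟨Q, S', -, hS', hdc, hK⟩ := quot G S M hME hM
  have h2m := mat_card hME hM
  have hs := mat_deg hME hM hd
  -- the number of vertices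
  have hn : 8 ≤ S.card := by
    obtain ⟨v, hv⟩ := hne
    have h1 := hd v hv
    have h2 : insert v (nb G S v) ⊆ S := by
      intro w hw
      rcases Finset.mem_insert.1 hw with h | h
      · rw [h]; exact hv
      · exact (mem_nb.1 h).1
    have h3 : v ∉ nb G S v := fun h => (mem_nb.1 h).2.ne rfl
    have h4 := Finset.card_le_card h2
    rw [Finset.card_insert_of_notMem h3] at h4
    omega
  -- the sums over `M`
  have hD : ∑ f ∈ M, ((ed G S \ M).filter (fun e => Touch e f)).card + 3 * M.card =
      2 * ∑ f ∈ M, ((nb G S f.1).card + (nb G S f.2).card) := by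
    have h1 : ∑ f ∈ M, (((ed G S \ M).filter (fun e => Touch e f)).card + 3) =
        ∑ f ∈ M, 2 * ((nb G S f.1).card + (nb G S f.2).card) :=
      Finset.sum_congr rfl fun f hf => touch_card hME hM hf
    rw [Finset.sum_add_distrib, Finset.sum_const, smul_eq_mul, ← Finset.mul_sum] at h1
    omega
  have hD25 : ∀ f ∈ M, 25 ≤ ((ed G S \ M).filter (fun e => Touch e f)).card := by
    intro f hf
    have h1 := touch_card hME hM hf
    have h2 := mem_ed.1 (hME hf)
    have h3 := hd f.1 h2.1
    have h4 := hd f.2 h2.2.1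
    omega
  have hDt : 25 * ∑ f ∈ M, tri G S f ≤
      ∑ f ∈ M, ((ed G S \ M).filter (fun e => Touch e f)).card * tri G S f := by
    rw [Finset.mul_sum]
    exact Finset.sum_le_sum fun f hf => Nat.mul_le_mul_right _ (hD25 f hf)
  have hDp : 25 * ww (PP G) M ≤
      ∑ f ∈ M, ((ed G S \ M).filter (fun e => Touch e f)).card * pw (PP G) M f := by
    rw [ww, Finset.mul_sum]
    exact Finset.sum_le_sum fun f hf => Nat.mul_le_mul_right _ (hD25 f hf)
  have hc : ∑ f ∈ M, pw (PP G) (ed G S) f + 32 * M.card + 8 * ∑ f ∈ M, tri G S f ≤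
      6 * ∑ f ∈ M, ((nb G S f.1).card + (nb G S f.2).card) := by
    have h1 : ∑ f ∈ M, (pw (PP G) (ed G S) f + 32 + 8 * tri G S f) ≤
        ∑ f ∈ M, 6 * ((nb G S f.1).card + (nb G S f.2).card) :=
      Finset.sum_le_sum fun f hf => c_bound hd hno (hME hf)
    rw [Finset.sum_add_distrib, Finset.sum_add_distrib, Finset.sum_const, smul_eq_mul,
      ← Finset.mul_sum, ← Finset.mul_sum] at h1
    omega
  have hfin : HasK (4 + 2) Q S' := by
    apply mad4 V Q S'
    · omega
    · omega
  exact hno (hK 6 hfin)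

end Pool.Agent.K6T
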