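import Pool.Agent.K6T.Mad5
import Pool.Agent.K6T.Four7

/-!
# K6T / Nbhd : neighbourhoods of at most 7 vertices, and components

PROOFS.

`nbhd`: `4 |N| ≤ dc G N`. By `mad3` and `¬ HasK 5 G N`: `dc G N + 12 < 6 |N| + 2`, and by `dc_even`: `dc G N + 12 ≤ 6 |N|`. `|N| = 5`: `20 + 12 > 30`, impossible.
`|N| = 6`: `24 + 12 = 36`, equality. `|N| = 7`: `dc G N ∈ {28, 30}` (`dc_even`); if `dc G N = 28 = 4 · 7` then all `|nb G N w| = 4` and `four7` contradicts
`hno`; so `dc G N + 12 = 42`. Second part: `dc (G ⊔ edge a b) N + 12 = 6 |N| + 2` (`dc_add_edge`), so `mad3` applies.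

`exists_comp`: among the `C ⊆ R` with `Conn G C` (there is one: a singleton) take one with the largest number of elements. If `x ∈ C`, `y ∈ R`, `G.Adj x y`, `y ∉ C`, then
`insert y C` is connected (`conn_insert`) and larger.
-/

set_option autoImplicit false

namespace Pool.Agent.K6T

open Finset
open Classical

variable {V : Type*}

theorem nbhd (G : SimpleGraph V) (N : Finset V) (h5 : 5 ≤ N.card) (h7 : N.card ≤ 7)
    (hN : ∀ w ∈ N, 4 ≤ (nb G N w).card) (hno : ¬ HasK 5 G N) :
    dc G N + 12 = 6 * N.card ∧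
      ∀ a ∈ N, ∀ b ∈ N, a ≠ b → ¬ G.Adj a b → HasK 5 (G ⊔ SimpleGraph.edge a b) N := by
  have h4 : 4 * N.card ≤ dc G N := by
    unfold dc
    have := Finset.card_nsmul_le_sum N (fun w => (nb G N w).card) 4 hN
    simpa [mul_comm] using this
  have hm : dc G N + 12 < 6 * N.card + 2 := by
    by_contra hc
    exact hno (mad3 V G N (by omega) (by omega))
  obtain ⟨k, hk⟩ := dc_even G N
  have h12 : dc G N + 12 = 6 * N.card := by
    have h6 : dc G N + 12 ≤ 6 * N.card := by omega
    rcases (by omega : N.card = 5 ∨ N.card = 6 ∨ N.card = 7) with h | h | h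
    · omega
    · omega
    · by_contra hne
      have h28 : dc G N = 28 := by omega
      refine hno (four7 G N h fun w hw => ?_)
      by_contra hne4
      have h29 : 4 * N.card < dc G N := by
        unfold dc
        have := Finset.sum_lt_sum (s := N) (f := fun _ => 4) (g := fun w => (nb G N w).card) hN
          ⟨w, hw, by have := hN w hw; omega⟩
        simpa [mul_comm] using this
      omega
  refine ⟨h12, fun a ha b hb hab hadj => ?_⟩
  exact mad3 V _ N (by omega) (by rw [dc_add_edge ha hb hab hadj]; omega)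

theorem exists_comp (G : SimpleGraph V) (R : Finset V) (hR : R.Nonempty) :
    ∃ C : Finset V, C ⊆ R ∧ Conn G C ∧ ∀ x ∈ C, ∀ y ∈ R, G.Adj x y → y ∈ C := by
  obtain ⟨v, hv⟩ := hR
  have hne : (R.powerset.filter (fun C => Conn G C)).Nonempty :=
    ⟨{v}, by simp [hv, conn_singleton]⟩
  obtain ⟨C, hC, hmax⟩ := Finset.exists_max_image _ Finset.card hne
  rw [Finset.mem_filter, Finset.mem_powerset] at hC
  refine ⟨C, hC.1, hC.2, fun x hx y hy hxy => ?_⟩
  by_contra hyC
  have h1 := hmax (insert y C) (by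
    rw [Finset.mem_filter, Finset.mem_powerset]
    exact ⟨Finset.insert_subset hy hC.1, conn_insert hC.2 hx hxy.symm⟩)
  rw [Finset.card_insert_of_notMem hyC] at h1
  omega

end Pool.Agent.K6T
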